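import Pool.Agent.H46.CC.Flat

set_option autoImplicit false
set_option maxRecDepth 100000

/-!
# Certificates for closed chains with 4 tangles in each column
-/

namespace Pool.Agent.H46.CC

open Pool.Agent.K7.H46.TW

def c4p : CertW :=
  (.step 5 1 3 (.step 4 2 0 (.step 0 4 3 (.contra 5))))

theorem certs_4p : Certs 4 [true] := ⟨c4p, by decide +kernel⟩

def c4pp : CertW :=
  (.step 5 1 3 (.step 4 2 0 (.step 1 3 33 (.step 1 3 39 (.step 0 3 4 (.step 1 4 33 (.step 1 5 16 (.step 1 6 36 (.step 7 6 3 (.step 1 7 33 (.step 5 7 7 (.step 0 8 6 (.step 1 8 16 (.step 6 8 0 (.step 9 12 7 (.step 0 13 11 (.step 9 14 7 (.step 0 15 11 (.step 0 9 16 (.step 1 18 23 (.step 0 19 20 (.step 0 17 21 (.step 1 22 36 (.step 3 23 6 (.step 1 24 21 (.step 3 24 4 (.step 0 10 26 (.step 0 25 26 (.step 1 27 0 (.step 0 4 28 (.step 0 29 32 (.step 0 30 32 (.step 2 32 1 (.step 1 33 37 (.step 1 34 37 (.step 1 35 21 (.step 8 36 5 (.step 1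 37 22 (.step 8 38 1 (.step 1 39 21 (.step 0 39 40 (.step 0 31 41 (.step 1 42 0 (.step 5 43 2 (.step 0 45 44 (.step 0 46 47 (.contra 48)))))))))))))))))))))))))))))))))))))))))))))))

theorem certs_4pp : Certs 4 [true, true] := ⟨c4pp, by decide +kernel⟩

def c4pm : CertW :=
  (.step 5 1 3 (.step 4 2 0 (.step 0 3 4 (.step 4 5 7 (.step 0 0 6 (.step 0 1 6 (.step 0 2 6 (.step 2 7 5 (.step 2 8 6 (.step 2 9 4 (.step 0 10 11 (.step 0 5 12 (.step 0 14 13 (.contra 15))))))))))))))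

theorem certs_4pm : Certs 4 [true, false] := ⟨c4pm, by decide +kernel⟩

def c4ppm_0 : CertW :=
  (.step 0 11 46 (.step 0 46 31 (.step 1 46 65 (.step 2 46 11 (.step 2 47 10 (.step 1 48 65 (.step 2 48 10 (.step 0 49 12 (.step 1 49 32 (.step 1 49 34 (.step 1 49 52 (.step 0 51 50 (.step 1 52 36 (.step 1 52 38 (.step 0 53 43 (.step 1 54 34 (.step 2 55 11 (.step 0 57 58 (.step 2 60 10 (.step 3 61 6 (.step 0 65 63 (.step 0 59 66 (.step 1 66 37 (.step 1 68 37 (.step 2 68 9 (.step 1 69 38 (.step 1 70 34 (.step 1 70 64 (.step 0 71 64 (.step 0 71 67 (.step 5 72 6 (.step 2 74 9 (.step 1 75 51 (.step 5 76 8 (.step 0 78 77 (.step 0 80 56 (.step 0 80 62 (.step 0 80 73 (.step 1 80 35 (.step 1 82 35 (.step 1 83 35 (.step 1 84 35 (.step 4 84 5 (.step 0 85 79 (.step 9 86 4 (.step 6 87 1 (.step 8 88 5 (.step 0 89 81 (.step 1 90 50 (.step 0 91 92 (.step 5 94 2 (.step 0 93 95 (.step 1 96 21 (.step 1 97 1 (.step 1 98 21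 (.step 0 99 100 (.step 0 102 101 (.contra 103))))))))))))))))))))))))))))))))))))))))))))))))))))))))))

def c4ppm_1 : CertW :=
  (.step 0 80 19 (.step 1 80 37 (.step 1 81 37 (.step 4 81 6 (.step 1 82 50 (.step 1 83 64 (.step 8 83 6 (.step 0 41 84 (.step 0 85 71 (.step 5 88 10 (.step 0 89 87 (.step 0 86 90 (.step 4 91 9 (.step 0 93 92 (.contra 94)))))))))))))))

def c4ppm_2 : CertW :=
  (.step 0 64 80 (.step 0 80 53 (.step 1 80 37 (.step 1 81 37 (.step 1 82 37 (.step 4 82 5 (.step 1 83 20 (.step 7 83 2 (.step 8 84 5 (.step 8 85 5 (.step 0 66 86 (.step 0 75 86 (.step 0 66 87 (.step 0 16 88 (.step 0 88 89 (.step 0 89 78 (.step 0 90 71 (.step 0 90 76 (.step 0 90 79 (.step 0 91 70 (.step 0 92 70 (.step 0 93 89 (.step 0 95 77 (.step 0 94 96 (.step 1 99 21 (.step 5 103 3 (.step 1 104 17 (.step 1 105 0 (.step 1 106 35 (.step 1 107 0 (.step 2 108 2 (.step 1 109 18 (.step 3 110 0 (.step 0 111 97 (.step 0 111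 98 (.step 0 112 102 (.step 0 100 113 (.step 0 101 113 (.step 1 114 23 (.step 1 115 23 (.step 1 117 19 (.step 1 118 19 (.step 1 119 52 (.step 8 120 6 (.step 1 121 48 (.step 9 122 4 (.step 0 73 124 (.step 0 125 126 (.step 0 127 123 (.step 0 128 116 (.step 5 129 10 (.step 4 130 8 (.step 0 74 131 (.step 0 133 132 (.contra 134)))))))))))))))))))))))))))))))))))))))))))))))))))))))

def c4ppm_3 : CertW :=
  (.step 3 46 11 (.step 0 47 23 (.step 0 47 30 (.step 0 47 33 (.step 0 47 42 (.step 3 51 4 (.step 0 5 52 (.step 0 45 52 (.step 0 46 52 (.step 1 52 39 (.step 1 53 1 (.step 1 53 35 (.step 1 54 39 (.step 3 55 8 (.step 1 56 22 (.step 6 57 1 (.step 0 58 10 (.step 1 58 36 (.step 1 58 50 (.step 6 58 1 (.step 1 59 22 (.step 0 60 47 (.step 0 60 48 (.step 0 60 49 (.step 0 60 50 (.step 0 60 51 (.step 0 44 61 (.step 1 63 64 (.step 0 18 66 (.step 0 68 67 (.step 0 65 69 (.step 0 65 70 (.step 0 72 62 (.split [0] [36] c4ppm_1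 c4ppm_2))))))))))))))))))))))))))))))))))

def c4ppm : CertW :=
  (.step 1 1 23 (.step 5 1 3 (.step 4 2 0 (.step 9 3 3 (.step 1 4 1 (.step 1 4 33 (.step 1 4 35 (.step 1 4 39 (.step 0 4 5 (.step 1 5 1 (.step 1 5 33 (.step 1 5 39 (.step 0 6 5 (.step 7 7 3 (.step 1 8 16 (.step 1 9 18 (.step 1 10 36 (.step 7 10 3 (.step 1 11 33 (.step 1 11 39 (.step 5 11 7 (.step 0 13 10 (.step 1 13 16 (.step 6 13 0 (.step 1 14 22 (.step 1 14 54 (.step 1 15 39 (.step 9 21 7 (.step 1 22 64 (.step 9 22 7 (.step 0 23 20 (.step 1 23 23 (.step 9 24 7 (.step 0 25 20 (.step 0 17 26 (.step 0 20 27 (.step 0 28 32 (.step 0 34 29 (.step 0 35 36 (.step 0 30 37 (.step 0 32 38 (.step 0 39 38 (.step 1 40 38 (.split [32] [64] c4ppm_0 c4ppm_3))))))))))))))))))))))))))))))))))))))))))))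

theorem certs_4ppm : Certs 4 [true, true, false] := ⟨c4ppm, by decide +kernel⟩

def c4pmm_0 : CertW :=
  (.step 1 23 35 (.step 5 23 4 (.step 9 24 4 (.step 0 22 25 (.step 0 25 13 (.step 0 25 16 (.step 1 25 49 (.step 1 26 49 (.step 1 27 49 (.step 1 28 55 (.step 5 28 11 (.step 1 29 55 (.step 1 30 50 (.step 7 30 4 (.step 9 32 11 (.step 9 33 11 (.step 1 34 35 (.step 1 35 32 (.step 0 21 37 (.step 0 40 31 (.step 0 39 41 (.step 0 38 42 (.step 1 43 50 (.step 1 44 37 (.step 3 44 10 (.step 3 45 8 (.step 1 47 20 (.step 0 12 48 (.step 0 13 48 (.step 0 36 49 (.step 0 46 49 (.step 2 51 6 (.step 0 53 52 (.step 0 54 52 (.step 0 7 55 (.step 1 55 37 (.step 1 56 51 (.step 1 57 51 (.step 1 58 37 (.step 8 59 6 (.step 8 60 9 (.step 1 61 34 (.step 1 62 0 (.step 1 64 37 (.step 0 64 65 (.step 3 66 2 (.step 1 67 20 (.step 5 68 5 (.step 0 50 69 (.step 0 63 71 (.step 0 70 72 (.step 0 74 73 (.contra 75)))))))))))))))))))))))))))))))))))))))))))))))))))))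

def c4pmm_1 : CertW :=
  (.step 0 3 38 (.step 1 38 1 (.step 2 38 2 (.step 5 39 6 (.step 1 40 34 (.step 0 41 29 (.step 0 42 12 (.step 0 42 15 (.step 0 42 41 (.step 1 42 53 (.step 0 42 44 (.step 1 45 53 (.step 1 45 55 (.step 4 45 10 (.step 1 46 55 (.step 7 48 6 (.step 8 50 10 (.step 8 51 10 (.step 1 52 33 (.step 1 53 32 (.step 0 54 20 (.step 0 53 57 (.step 0 58 56 (.step 0 59 55 (.step 1 60 48 (.step 2 61 11 (.step 2 62 9 (.step 0 64 63 (.step 0 65 47 (.step 0 65 49 (.step 0 65 66 (.step 3 67 5 (.step 1 68 49 (.step 1 69 49 (.step 0 70 43 (.step 1 70 35 (.step 9 71 8 (.step 1 72 32 (.step 1 73 35 (.step 9 74 5 (.step 0 62 75 (.step 0 76 75 (.step 1 77 0 (.step 1 79 35 (.step 4 80 4 (.step 2 81 1 (.step 1 82 18 (.step 0 83 78 (.step 0 84 85 (.step 0 87 86 (.contra 88)))))))))))))))))))))))))))))))))))))))))))))))))))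

def c4pmm_2 : CertW :=
  (.step 0 38 24 (.step 3 38 2 (.step 1 39 35 (.step 1 39 37 (.step 5 39 5 (.step 9 41 5 (.step 1 42 22 (.step 9 42 5 (.step 0 36 43 (.step 0 43 28 (.step 0 43 29 (.step 1 43 49 (.step 1 43 51 (.step 0 40 45 (.step 0 46 11 (.step 0 46 29 (.step 1 47 51 (.step 1 49 49 (.step 1 49 51 (.step 5 49 8 (.step 1 50 34 (.step 1 51 52 (.step 7 51 5 (.step 0 46 52 (.step 1 54 51 (.step 9 55 8 (.step 9 56 8 (.step 9 57 8 (.step 1 58 35 (.step 1 58 39 (.step 0 59 37 (.step 0 35 61 (.step 1 63 64 (.step 7 67 8 (.step 1 68 52 (.step 0 65 69 (.step 0 64 70 (.step 0 71 66 (.step 0 72 44 (.step 0 72 48 (.step 1 74 39 (.step 3 75 9 (.step 3 76 9 (.step 1 79 16 (.step 0 60 80 (.step 0 81 53 (.step 0 81 62 (.step 0 83 11 (.step 0 83 28 (.step 0 83 40 (.step 1 84 53 (.step 3 85 6 (.step 1 86 53 (.step 1 86 55 (.step 4 86 10 (.step 1 87 55 (.step 1 88 53 (.step 1 89 22 (.step 1 90 39 (.step 8 91 10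 (.step 8 92 10 (.step 1 93 35 (.step 1 93 39 (.step 1 94 64 (.step 7 95 6 (.step 9 97 6 (.step 0 20 98 (.step 1 98 39 (.step 1 100 48 (.step 0 67 101 (.step 6 101 10 (.step 0 99 102 (.step 0 104 96 (.step 0 103 105 (.step 1 106 22 (.step 0 107 77 (.step 0 107 78 (.step 1 108 0 (.step 0 82 109 (.step 2 110 11 (.step 1 112 35 (.step 0 111 113 (.step 0 117 73 (.step 0 78 118 (.step 0 115 118 (.step 1 119 20 (.step 0 121 120 (.step 1 122 49 (.step 1 123 49 (.step 0 114 124 (.step 4 125 3 (.step 1 126 18 (.step 8 127 4 (.step 0 116 129 (.step 0 130 131 (.step 2 132 1 (.step 0 133 128 (.step 0 135 134 (.contra 136)))))))))))))))))))))))))))))))))))))))))))))))))))))))))))))))))))))))))))))))))))))))))))))))))))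

def c4pmm_3 : CertW :=
  (.step 0 4 23 (.step 4 23 4 (.step 2 24 1 (.step 1 25 49 (.step 0 26 16 (.step 0 26 25 (.step 1 26 49 (.step 6 27 4 (.step 1 29 49 (.step 1 30 34 (.step 0 31 19 (.step 1 32 34 (.step 1 32 50 (.step 0 33 34 (.split [0] [36] c4pmm_1 c4pmm_2)))))))))))))))

def c4pmm : CertW :=
  (.step 5 1 3 (.step 4 2 0 (.step 1 3 1 (.step 0 3 4 (.step 1 5 36 (.step 1 6 33 (.step 4 6 7 (.step 8 8 7 (.step 0 0 9 (.step 0 1 9 (.step 0 2 9 (.step 1 9 17 (.step 0 1 10 (.step 0 2 10 (.step 1 12 53 (.step 1 13 55 (.step 6 14 7 (.step 1 17 38 (.step 1 18 32 (.step 1 18 48 (.split [34] [32] c4pmm_0 c4pmm_3)))))))))))))))))))))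

theorem certs_4pmm : Certs 4 [true, false, false] := ⟨c4pmm, by decide +kernel⟩

def c4pmp_0 : CertW :=
  (.step 0 3 10 (.step 2 11 10 (.step 0 7 12 (.step 0 8 12 (.step 0 9 12 (.step 2 14 6 (.step 0 16 5 (.step 0 16 11 (.step 2 18 9 (.step 0 13 19 (.step 0 15 19 (.step 2 20 5 (.step 0 22 17 (.step 0 22 18 (.step 5 23 4 (.step 2 24 8 (.step 0 25 21 (.step 0 27 26 (.contra 28)))))))))))))))))))

def c4pmp_1 : CertW :=
  (.step 0 10 4 (.step 3 11 11 (.step 0 7 12 (.step 0 8 12 (.step 0 9 12 (.step 2 15 4 (.step 0 5 16 (.step 0 11 16 (.step 3 18 8 (.step 0 13 19 (.step 0 14 19 (.step 2 20 5 (.step 0 17 22 (.step 0 18 22 (.step 5 23 6 (.step 3 24 9 (.step 0 25 21 (.step 0 27 26 (.contra 28)))))))))))))))))))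

def c4pmp : CertW :=
  (.step 5 1 3 (.step 4 2 0 (.step 0 3 4 (.step 4 5 7 (.step 0 0 6 (.step 0 1 6 (.step 0 2 6 (.split [0] [64] c4pmp_0 c4pmp_1))))))))

theorem certs_4pmp : Certs 4 [true, false, true] := ⟨c4pmp, by decide +kernel⟩

end Pool.Agent.H46.CC
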