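import Pool.Agent.H46.CC.Flat

set_option autoImplicit false
set_option maxRecDepth 100000

/-!
# Certificates for closed chains with 4 tangles in each column
-/

namespace Pool.Agent.H46.CC

open Pool.Agent.K7.H46.TW

def c4ppmm_0 : CertW :=
  (.step 0 122 187 (.step 0 174 187 (.step 0 186 187 (.step 1 187 65 (.step 1 188 39 (.step 1 189 65 (.step 1 189 67 (.step 5 189 12 (.step 1 190 67 (.step 6 191 8 (.step 9 193 12 (.step 1 194 68 (.step 9 194 12 (.step 0 195 86 (.step 1 195 51 (.step 1 195 53 (.step 1 196 52 (.step 1 196 80 (.step 0 180 197 (.step 1 201 51 (.step 0 202 192 (.step 7 202 12 (.step 0 203 196 (.step 0 200 204 (.step 0 205 200 (.step 0 198 206 (.step 1 207 20 (.step 0 209 173 (.step 1 210 68 (.step 3 211 13 (.step 3 212 13 (.step 1 213 49 (.step 3 213 15 (.step 0 199 217 (.step 0 216 217 (.step 0 182 218 (.step 1 219 54 (.step 1 219 70 (.step 0 188 220 (.step 1 220 39 (.step 0 221 220 (.step 0 222 220 (.step 0 223 185 (.step 0 208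 227 (.step 1 228 69 (.step 1 228 71 (.step 4 228 14 (.step 1 229 69 (.step 1 230 71 (.step 8 232 14 (.step 8 233 14 (.step 0 224 234 (.step 0 234 213 (.step 1 234 55 (.step 1 235 52 (.step 1 236 80 (.step 1 237 55 (.step 1 239 55 (.step 4 240 11 (.step 1 241 16 (.step 1 241 32 (.step 6 241 14 (.step 0 237 242 (.step 0 238 243 (.step 0 235 244 (.step 1 244 38 (.step 8 245 11 (.step 1 246 71 (.step 0 214 247 (.step 0 226 249 (.step 5 250 10 (.step 9 252 10 (.step 0 248 254 (.step 0 254 225 (.step 6 255 11 (.step 0 258 253 (.step 0 249 259 (.step 0 257 259 (.step 1 260 71 (.step 0 262 251 (.step 0 261 263 (.step 1 264 39 (.step 1 265 39 (.step 1 266 64 (.step 2 267 15 (.step 4 268 7 (.step 0 231 269 (.step 1 270 66 (.step 0 215 272 (.step 0 256 273 (.step 9 274 9 (.step 0 209 275 (.step 0 276 271 (.step 2 277 5 (.step 0 279 278 (.step 1 280 65 (.step 0 282 281 (.step 1 283 48 (.step 3 284 8 (.step 0 286 285 (.contra 287)))))))))))))))))))))))))))))))))))))))))))))))))))))))))))))))))))))))))))))))))))))))))))))))))))))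

def c4ppmm_1 : CertW :=
  (.step 0 187 201 (.step 1 201 39 (.step 4 201 4 (.step 1 202 71 (.step 1 203 54 (.step 0 66 204 (.step 1 205 48 (.step 0 206 157 (.step 4 207 11 (.step 0 173 210 (.step 0 201 210 (.step 0 202 210 (.step 1 210 67 (.step 1 210 71 (.step 1 213 71 (.step 1 214 52 (.step 6 215 11 (.step 9 216 15 (.step 0 184 217 (.step 0 208 218 (.step 0 218 148 (.step 0 218 152 (.step 0 219 208 (.step 0 219 221 (.step 0 224 222 (.step 0 224 223 (.step 3 225 14 (.step 0 211 228 (.step 0 212 228 (.step 1 228 67 (.step 1 229 67 (.step 0 230 146 (.step 1 231 52 (.step 8 232 13 (.step 2 233 10 (.step 0 220 234 (.step 0 235 226 (.step 0 235 227 (.step 0 236 209 (.step 0 237 238 (.step 0 237 239 (.step 3 240 6 (.step 1 242 21 (.step 1 243 37 (.step 1 244 0 (.step 1 245 22 (.step 2 246 2 (.step 0 241 247 (.step 0 249 248 (.contra 250))))))))))))))))))))))))))))))))))))))))))))))))))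

def c4ppmm_2 : CertW :=
  (.step 0 172 270 (.step 0 265 270 (.step 0 268 270 (.step 5 271 12 (.step 0 274 188 (.step 1 275 55 (.step 3 275 15 (.step 1 276 68 (.step 0 272 277 (.step 0 273 277 (.step 4 279 14 (.step 0 278 280 (.step 1 281 55 (.step 10 282 14 (.step 0 284 283 (.contra 285))))))))))))))))

def c4ppmm_3 : CertW :=
  (.step 0 141 270 (.step 0 270 8 (.step 3 271 8 (.step 0 156 273 (.step 2 274 4 (.step 0 216 275 (.step 0 276 197 (.step 2 277 0 (.step 1 278 17 (.step 1 279 0 (.step 8 279 0 (.step 0 198 280 (.step 0 282 281 (.step 1 283 33 (.step 1 284 16 (.step 4 285 11 (.step 0 263 286 (.step 0 272 286 (.step 1 286 69 (.step 1 287 69 (.step 5 288 15 (.step 1 289 54 (.step 8 290 14 (.step 0 291 269 (.step 0 292 293 (.step 0 295 294 (.contra 296)))))))))))))))))))))))))))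

def c4ppmm_4 : CertW :=
  (.step 5 201 4 (.step 0 189 202 (.step 0 191 202 (.step 0 202 57 (.step 1 202 19 (.step 1 202 21 (.step 1 202 23 (.step 1 202 55 (.step 0 203 44 (.step 0 203 57 (.step 0 203 139 (.step 0 203 147 (.step 0 204 44 (.step 1 205 23 (.step 1 206 0 (.step 1 207 0 (.step 1 207 36 (.step 1 208 38 (.step 1 209 68 (.step 1 212 21 (.step 1 214 23 (.step 1 215 52 (.step 0 217 200 (.step 0 199 218 (.step 0 200 218 (.step 0 219 199 (.step 1 221 0 (.step 1 222 68 (.step 2 224 2 (.step 2 226 2 (.step 2 228 2 (.step 1 230 23 (.step 1 231 23 (.step 0 232 210 (.step 0 232 211 (.step 0 232 213 (.step 1 233 36 (.step 1 234 36 (.step 1 235 23 (.step 1 236 23 (.step 1 237 23 (.step 0 227 238 (.step 0 225 239 (.step 1 240 52 (.step 1 241 52 (.step 8 242 6 (.step 4 243 6 (.step 4 244 6 (.step 0 157 247 (.step 0 158 247 (.step 0 248 223 (.step 0 249 56 (.step 0 249 78 (.step 0 250 246 (.step 0 251 245 (.step 1 253 53 (.step 1 254 53 (.step 5 255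 10 (.step 5 256 10 (.step 1 257 38 (.step 9 258 10 (.step 0 48 259 (.step 1 259 69 (.step 0 229 260 (.step 0 220 262 (.step 7 264 10 (.step 0 266 261 (.step 0 252 267 (.split [0] [64] c4ppmm_2 c4ppmm_3)))))))))))))))))))))))))))))))))))))))))))))))))))))))))))))))))))))

def c4ppmm_5 : CertW :=
  (.step 3 187 8 (.step 0 119 188 (.step 0 155 188 (.step 0 161 188 (.step 1 188 17 (.step 1 188 21 (.step 1 190 19 (.step 1 192 0 (.step 1 193 36 (.step 1 194 32 (.step 0 170 195 (.step 0 133 196 (.step 0 167 196 (.split [34] [32] c4ppmm_1 c4ppmm_4))))))))))))))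

def c4ppmm_6 : CertW :=
  (.step 0 171 90 (.step 0 171 91 (.step 0 171 114 (.step 1 171 67 (.step 3 171 9 (.step 1 174 65 (.step 7 175 9 (.step 1 176 53 (.step 1 177 50 (.step 0 119 178 (.step 1 179 68 (.step 9 179 9 (.step 0 181 107 (.step 0 183 91 (.step 0 183 114 (.split [34] [64] c4ppmm_0 c4ppmm_5))))))))))))))))

def c4ppmm_7 : CertW :=
  (.step 0 265 282 (.step 0 282 104 (.step 0 282 277 (.step 1 282 67 (.step 1 282 69 (.step 1 283 67 (.step 1 283 69 (.step 5 283 13 (.step 1 284 67 (.step 1 285 67 (.step 1 286 52 (.step 0 273 287 (.step 9 288 13 (.step 9 289 13 (.step 0 290 210 (.step 6 291 9 (.step 9 292 13 (.step 0 293 278 (.step 0 295 276 (.step 0 296 210 (.step 3 297 14 (.step 0 299 300 (.step 0 301 298 (.step 1 302 81 (.step 0 303 264 (.step 0 303 274 (.step 3 304 14 (.step 1 305 51 (.step 0 294 306 (.step 1 307 71 (.step 3 307 11 (.step 1 308 71 (.step 4 308 15 (.step 0 309 121 (.step 0 309 268 (.step 0 310 273 (.step 0 310 311 (.step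 7 312 11 (.step 0 313 201 (.step 8 314 15 (.step 1 315 49 (.step 1 316 71 (.step 1 317 71 (.step 1 319 80 (.step 3 321 4 (.step 1 322 49 (.step 1 323 34 (.step 0 318 324 (.step 0 318 325 (.step 0 326 320 (.step 1 327 71 (.step 1 330 64 (.step 0 331 328 (.step 1 333 48 (.step 8 335 8 (.step 0 332 336 (.step 0 329 337 (.step 0 339 334 (.step 1 339 65 (.step 1 340 65 (.step 1 341 80 (.step 8 342 15 (.step 0 343 338 (.step 0 345 344 (.contra 346)))))))))))))))))))))))))))))))))))))))))))))))))))))))))))))))))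

def c4ppmm_8 : CertW :=
  (.step 0 282 268 (.step 0 282 281 (.step 1 283 65 (.step 5 283 12 (.step 1 284 65 (.step 9 285 12 (.step 0 286 211 (.step 1 287 50 (.step 3 289 14 (.step 0 288 290 (.step 0 291 274 (.step 3 292 15 (.step 0 294 293 (.contra 295))))))))))))))

def c4ppmm_9 : CertW :=
  (.step 2 209 10 (.step 0 172 210 (.step 0 173 210 (.step 0 175 210 (.step 0 177 210 (.step 0 178 210 (.step 0 210 199 (.step 0 210 51 (.step 1 210 21 (.step 0 212 51 (.step 0 212 61 (.step 0 212 148 (.step 0 212 205 (.step 0 213 47 (.step 0 214 47 (.step 0 215 47 (.step 1 216 55 (.step 1 218 0 (.step 1 222 21 (.step 1 224 17 (.step 1 226 68 (.step 0 227 208 (.step 1 228 0 (.step 1 229 0 (.step 2 231 2 (.step 2 232 2 (.step 3 233 0 (.step 0 185 234 (.step 0 235 219 (.step 0 235 220 (.step 0 235 221 (.step 0 223 236 (.step 0 225 236 (.step 0 237 217 (.step 1 238 23 (.step 1 239 23 (.step 1 240 23 (.step 1 241 19 (.step 1 242 19 (.step 1 243 23 (.step 1 244 52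 (.step 1 245 52 (.step 8 246 6 (.step 1 247 48 (.step 9 248 4 (.step 0 157 252 (.step 0 158 252 (.step 0 253 254 (.step 0 255 251 (.step 0 256 250 (.step 0 257 165 (.step 5 258 10 (.step 5 259 10 (.step 4 260 8 (.step 0 48 261 (.step 0 200 262 (.step 0 230 262 (.step 1 262 69 (.step 0 263 141 (.step 1 263 65 (.step 1 265 67 (.step 1 265 69 (.step 1 266 69 (.step 0 249 267 (.step 0 265 268 (.step 6 269 8 (.step 1 270 52 (.step 1 271 66 (.step 1 272 54 (.step 0 275 140 (.step 1 279 51 (.step 1 280 64 (.split [0] [66] c4ppmm_7 c4ppmm_8)))))))))))))))))))))))))))))))))))))))))))))))))))))))))))))))))))))))))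

def c4ppmm_10 : CertW :=
  (.step 0 203 209 (.step 0 209 122 (.step 0 209 189 (.step 0 209 193 (.step 1 209 69 (.step 1 210 69 (.step 1 211 67 (.step 1 212 67 (.step 5 212 13 (.step 1 213 67 (.step 0 19 214 (.step 1 214 70 (.step 7 214 10 (.step 9 215 13 (.step 1 216 52 (.step 9 217 13 (.step 1 218 53 (.step 1 219 52 (.step 1 220 70 (.step 0 202 222 (.step 0 218 222 (.step 0 225 224 (.step 1 226 22 (.step 1 226 38 (.step 7 226 13 (.step 0 225 227 (.step 0 223 229 (.step 1 230 55 (.step 0 232 162 (.step 0 233 188 (.step 0 234 211 (.step 1 235 51 (.step 3 235 12 (.step 3 236 14 (.step 1 241 48 (.step 1 241 64 (.step 0 189 242 (.step 0 221 243 (.step 0 228 243 (.step 1 243 71 (.step 1 246 71 (.step 0 247 18 (.step 0 247 122 (.step 0 247 246 (.step 0 248 186 (.step 0 237 249 (.step 3 251 11 (.step 1 252 65 (.step 1 253 65 (.step 1 253 71 (.step 4 253 15 (.step 3 254 11 (.step 0 255 250 (.step 0 256 201 (.step 1 257 80 (.step 8 258 15 (.step 8 259 15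 (.step 0 244 260 (.step 0 260 225 (.step 0 260 231 (.step 0 260 235 (.step 1 260 49 (.step 0 261 204 (.step 1 262 54 (.step 3 263 4 (.step 0 265 264 (.step 1 266 49 (.step 1 267 49 (.step 1 268 53 (.step 1 269 53 (.step 1 270 51 (.step 4 270 8 (.step 1 271 18 (.step 1 271 34 (.step 6 271 15 (.step 0 266 273 (.step 1 274 33 (.step 1 275 81 (.step 0 262 276 (.step 1 276 32 (.step 8 277 8 (.step 1 278 66 (.step 1 279 66 (.step 8 280 8 (.step 0 274 281 (.step 1 281 33 (.step 1 281 65 (.step 0 39 282 (.step 0 108 282 (.step 0 144 282 (.step 5 285 11 (.step 0 226 286 (.step 9 288 11 (.step 0 283 290 (.step 0 290 245 (.step 0 240 293 (.step 0 292 293 (.step 1 293 65 (.step 0 294 284 (.step 6 296 8 (.step 0 300 289 (.step 0 301 295 (.step 0 284 302 (.step 1 303 65 (.step 0 287 307 (.step 0 308 302 (.step 0 309 260 (.step 0 309 275 (.step 0 304 310 (.step 1 312 33 (.step 1 313 66 (.step 1 314 80 (.step 1 315 33 (.step 2 317 12 (.step 4 318 4 (.step 0 311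 319 (.step 2 321 12 (.step 1 322 68 (.step 0 240 323 (.step 0 282 324 (.step 0 297 324 (.step 0 298 324 (.step 0 299 324 (.step 9 325 10 (.step 0 305 326 (.step 0 306 326 (.step 0 291 327 (.step 0 328 320 (.step 1 328 67 (.step 1 329 23 (.step 1 334 67 (.step 1 335 67 (.step 0 336 333 (.step 1 337 67 (.step 1 339 0 (.step 1 340 36 (.step 8 341 9 (.step 0 239 344 (.step 0 345 346 (.step 0 348 342 (.step 5 349 6 (.step 0 316 350 (.step 0 332 350 (.step 0 350 238 (.step 1 350 23 (.step 0 351 238 (.step 1 352 23 (.step 1 353 51 (.step 0 354 343 (.step 1 354 38 (.step 1 355 51 (.step 0 356 338 (.step 0 358 357 (.step 0 359 347 (.step 0 361 360 (.step 3 363 3 (.step 1 364 18 (.step 0 330 365 (.step 0 331 365 (.step 1 367 17 (.step 1 368 17 (.step 0 369 362 (.step 0 370 362 (.step 8 371 4 (.step 1 372 18 (.step 0 366 373 (.step 0 373 272 (.step 0 375 272 (.step 0 374 376 (.step 10 377 0 (.step 4 378 0 (.step 1 379 0 (.step 0 381 380 (.contra 382))))))))))))))))))))))))))))))))))))))))))))))))))))))))))))))))))))))))))))))))))))))))))))))))))))))))))))))))))))))))))))))))))))))))))))))))))))))))))))))))))))))))))))))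

def c4ppmm_11 : CertW :=
  (.step 2 171 9 (.step 0 119 172 (.step 0 151 172 (.step 0 155 172 (.step 0 161 172 (.step 0 163 172 (.step 0 164 172 (.step 1 172 21 (.step 1 172 53 (.step 1 174 21 (.step 2 176 6 (.step 1 179 36 (.step 8 180 9 (.step 1 181 22 (.step 0 182 90 (.step 0 182 93 (.step 0 182 166 (.step 0 182 171 (.step 1 182 33 (.step 1 182 39 (.step 0 167 183 (.step 0 182 184 (.step 1 186 39 (.step 1 187 39 (.step 1 189 67 (.step 1 190 16 (.step 1 191 54 (.step 1 194 54 (.step 1 194 68 (.step 1 195 54 (.step 1 196 52 (.step 1 196 68 (.step 0 59 197 (.step 0 198 153 (.step 1 201 21 (.step 1 206 0 (.step 0 207 192 (.split [38] [68] c4ppmm_9 c4ppmm_10))))))))))))))))))))))))))))))))))))))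

def c4ppmm_12 : CertW :=
  (.step 0 5 121 (.step 0 31 121 (.step 0 68 121 (.step 0 111 121 (.step 0 121 103 (.step 0 121 115 (.step 1 121 1 (.step 1 121 35 (.step 1 121 39 (.step 2 121 1 (.step 1 122 39 (.step 0 123 115 (.step 1 123 39 (.step 1 124 39 (.step 0 125 115 (.step 1 126 35 (.step 1 127 37 (.step 6 128 1 (.step 1 129 48 (.step 1 129 64 (.step 6 129 1 (.step 1 130 22 (.step 0 101 131 (.step 1 131 21 (.step 1 132 68 (.step 1 134 22 (.step 1 135 22 (.step 1 136 37 (.step 8 137 5 (.step 1 138 20 (.step 0 66 139 (.step 0 109 139 (.step 0 25 142 (.step 0 142 112 (.step 0 142 120 (.step 0 60 143 (.step 0 65 143 (.step 1 144 23 (.step 8 145 1 (.step 1 149 20 (.step 0 105 150 (.step 0 110 151 (.step 0 154 112 (.step 0 154 120 (.step 1 159 0 (.step 0 160 115 (.step 1 161 17 (.step 1 168 0 (.step 0 69 169 (.split [66] [36] c4ppmm_6 c4ppmm_11))))))))))))))))))))))))))))))))))))))))))))))))))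

def c4ppmm_13 : CertW :=
  (.step 2 162 10 (.step 0 163 133 (.step 0 163 134 (.step 3 164 6 (.step 5 165 9 (.step 0 166 162 (.step 0 167 146 (.step 0 167 155 (.step 1 167 67 (.step 0 167 168 (.step 1 168 67 (.step 7 171 9 (.step 1 172 67 (.step 1 173 52 (.step 8 175 13 (.step 0 174 176 (.step 0 178 177 (.step 1 179 49 (.step 2 179 12 (.step 1 180 70 (.step 0 181 169 (.step 0 181 170 (.step 5 183 15 (.step 0 184 182 (.step 1 185 49 (.step 11 186 15 (.step 0 188 187 (.contra 189))))))))))))))))))))))))))))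

def c4ppmm_14 : CertW :=
  (.step 0 162 145 (.step 0 162 150 (.step 1 162 69 (.step 1 163 69 (.step 1 163 71 (.step 4 163 14 (.step 1 164 71 (.step 7 165 10 (.step 8 166 14 (.step 1 167 64 (.step 8 167 14 (.step 1 168 49 (.step 1 168 55 (.step 1 169 48 (.step 1 169 80 (.step 0 170 156 (.step 0 157 171 (.step 0 169 174 (.step 6 175 14 (.step 0 176 173 (.step 0 173 177 (.step 0 178 171 (.step 1 180 64 (.step 0 146 181 (.step 2 182 15 (.step 2 183 15 (.step 1 184 51 (.step 2 184 13 (.step 0 187 172 (.step 0 187 185 (.step 0 151 188 (.step 1 189 36 (.step 0 190 191 (.step 0 190 192 (.step 0 193 142 (.step 1 195 65 (.step 1 195 67 (.step 5 195 12 (.step 1 196 65 (.step 1 197 67 (.step 9 198 12 (.step 9 199 12 (.step 0 171 200 (.step 0 179 200 (.step 0 184 200 (.step 1 200 51 (.step 1 201 48 (.step 1 203 51 (.step 1 204 81 (.step 1 205 55 (.step 1 206 55 (.step 1 207 51 (.step 1 207 53 (.step 1 208 20 (.step 0 209 203 (.step 1 210 34 (.step 0 202 211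 (.step 1 212 68 (.step 1 213 68 (.step 9 214 9 (.step 9 215 9 (.step 0 216 161 (.step 4 217 8 (.step 0 222 194 (.step 0 223 186 (.step 0 223 221 (.step 1 223 67 (.step 0 218 225 (.step 0 229 219 (.step 0 230 226 (.step 1 231 80 (.step 5 232 5 (.step 3 233 13 (.step 0 234 224 (.step 0 235 227 (.step 0 235 228 (.step 1 236 55 (.step 1 237 69 (.step 1 238 69 (.step 0 240 239 (.step 9 241 10 (.step 1 242 38 (.step 0 220 243 (.step 0 245 244 (.contra 246)))))))))))))))))))))))))))))))))))))))))))))))))))))))))))))))))))))))))))))))))))))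

def c4ppmm_15 : CertW :=
  (.step 0 121 8 (.step 1 121 35 (.step 3 121 1 (.step 1 122 35 (.step 4 122 4 (.step 7 123 1 (.step 0 66 124 (.step 0 89 124 (.step 8 125 4 (.step 0 66 126 (.step 0 127 40 (.step 0 128 97 (.step 0 128 112 (.step 1 129 55 (.step 1 131 49 (.step 1 131 55 (.step 4 131 11 (.step 0 132 130 (.step 1 134 49 (.step 1 135 16 (.step 1 136 64 (.step 8 136 11 (.step 8 137 11 (.step 0 18 138 (.step 0 91 138 (.step 1 139 55 (.step 1 140 70 (.step 3 141 7 (.step 0 18 143 (.step 0 91 143 (.step 1 145 69 (.step 1 146 69 (.step 1 147 32 (.step 0 151 148 (.step 1 152 54 (.step 1 153 54 (.step 0 149 154 (.step 0 158 144 (.step 1 159 39 (.step 1 160 54 (.split [38] [68] c4ppmm_13 c4ppmm_14)))))))))))))))))))))))))))))))))))))))))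

def c4ppmm_16 : CertW :=
  (.step 1 112 21 (.step 2 112 5 (.step 6 113 5 (.step 1 114 35 (.step 1 114 37 (.step 8 116 5 (.step 8 117 5 (.step 0 118 102 (.split [0] [34] c4ppmm_12 c4ppmm_15)))))))))

def c4ppmm_17 : CertW :=
  (.step 3 112 5 (.step 0 113 90 (.step 0 113 91 (.step 1 114 35 (.step 3 114 1 (.step 1 115 35 (.step 1 115 71 (.step 4 115 4 (.step 7 116 1 (.step 0 66 117 (.step 8 118 4 (.step 1 119 48 (.step 0 66 120 (.step 0 112 121 (.step 0 122 97 (.step 0 40 123 (.step 4 125 11 (.step 1 127 23 (.step 0 126 128 (.step 0 18 129 (.step 0 115 129 (.step 1 129 71 (.step 1 130 52 (.step 1 131 51 (.step 5 131 8 (.step 1 133 65 (.step 6 134 11 (.step 9 136 8 (.step 0 137 133 (.step 1 137 65 (.step 1 137 71 (.step 1 138 50 (.step 0 124 139 (.step 0 140 133 (.step 1 141 65 (.step 1 141 71 (.step 5 141 15 (.step 7 142 8 (.step 1 143 48 (.step 1 146 65 (.step 1 147 66 (.step 9 147 15 (.step 9 148 15 (.step 1 149 51 (.step 0 150 144 (.step 0 151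 145 (.step 0 156 152 (.step 0 154 157 (.step 0 155 158 (.step 1 159 66 (.step 3 160 12 (.step 3 161 14 (.step 0 153 163 (.step 0 162 163 (.step 0 132 164 (.step 0 165 164 (.step 0 166 164 (.step 2 167 10 (.step 1 168 67 (.step 1 169 67 (.step 0 135 170 (.step 1 170 53 (.step 8 171 13 (.step 1 172 50 (.step 1 173 53 (.step 8 174 10 (.step 0 175 161 (.step 0 175 176 (.step 1 177 22 (.step 1 179 53 (.step 5 180 9 (.step 3 181 6 (.step 1 182 36 (.step 0 184 178 (.step 0 183 185 (.step 0 187 186 (.contra 188)))))))))))))))))))))))))))))))))))))))))))))))))))))))))))))))))))))))))))))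

def c4ppmm_18 : CertW :=
  (.step 0 90 8 (.step 0 90 16 (.step 0 90 75 (.step 1 90 1 (.step 1 90 35 (.step 1 90 37 (.step 3 90 2 (.step 1 91 67 (.step 1 92 33 (.step 1 93 39 (.step 7 94 2 (.step 1 95 50 (.step 1 96 34 (.step 1 96 66 (.step 7 96 2 (.step 1 97 21 (.step 1 98 52 (.step 1 99 16 (.step 1 100 54 (.step 0 23 105 (.step 9 106 2 (.split [20] [50] c4ppmm_16 c4ppmm_17))))))))))))))))))))))

def c4ppmm_19 : CertW :=
  (.step 0 138 152 (.step 0 143 152 (.step 1 152 67 (.step 1 153 67 (.step 1 153 69 (.step 5 153 13 (.step 1 154 69 (.step 6 155 9 (.step 9 156 13 (.step 1 157 70 (.step 9 157 13 (.step 0 158 118 (.step 1 158 53 (.step 1 158 55 (.step 1 159 54 (.step 1 159 80 (.step 0 149 160 (.step 1 164 53 (.step 7 165 13 (.step 0 166 159 (.step 0 163 167 (.step 0 168 163 (.step 0 161 169 (.step 1 170 22 (.step 0 171 137 (.step 1 172 70 (.step 3 173 14 (.step 3 174 14 (.step 1 175 51 (.step 3 175 12 (.step 0 162 179 (.step 0 178 179 (.step 0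 134 180 (.step 0 135 180 (.step 1 181 48 (.step 1 181 64 (.step 0 183 182 (.step 0 184 182 (.step 0 185 142 (.step 0 186 141 (.step 1 189 65 (.step 1 189 71 (.step 4 189 15 (.step 1 190 71 (.step 3 191 11 (.step 1 192 65 (.step 8 193 15 (.step 8 194 15 (.step 0 187 195 (.step 0 195 175 (.step 1 195 49 (.step 1 196 54 (.step 0 126 197 (.step 1 198 80 (.step 1 200 49 (.step 1 201 49 (.step 4 202 8 (.step 1 203 18 (.step 1 203 34 (.step 6 203 15 (.step 0 200 204 (.step 3 205 4 (.step 0 199 206 (.step 0 196 207 (.step 1 207 32 (.step 8 208 8 (.step 1 209 65 (.step 0 209 212 (.step 5 213 11 (.step 0 8 214 (.step 0 214 209 (.step 0 214 211 (.step 1 214 65 (.step 9 216 11 (.step 0 218 188 (.step 6 219 8 (.step 0 214 220 (.step 0 221 217 (.step 2 222 1 (.step 1 223 33 (.step 0 224 218 (.step 1 225 50 (.step 0 212 226 (.step 0 228 215 (.step 0 229 226 (.step 0 227 230 (.step 0 176 231 (.step 0 165 232 (.step 1 233 65 (.step 1 235 33 (.step 0 234 236 (.step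 1 237 33 (.step 4 238 4 (.step 0 239 210 (.step 1 241 66 (.step 0 240 242 (.step 2 243 12 (.step 1 244 68 (.step 0 246 245 (.step 9 248 10 (.step 0 177 249 (.step 0 171 250 (.step 2 251 6 (.step 0 253 247 (.step 0 254 252 (.step 1 256 67 (.step 0 257 255 (.step 1 258 50 (.step 3 259 9 (.step 0 261 260 (.contra 262)))))))))))))))))))))))))))))))))))))))))))))))))))))))))))))))))))))))))))))))))))))))))))))))))))))))))))))))

def c4ppmm_20 : CertW :=
  (.step 0 35 171 (.step 1 172 49 (.step 4 172 11 (.step 8 173 11 (.step 0 137 174 (.step 0 141 174 (.step 1 174 69 (.step 1 174 71 (.step 0 137 175 (.step 1 176 69 (.step 1 176 71 (.step 4 176 14 (.step 1 177 69 (.step 1 178 54 (.step 6 179 11 (.step 1 180 71 (.step 8 181 14 (.step 1 182 64 (.step 8 182 14 (.step 1 183 49 (.step 1 184 54 (.step 0 170 185 (.step 0 148 186 (.step 0 187 191 (.step 0 192 188 (.step 0 193 188 (.step 0 194 190 (.step 1 195 64 (.step 2 196 13 (.step 2 198 15 (.step 0 200 201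 (.step 0 202 189 (.step 0 202 199 (.step 1 203 65 (.step 1 204 65 (.step 9 205 12 (.step 1 206 48 (.step 0 197 207 (.step 0 208 207 (.step 1 209 51 (.step 4 210 8 (.step 1 211 34 (.step 0 213 212 (.contra 214))))))))))))))))))))))))))))))))))))))))))))

def c4ppmm_21 : CertW :=
  (.step 0 171 151 (.step 0 171 154 (.step 1 172 55 (.step 4 173 8 (.step 1 174 68 (.step 0 158 175 (.step 0 161 175 (.step 0 162 175 (.step 1 175 65 (.step 0 176 177 (.step 1 179 65 (.step 6 180 8 (.step 9 182 12 (.step 0 166 183 (.step 0 184 185 (.step 1 186 55 (.step 3 186 15 (.step 1 187 68 (.step 0 178 188 (.step 0 181 188 (.step 4 190 14 (.step 0 189 191 (.step 1 192 55 (.step 10 193 14 (.step 0 195 194 (.contra 196))))))))))))))))))))))))))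

def c4ppmm_22 : CertW :=
  (.step 3 152 9 (.step 0 119 153 (.step 0 120 153 (.step 0 153 133 (.step 1 153 51 (.step 2 155 5 (.step 1 156 51 (.step 9 157 9 (.step 0 138 158 (.step 0 152 158 (.step 1 159 20 (.step 1 162 65 (.step 2 163 5 (.step 1 164 50 (.step 0 160 165 (.step 1 167 35 (.step 1 168 50 (.step 0 169 150 (.split [16] [48] c4ppmm_20 c4ppmm_21)))))))))))))))))))

def c4ppmm_23 : CertW :=
  (.step 0 5 90 (.step 0 10 90 (.step 0 88 90 (.step 0 31 90 (.step 0 68 90 (.step 0 90 26 (.step 1 90 69 (.step 2 90 2 (.step 1 91 39 (.step 1 92 39 (.step 1 93 39 (.step 1 94 39 (.step 1 95 39 (.step 4 96 6 (.step 1 97 54 (.step 0 98 79 (.step 0 98 80 (.step 1 98 23 (.step 8 99 6 (.step 1 100 22 (.step 1 101 22 (.step 1 102 22 (.step 1 103 22 (.step 0 65 104 (.step 5 106 3 (.step 1 107 23 (.step 0 108 87 (.step 1 108 52 (.step 0 110 109 (.step 0 111 109 (.step 0 112 109 (.step 0 113 109 (.step 5 114 10 (.step 0 115 90 (.step 1 116 52 (.step 1 117 48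 (.step 1 120 21 (.step 1 121 55 (.step 1 122 55 (.step 5 122 10 (.step 1 123 69 (.step 0 119 125 (.step 1 127 50 (.step 1 128 70 (.step 1 129 70 (.step 9 129 10 (.step 0 130 18 (.step 0 130 124 (.step 1 130 69 (.step 7 131 10 (.step 0 136 18 (.step 0 136 77 (.step 0 136 124 (.step 1 137 71 (.step 1 138 67 (.step 7 139 10 (.step 0 132 140 (.step 1 144 48 (.step 1 145 52 (.step 0 146 50 (.step 0 147 105 (.split [36] [66] c4ppmm_19 c4ppmm_22))))))))))))))))))))))))))))))))))))))))))))))))))))))))))))))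

def c4ppmm_24 : CertW :=
  (.step 0 79 28 (.step 0 79 76 (.step 1 79 21 (.step 1 79 23 (.step 1 80 23 (.step 1 81 17 (.step 1 82 50 (.step 0 83 73 (.step 1 84 38 (.step 1 85 54 (.split [36] [0] c4ppmm_18 c4ppmm_23)))))))))))

def c4ppmm_25 : CertW :=
  (.step 0 1 79 (.step 0 2 79 (.step 4 80 2 (.step 5 81 1 (.step 0 5 82 (.step 0 68 82 (.step 0 82 26 (.step 1 82 39 (.step 0 83 8 (.step 0 83 82 (.step 1 84 39 (.step 1 85 39 (.step 4 86 6 (.step 1 87 22 (.step 4 88 4 (.step 5 89 5 (.step 8 90 6 (.step 1 91 22 (.step 0 65 92 (.step 0 66 94 (.step 0 95 43 (.step 0 93 96 (.step 0 97 96 (.step 5 98 10 (.step 4 99 11 (.step 0 100 101 (.step 5 102 10 (.step 0 27 103 (.step 0 8 104 (.step 1 104 69 (.step 4 105 9 (.step 0 106 84 (.step 1 106 69 (.step 0 107 108 (.step 1 109 54 (.step 0 111 110 (.step 7 112 10 (.step 1 113 69 (.step 5 115 13 (.step 0 116 50 (.step 8 117 14 (.step 0 118 119 (.step 0 114 120 (.step 0 122 121 (.contra 123)))))))))))))))))))))))))))))))))))))))))))))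

def c4ppmm : CertW :=
  (.step 1 1 17 (.step 1 1 23 (.step 5 1 3 (.step 1 2 17 (.step 1 2 23 (.step 4 2 0 (.step 9 3 3 (.step 9 4 3 (.step 1 5 1 (.step 1 5 33 (.step 1 5 35 (.step 1 5 39 (.step 1 6 38 (.step 8 6 0 (.step 1 7 38 (.step 0 5 8 (.step 1 8 33 (.step 1 8 35 (.step 1 8 39 (.step 1 10 39 (.step 7 11 3 (.step 1 12 16 (.step 1 13 18 (.step 1 14 36 (.step 1 14 68 (.step 7 14 3 (.step 0 15 5 (.step 0 5 16 (.step 0 17 10 (.step 1 18 33 (.step 1 18 39 (.step 1 18 69 (.step 5 18 7 (.step 0 19 14 (.step 1 19 16 (.step 1 19 54 (.step 6 19 0 (.step 1 20 18 (.step 1 21 22 (.step 0 7 22 (.step 0 0 28 (.step 0 2 28 (.step 0 29 16 (.step 1 30 33 (.step 9 32 7 (.step 1 33 68 (.step 9 33 7 (.step 1 34 54 (.step 0 35 28 (.step 1 35 17 (.step 9 36 7 (.step 0 37 28 (.step 0 24 39 (.step 1 42 52 (.step 0 44 41 (.step 5 45 7 (.step 0 38 47 (.step 0 49 28 (.step 0 51 41 (.step 1 51 23 (.step 7 52 7 (.step 0 53 39 (.step 0 53 54 (.step 0 47 55 (.step 1 58 55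 (.step 1 62 38 (.step 0 63 9 (.step 1 64 55 (.step 1 66 55 (.step 0 46 67 (.step 0 22 70 (.step 0 42 70 (.step 1 70 38 (.step 1 71 16 (.step 1 72 32 (.step 1 74 52 (.split [20] [16] c4ppmm_24 c4ppmm_25)))))))))))))))))))))))))))))))))))))))))))))))))))))))))))))))))))))))))))))

theorem certs_4ppmm : Certs 4 [true, true, false, false] := ⟨c4ppmm, by decide +kernel⟩

def c4ppmp_0 : CertW :=
  (.step 0 17 156 (.step 0 105 156 (.step 0 113 156 (.step 1 156 17 (.step 0 157 32 (.step 0 158 32 (.step 0 159 32 (.step 1 160 32 (.step 1 161 17 (.step 0 164 45 (.step 0 164 123 (.step 1 165 0 (.step 3 166 0 (.step 3 168 0 (.step 1 169 19 (.step 0 162 170 (.step 0 163 170 (.step 1 171 32 (.step 1 172 19 (.step 1 173 19 (.step 0 174 167 (.step 1 175 48 (.step 9 176 4 (.step 5 177 4 (.step 0 178 179 (.step 0 122 180 (.step 0 129 180 (.step 1 180 49 (.step 0 181 114 (.step 0 181 115 (.step 1 182 49 (.step 1 183 49 (.step 1 184 18 (.step 1 184 34 (.step 1 185 49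 (.step 4 186 8 (.step 1 187 64 (.step 1 188 50 (.step 1 188 80 (.step 8 188 8 (.step 3 189 4 (.step 0 136 190 (.step 1 191 64 (.step 0 153 192 (.step 4 194 8 (.step 0 198 196 (.step 0 200 193 (.step 0 200 199 (.step 0 197 201 (.step 4 202 12 (.step 1 203 65 (.step 1 204 65 (.step 0 206 195 (.step 1 207 54 (.step 1 208 48 (.step 2 209 15 (.step 2 211 15 (.step 0 205 212 (.step 0 155 213 (.step 2 214 11 (.step 5 215 14 (.step 0 210 216 (.step 0 110 217 (.step 0 219 218 (.contra 220)))))))))))))))))))))))))))))))))))))))))))))))))))))))))))))))))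

def c4ppmp_1 : CertW :=
  (.step 0 156 140 (.step 2 157 14 (.step 0 158 149 (.step 0 158 150 (.step 3 159 11 (.step 5 160 15 (.step 0 161 157 (.step 0 163 162 (.contra 164)))))))))

def c4ppmp_2 : CertW :=
  (.step 0 110 139 (.step 0 135 139 (.step 0 139 138 (.step 1 139 81 (.step 2 139 12 (.step 2 141 13 (.step 1 142 81 (.step 1 143 50 (.step 6 143 12 (.step 0 145 133 (.step 0 145 144 (.step 1 146 52 (.step 2 147 12 (.step 0 148 132 (.step 2 151 13 (.step 0 154 152 (.split [22] [54] c4ppmp_0 c4ppmp_1)))))))))))))))))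

def c4ppmp_3 : CertW :=
  (.step 3 139 12 (.step 0 95 140 (.step 0 140 133 (.step 0 140 134 (.step 0 141 132 (.step 3 143 8 (.step 3 144 8 (.step 0 106 145 (.step 0 139 145 (.step 1 145 17 (.step 0 107 146 (.step 3 148 15 (.step 1 149 0 (.step 2 150 4 (.step 0 151 142 (.step 0 128 152 (.step 0 44 153 (.step 3 154 11 (.step 1 156 33 (.step 0 147 157 (.step 1 157 17 (.step 1 158 18 (.step 1 160 0 (.step 0 161 159 (.step 0 155 162 (.step 4 163 0 (.step 0 165 164 (.contra 166))))))))))))))))))))))))))))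

def c4ppmp_4 : CertW :=
  (.step 0 126 130 (.step 0 130 55 (.step 0 130 56 (.step 0 130 73 (.step 3 130 9 (.step 0 131 124 (.step 1 135 53 (.step 1 137 80 (.split [50] [80] c4ppmp_2 c4ppmp_3)))))))))

def c4ppmp_5 : CertW :=
  (.step 0 221 211 (.step 4 222 13 (.step 0 214 223 (.step 0 220 223 (.step 2 224 14 (.step 0 219 226 (.step 1 226 71 (.step 1 227 71 (.step 1 228 80 (.step 9 229 15 (.step 0 225 230 (.step 0 232 231 (.contra 233)))))))))))))

def c4ppmp_6 : CertW :=
  (.step 0 216 221 (.step 0 221 201 (.step 4 222 12 (.step 4 223 12 (.step 0 218 224 (.step 0 193 225 (.step 2 226 15 (.step 0 227 212 (.step 0 228 217 (.step 0 228 219 (.step 1 230 71 (.step 2 230 11 (.step 1 231 71 (.step 1 232 54 (.step 0 233 229 (.step 9 234 14 (.step 0 235 236 (.step 0 238 237 (.contra 239)))))))))))))))))))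

def c4ppmp_7 : CertW :=
  (.step 2 153 10 (.step 0 132 154 (.step 0 133 154 (.step 0 135 154 (.step 0 136 154 (.step 1 154 17 (.step 0 155 33 (.step 0 155 99 (.step 0 155 151 (.step 0 156 32 (.step 0 157 32 (.step 0 158 32 (.step 1 159 0 (.step 1 162 21 (.step 1 164 17 (.step 0 145 166 (.step 1 167 0 (.step 1 168 0 (.step 3 169 0 (.step 2 170 2 (.step 3 171 0 (.step 0 156 172 (.step 0 173 160 (.step 0 173 161 (.step 0 163 174 (.step 0 165 174 (.step 0 175 152 (.step 1 176 23 (.step 1 177 23 (.step 1 178 19 (.step 1 179 19 (.step 1 180 19 (.step 1 181 52 (.step 8 182 6 (.step 1 183 48 (.step 9 184 4 (.step 9 185 4 (.step 0 108 187 (.step 0 188 189 (.step 0 190 106 (.step 0 191 186 (.step 0 192 115 (.step 0 192 139 (.step 5 194 10 (.step 4 195 8 (.step 0 150 197 (.step 1 197 69 (.step 0 198 95 (.step 1 198 65 (.step 1 199 69 (.step 0 94 200 (.step 1 200 38 (.step 1 200 52 (.step 1 201 65 (.step 0 202 185 (.step 1 202 34 (.step 1 202 48 (.step 1 203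 66 (.step 1 203 80 (.step 0 202 204 (.step 3 205 10 (.step 0 196 206 (.step 1 207 66 (.step 1 208 70 (.step 2 209 8 (.step 1 213 70 (.step 0 210 215 (.split [0] [66] c4ppmp_5 c4ppmp_6))))))))))))))))))))))))))))))))))))))))))))))))))))))))))))))))))))

def c4ppmp_8 : CertW :=
  (.step 0 153 13 (.step 0 153 143 (.step 3 153 10 (.step 4 155 13 (.step 0 131 157 (.step 0 156 157 (.step 2 158 12 (.step 2 159 14 (.step 0 155 160 (.step 0 161 154 (.step 0 161 162 (.step 3 163 11 (.step 5 164 15 (.step 0 165 159 (.step 0 167 166 (.contra 168))))))))))))))))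

def c4ppmp_9 : CertW :=
  (.step 2 130 9 (.step 0 78 131 (.step 0 106 131 (.step 0 110 131 (.step 0 112 131 (.step 0 114 131 (.step 1 131 17 (.step 2 134 6 (.step 0 136 21 (.step 1 137 0 (.step 0 39 138 (.step 0 138 55 (.step 0 138 130 (.step 1 138 39 (.step 0 128 140 (.step 0 141 55 (.step 1 142 39 (.step 1 144 54 (.step 1 146 33 (.step 1 147 68 (.step 0 148 103 (.step 1 149 18 (.split [38] [68] c4ppmp_7 c4ppmp_8)))))))))))))))))))))))

def c4ppmp_10 : CertW :=
  (.step 0 43 80 (.step 0 70 80 (.step 0 80 63 (.step 0 80 74 (.step 1 80 1 (.step 1 80 35 (.step 1 80 39 (.step 2 80 1 (.step 1 81 39 (.step 0 82 74 (.step 1 83 35 (.step 1 84 37 (.step 6 85 1 (.step 0 86 12 (.step 1 86 64 (.step 6 86 1 (.step 1 87 22 (.step 1 88 19 (.step 1 89 22 (.step 1 90 37 (.step 8 91 5 (.step 1 92 20 (.step 0 67 93 (.step 0 19 96 (.step 0 96 60 (.step 0 96 71 (.step 0 96 79 (.step 0 41 97 (.step 8 98 1 (.step 1 100 20 (.step 0 64 101 (.step 0 68 102 (.step 0 104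 60 (.step 0 104 71 (.step 0 104 79 (.step 1 105 19 (.step 0 44 109 (.step 0 55 109 (.step 1 110 17 (.step 1 110 51 (.step 1 111 51 (.step 1 116 48 (.step 0 117 69 (.step 0 118 69 (.step 1 119 0 (.step 1 120 66 (.step 0 121 116 (.step 0 45 125 (.step 1 127 48 (.split [66] [36] c4ppmp_4 c4ppmp_9))))))))))))))))))))))))))))))))))))))))))))))))))

def c4ppmp_11 : CertW :=
  (.step 0 5 90 (.step 0 55 90 (.step 2 91 10 (.step 0 93 85 (.step 0 93 86 (.step 5 95 9 (.step 0 96 89 (.step 0 96 92 (.step 5 98 13 (.step 0 99 94 (.step 0 99 95 (.step 3 100 15 (.step 3 101 12 (.step 0 97 102 (.step 0 104 103 (.contra 105))))))))))))))))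

def c4ppmp_12 : CertW :=
  (.step 0 90 88 (.step 5 91 14 (.step 0 92 85 (.step 0 92 86 (.step 3 93 15 (.step 3 94 12 (.step 0 89 95 (.step 0 91 95 (.step 0 97 96 (.step 0 98 96 (.step 2 99 9 (.step 4 100 13 (.step 0 94 101 (.step 0 103 102 (.contra 104)))))))))))))))

def c4ppmp_13 : CertW :=
  (.step 0 80 6 (.step 3 80 1 (.step 4 81 4 (.step 0 42 82 (.step 0 42 83 (.step 0 84 71 (.step 4 85 11 (.step 0 6 87 (.step 0 56 87 (.split [0] [68] c4ppmp_11 c4ppmp_12))))))))))

def c4ppmp_14 : CertW :=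
  (.step 1 71 21 (.step 2 71 5 (.step 6 72 5 (.step 1 73 35 (.step 1 73 37 (.step 8 75 5 (.step 8 76 5 (.step 0 77 62 (.split [0] [34] c4ppmp_10 c4ppmp_13)))))))))

def c4ppmp_15 : CertW :=
  (.step 3 71 5 (.step 0 72 55 (.step 0 72 56 (.step 1 73 35 (.step 1 74 35 (.step 4 74 4 (.step 7 75 1 (.step 8 76 4 (.step 0 42 77 (.step 0 71 78 (.step 0 31 79 (.step 4 80 11 (.step 0 81 82 (.step 0 13 83 (.step 0 74 83 (.step 5 84 8 (.step 0 87 86 (.step 4 88 15 (.step 0 80 89 (.step 0 84 89 (.step 2 90 14 (.step 2 91 12 (.step 0 85 92 (.step 0 88 92 (.step 2 94 10 (.step 0 93 95 (.step 0 96 90 (.step 5 97 13 (.step 0 99 98 (.contra 100))))))))))))))))))))))))))))))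

def c4ppmp_16 : CertW :=
  (.step 0 55 6 (.step 0 55 48 (.step 1 55 35 (.step 1 55 37 (.step 3 55 2 (.step 1 57 39 (.step 1 58 50 (.step 1 59 34 (.step 7 59 2 (.step 1 60 19 (.step 1 60 21 (.step 1 61 54 (.step 0 17 64 (.step 1 65 34 (.step 9 66 2 (.split [20] [50] c4ppmp_14 c4ppmp_15))))))))))))))))

def c4ppmp_17 : CertW :=
  (.step 0 25 81 (.step 2 82 14 (.step 0 83 79 (.step 0 83 80 (.step 3 84 11 (.step 0 86 77 (.step 0 86 75 (.step 0 86 82 (.step 3 87 4 (.step 2 89 15 (.step 0 84 90 (.step 0 91 85 (.step 0 91 92 (.step 3 94 8 (.step 0 95 88 (.step 0 95 89 (.step 4 96 9 (.step 2 97 12 (.step 0 93 98 (.step 0 100 99 (.contra 101)))))))))))))))))))))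

def c4ppmp_18 : CertW :=
  (.step 0 81 73 (.step 3 82 13 (.step 0 83 79 (.step 0 83 80 (.step 3 85 9 (.step 0 74 86 (.step 0 75 86 (.step 0 82 86 (.step 2 87 5 (.step 3 89 12 (.step 0 85 90 (.step 0 91 84 (.step 0 91 92 (.step 3 94 8 (.step 0 88 95 (.step 0 89 95 (.step 4 96 11 (.step 3 97 15 (.step 0 93 98 (.step 0 100 99 (.contra 101)))))))))))))))))))))

def c4ppmp_19 : CertW :=
  (.step 0 5 55 (.step 0 8 55 (.step 0 54 55 (.step 0 43 55 (.step 2 55 2 (.step 1 56 39 (.step 1 57 39 (.step 1 58 39 (.step 1 59 39 (.step 0 60 49 (.step 1 60 23 (.step 8 61 6 (.step 1 62 22 (.step 1 63 22 (.step 1 64 22 (.step 5 65 3 (.step 0 66 53 (.step 0 68 67 (.step 0 69 67 (.step 0 70 67 (.step 0 71 55 (.step 1 72 54 (.step 5 75 10 (.step 0 78 13 (.step 0 78 76 (.split [16] [80] c4ppmp_17 c4ppmp_18))))))))))))))))))))))))))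

def c4ppmp_20 : CertW :=
  (.step 0 49 23 (.step 1 49 23 (.step 1 50 23 (.step 0 51 47 (.step 1 52 38 (.split [36] [0] c4ppmp_16 c4ppmp_19))))))

def c4ppmp_21 : CertW :=
  (.step 0 1 49 (.step 0 2 49 (.step 4 50 2 (.step 5 51 1 (.step 0 52 20 (.step 0 28 53 (.step 0 53 6 (.step 0 53 52 (.step 1 53 35 (.step 4 54 6 (.step 1 55 35 (.step 4 56 4 (.step 5 57 5 (.step 7 58 1 (.step 0 41 59 (.step 8 60 4 (.step 0 42 61 (.step 0 62 63 (.step 5 64 10 (.step 0 65 29 (.step 4 66 11 (.step 0 22 68 (.step 0 67 69 (.step 0 6 70 (.step 0 56 70 (.step 5 72 8 (.step 0 71 73 (.step 0 75 74 (.step 5 76 14 (.step 4 77 15 (.step 0 78 66 (.step 0 80 79 (.contra 81)))))))))))))))))))))))))))))))))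

def c4ppmp : CertW :=
  (.step 1 1 17 (.step 1 1 23 (.step 5 1 3 (.step 4 2 0 (.step 9 3 3 (.step 9 4 3 (.step 1 5 1 (.step 1 5 33 (.step 1 5 35 (.step 1 5 39 (.step 0 5 6 (.step 1 6 33 (.step 1 6 35 (.step 1 8 39 (.step 7 9 3 (.step 1 10 16 (.step 1 11 18 (.step 1 12 36 (.step 1 12 52 (.step 1 12 68 (.step 7 12 3 (.step 1 13 33 (.step 5 13 7 (.step 0 14 12 (.step 1 14 16 (.step 1 14 34 (.step 1 14 48 (.step 6 14 0 (.step 1 15 18 (.step 9 24 7 (.step 0 25 23 (.step 1 25 17 (.step 9 26 7 (.step 0 27 23 (.step 0 18 30 (.step 1 33 23 (.step 7 34 7 (.step 0 35 30 (.step 0 35 36 (.step 0 32 37 (.step 1 38 38 (.step 0 39 5 (.step 0 39 7 (.step 1 40 55 (.step 0 16 46 (.step 1 46 38 (.split [20] [16] c4ppmp_20 c4ppmp_21)))))))))))))))))))))))))))))))))))))))))))))))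

theorem certs_4ppmp : Certs 4 [true, true, false, true] := ⟨c4ppmp, by decide +kernel⟩

def c4pmpp_0 : CertW :=
  (.step 0 44 115 (.step 0 1 115 (.step 0 51 115 (.step 2 116 5 (.step 1 117 23 (.step 5 118 8 (.step 0 119 106 (.step 1 120 52 (.step 0 121 67 (.step 0 121 76 (.step 0 121 119 (.step 1 121 65 (.step 0 121 122 (.step 1 124 65 (.step 1 124 71 (.step 4 124 15 (.step 1 125 71 (.step 7 127 8 (.step 8 129 15 (.step 8 130 15 (.step 1 131 55 (.step 1 132 54 (.step 0 133 88 (.step 0 132 136 (.step 0 137 135 (.step 0 138 134 (.step 1 139 68 (.step 2 140 14 (.step 2 141 12 (.step 0 143 142 (.step 0 144 126 (.step 0 144 128 (.step 0 144 145 (.step 3 146 9 (.step 1 147 69 (.step 1 148 69 (.step 0 149 123 (.step 1 149 53 (.step 9 150 13 (.step 1 151 54 (.step 1 152 53 (.step 9 153 9 (.step 0 141 154 (.step 0 155 154 (.step 1 156 22 (.step 1 158 53 (.step 4 159 10 (.step 2 160 6 (.step 1 161 38 (.step 0 162 157 (.step 0 163 164 (.step 0 166 165 (.contra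 167)))))))))))))))))))))))))))))))))))))))))))))))))))))

def c4pmpp_1 : CertW :=
  (.step 0 115 97 (.step 1 115 53 (.step 1 116 51 (.step 1 116 53 (.step 5 116 9 (.step 1 117 36 (.step 9 118 9 (.step 9 119 9 (.step 0 113 120 (.step 0 120 103 (.step 0 120 105 (.step 0 120 106 (.step 1 120 37 (.step 1 120 67 (.step 1 120 69 (.step 0 121 111 (.step 1 122 67 (.step 1 124 67 (.step 1 125 69 (.step 1 127 69 (.step 5 127 13 (.step 7 128 9 (.step 1 129 64 (.step 7 129 9 (.step 1 130 52 (.step 0 123 131 (.step 9 133 13 (.step 1 134 52 (.step 9 135 13 (.step 1 136 51 (.step 1 136 53 (.step 0 137 86 (.step 0 112 139 (.step 0 140 114 (.step 1 141 39 (.step 0 144 143 (.step 0 145 132 (.step 0 146 78 (.step 7 146 13 (.step 0 142 148 (.step 0 144 149 (.step 1 150 52 (.step 1 152 64 (.step 0 154 126 (.step 0 154 141 (.step 3 155 12 (.step 1 156 49 (.step 0 138 161 (.step 0 158 161 (.step 1 162 32 (.step 0 163 104 (.step 0 163 105 (.step 0 164 104 (.step 1 166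 65 (.step 1 166 71 (.step 4 166 15 (.step 1 167 71 (.step 1 168 65 (.step 8 169 15 (.step 8 170 15 (.step 0 171 144 (.step 1 171 49 (.step 1 171 53 (.step 1 172 80 (.step 1 173 50 (.step 0 174 151 (.step 1 174 49 (.step 1 176 53 (.step 0 128 177 (.step 1 177 18 (.step 6 177 15 (.step 1 178 68 (.step 0 175 179 (.step 0 174 180 (.step 0 173 182 (.step 1 182 34 (.step 1 183 68 (.step 0 43 185 (.step 0 67 186 (.step 0 187 159 (.step 0 187 160 (.step 2 188 14 (.step 5 189 8 (.step 9 190 8 (.step 0 65 197 (.step 0 75 197 (.step 0 159 197 (.step 0 195 197 (.step 0 84 198 (.step 0 165 198 (.step 1 198 35 (.step 0 186 199 (.step 0 194 199 (.step 1 200 69 (.step 0 201 64 (.step 1 202 69 (.step 1 203 69 (.step 0 204 191 (.step 0 205 191 (.step 7 206 8 (.step 1 207 35 (.step 1 208 35 (.step 1 209 52 (.step 2 210 10 (.step 1 211 38 (.step 8 212 10 (.step 1 213 35 (.step 4 214 4 (.step 0 147 215 (.step 0 153 216 (.step 1 217 66 (.step 0 181 218 (.step 0 157 219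 (.step 0 220 221 (.step 0 221 192 (.step 1 222 48 (.step 0 193 223 (.step 1 223 19 (.step 9 225 9 (.step 0 224 227 (.step 1 228 53 (.step 0 229 192 (.step 0 229 196 (.step 1 230 39 (.step 1 231 19 (.step 0 184 233 (.step 1 233 48 (.step 0 226 234 (.step 1 235 53 (.step 1 236 16 (.step 1 237 39 (.step 1 238 39 (.step 1 240 16 (.step 1 241 20 (.step 2 242 4 (.step 0 237 243 (.step 0 244 239 (.step 0 245 232 (.step 1 246 22 (.step 1 246 52 (.step 1 247 52 (.step 5 251 6 (.step 1 252 0 (.step 9 252 6 (.step 0 256 248 (.step 0 253 257 (.step 0 255 259 (.step 4 260 0 (.step 0 261 254 (.step 0 263 250 (.step 4 264 3 (.step 2 265 1 (.step 0 258 266 (.step 0 249 267 (.step 2 268 2 (.step 0 269 262 (.step 0 271 270 (.contra 272))))))))))))))))))))))))))))))))))))))))))))))))))))))))))))))))))))))))))))))))))))))))))))))))))))))))))))))))))))))))))))))))))))))))))))))))))))))))))))))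

def c4pmpp_2 : CertW :=
  (.step 1 93 69 (.step 2 93 10 (.step 6 94 10 (.step 0 19 95 (.step 0 26 95 (.step 0 96 80 (.step 0 97 7 (.step 2 98 6 (.step 1 100 53 (.step 0 101 11 (.step 0 101 66 (.step 0 101 74 (.step 0 101 93 (.step 1 101 69 (.step 1 102 22 (.step 1 106 69 (.step 1 107 52 (.step 2 108 6 (.step 1 109 52 (.step 1 109 66 (.step 0 110 99 (.split [16] [50] c4pmpp_0 c4pmpp_1))))))))))))))))))))))

def c4pmpp_3 : CertW :=
  (.step 0 93 66 (.step 0 93 74 (.step 1 93 69 (.step 1 93 71 (.step 1 94 69 (.step 1 94 71 (.step 5 94 14 (.step 1 95 71 (.step 7 96 10 (.step 1 97 54 (.step 9 98 14 (.step 9 99 14 (.step 1 101 54 (.step 0 100 102 (.step 0 102 85 (.step 0 103 91 (.step 0 103 92 (.step 0 105 106 (.step 0 107 85 (.step 0 104 108 (.step 0 105 109 (.step 0 105 110 (.step 3 111 15 (.step 3 113 13 (.step 0 116 87 (.step 1 116 65 (.step 1 117 67 (.step 1 118 65 (.step 0 119 98 (.step 1 119 70 (.step 1 119 80 (.step 9 119 15 (.step 1 120 52 (.step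 6 121 8 (.step 0 122 120 (.step 5 123 15 (.step 0 124 112 (.step 0 124 114 (.step 0 125 127 (.step 8 128 12 (.step 0 129 127 (.step 0 130 126 (.step 1 132 51 (.step 0 133 124 (.step 0 133 131 (.step 0 133 134 (.step 0 133 135 (.step 1 136 34 (.step 1 137 51 (.step 1 139 51 (.step 5 140 9 (.step 1 142 36 (.step 0 141 144 (.step 1 144 37 (.step 0 146 145 (.step 0 147 142 (.step 0 147 143 (.step 1 147 50 (.step 1 147 66 (.step 4 148 5 (.step 1 149 20 (.step 1 150 0 (.step 1 150 34 (.step 8 150 5 (.step 0 151 138 (.step 3 152 9 (.step 0 153 115 (.step 4 156 5 (.step 0 157 158 (.step 0 154 160 (.step 0 161 159 (.step 4 162 1 (.step 0 155 165 (.step 2 166 2 (.step 0 167 163 (.step 0 167 164 (.step 1 168 23 (.step 2 169 6 (.step 1 170 38 (.step 0 172 171 (.contra 173)))))))))))))))))))))))))))))))))))))))))))))))))))))))))))))))))))))))))))))))))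

def c4pmpp_4 : CertW :=
  (.step 1 45 35 (.step 5 45 4 (.step 1 46 18 (.step 0 23 47 (.step 0 40 47 (.step 0 47 2 (.step 0 47 27 (.step 1 47 49 (.step 0 49 29 (.step 0 49 30 (.step 0 49 48 (.step 1 50 49 (.step 1 51 55 (.step 1 52 55 (.step 4 52 11 (.step 1 53 18 (.step 4 55 11 (.step 8 57 11 (.step 1 58 68 (.step 8 59 11 (.step 0 11 60 (.step 0 45 60 (.step 1 60 33 (.step 1 60 35 (.step 1 60 39 (.step 3 61 4 (.step 1 62 71 (.step 0 63 41 (.step 0 11 65 (.step 0 42 65 (.step 0 45 65 (.step 1 66 69 (.step 1 67 35 (.step 1 67 65 (.step 6 68 11 (.step 1 69 18 (.step 1 70 22 (.step 6 72 11 (.step 0 71 73 (.step 1 77 52 (.step 1 78 50 (.step 1 78 64 (.step 1 79 48 (.step 0 56 81 (.step 0 54 82 (.step 0 83 89 (.step 0 83 90 (.split [38] [68] c4pmpp_2 c4pmpp_3))))))))))))))))))))))))))))))))))))))))))))))))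

def c4pmpp_5 : CertW :=
  (.step 2 61 5 (.step 0 46 62 (.step 0 47 62 (.step 2 63 2 (.step 1 64 69 (.step 5 64 6 (.step 0 65 61 (.step 1 66 52 (.step 0 67 26 (.step 0 67 68 (.step 5 70 10 (.step 1 71 51 (.step 4 71 9 (.step 0 72 11 (.step 0 72 64 (.step 1 72 69 (.step 8 73 9 (.step 1 74 67 (.step 1 74 69 (.step 0 76 74 (.step 1 76 67 (.step 7 77 10 (.step 0 76 78 (.step 6 79 9 (.step 1 80 52 (.step 1 81 67 (.step 1 81 69 (.step 4 81 13 (.step 1 82 50 (.step 0 83 69 (.step 1 84 67 (.step 1 87 64 (.step 8 87 13 (.step 8 88 13 (.step 1 89 51 (.step 0 90 85 (.step 0 91 86 (.step 0 92 96 (.step 0 97 94 (.step 0 98 95 (.step 1 99 64 (.step 2 100 12 (.step 2 101 14 (.step 0 103 93 (.step 0 103 102 (.step 0 104 75 (.step 0 104 105 (.step 0 104 106 (.step 3 107 11 (.step 1 108 65 (.step 1 109 65 (.step 0 110 39 (.step 1 110 49 (.step 9 111 15 (.step 1 112 50 (.step 1 113 49 (.step 9 114 11 (.step 0 101 115 (.step 0 116 115 (.step 1 117 18 (.step 1 119 49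 (.step 4 120 8 (.step 2 121 4 (.step 1 122 34 (.step 0 123 118 (.step 0 124 125 (.step 0 127 126 (.contra 128))))))))))))))))))))))))))))))))))))))))))))))))))))))))))))))))))))

def c4pmpp_6 : CertW :=
  (.step 0 106 112 (.step 0 110 112 (.step 0 111 112 (.step 0 113 96 (.step 0 114 96 (.step 0 115 96 (.step 1 116 69 (.step 1 117 69 (.step 1 118 69 (.step 8 119 13 (.step 1 120 52 (.step 1 121 52 (.step 0 123 122 (.step 0 124 122 (.step 1 125 49 (.step 2 126 14 (.step 1 127 64 (.step 0 128 107 (.step 0 128 108 (.step 5 130 15 (.step 0 131 129 (.step 1 132 49 (.step 11 133 15 (.step 0 135 134 (.contra 136)))))))))))))))))))))))))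

def c4pmpp_7 : CertW :=
  (.step 3 112 2 (.step 0 99 113 (.step 3 114 6 (.step 0 103 115 (.step 0 105 115 (.step 0 116 96 (.step 0 117 96 (.step 1 118 69 (.step 1 119 69 (.step 8 120 13 (.step 1 121 52 (.step 0 123 122 (.step 1 124 49 (.step 2 124 14 (.step 1 125 64 (.step 0 126 107 (.step 0 126 109 (.step 5 128 15 (.step 0 129 127 (.step 1 130 49 (.step 11 131 15 (.step 0 133 132 (.contra 134)))))))))))))))))))))))

def c4pmpp_8 : CertW :=
  (.step 2 96 9 (.step 0 78 97 (.step 0 97 61 (.step 0 97 64 (.step 1 98 53 (.step 1 100 53 (.step 5 100 10 (.step 9 101 10 (.step 9 102 10 (.step 0 103 4 (.step 0 103 82 (.step 0 103 88 (.step 0 103 93 (.step 0 104 79 (.step 0 105 4 (.split [0] [36] c4pmpp_6 c4pmpp_7))))))))))))))))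

def c4pmpp_9 : CertW :=
  (.step 0 96 85 (.step 0 96 89 (.step 1 96 67 (.step 1 97 65 (.step 1 97 67 (.step 4 97 12 (.step 1 98 65 (.step 7 99 9 (.step 1 100 70 (.step 8 100 12 (.step 8 101 12 (.step 1 102 49 (.step 1 102 51 (.step 1 102 55 (.step 1 103 48 (.step 1 103 70 (.step 1 103 80 (.step 0 104 95 (.step 0 94 107 (.step 0 103 108 (.step 0 17 109 (.step 6 109 12 (.step 1 110 70 (.step 0 111 106 (.step 0 106 113 (.step 0 114 107 (.step 1 116 70 (.step 0 82 118 (.step 0 83 118 (.step 0 84 118 (.step 2 120 15 (.step 2 121 15 (.step 1 122 55 (.step 2 122 13 (.step 0 127 105 (.step 0 127 112 (.step 0 127 123 (.step 0 88 128 (.step 0 92 128 (.step 1 129 38 (.step 0 130 131 (.step 0 130 132 (.step 0 130 133 (.step 0 134 80 (.step 2 135 11 (.step 1 137 69 (.step 1 137 71 (.step 5 137 14 (.step 1 138 71 (.step 1 139 71 (.step 1 140 69 (.step 1 141 55 (.step 9 142 14 (.step 9 143 14 (.step 0 107 144 (.step 0 115 144 (.step 0 122 144 (.step 1 144 53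 (.step 1 144 55 (.step 1 145 32 (.step 1 146 48 (.step 1 147 80 (.step 8 148 11 (.step 1 149 81 (.step 1 150 55 (.step 1 151 51 (.step 1 152 51 (.step 1 153 53 (.step 1 153 55 (.step 5 153 10 (.step 1 154 68 (.step 1 155 16 (.step 7 155 14 (.step 0 157 150 (.step 0 158 149 (.step 0 156 159 (.step 0 147 160 (.step 0 161 146 (.step 1 161 32 (.step 1 162 66 (.step 1 163 66 (.step 9 164 10 (.step 9 165 10 (.step 0 166 11 (.step 0 166 16 (.step 1 166 33 (.step 1 166 69 (.step 0 119 169 (.step 4 170 11 (.step 8 174 11 (.step 0 175 172 (.step 0 167 178 (.step 0 178 124 (.step 0 178 177 (.step 1 178 69 (.step 0 179 136 (.step 0 169 180 (.step 0 182 117 (.step 7 183 10 (.step 0 184 181 (.step 0 175 185 (.step 0 186 169 (.step 1 188 69 (.step 0 191 173 (.step 0 186 193 (.step 0 171 195 (.step 0 187 196 (.step 0 197 192 (.step 1 198 33 (.step 1 199 66 (.step 1 200 80 (.step 1 201 33 (.step 3 202 13 (.step 1 203 33 (.step 5 204 7 (.step 0 205 194 (.step 3 207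 13 (.step 1 208 64 (.step 0 206 209 (.step 1 210 16 (.step 0 211 168 (.step 8 212 8 (.step 0 213 189 (.step 0 213 190 (.step 0 214 176 (.step 0 215 124 (.step 0 211 216 (.step 1 217 23 (.step 1 219 67 (.step 1 220 67 (.step 0 218 221 (.step 1 222 67 (.step 1 223 21 (.step 1 224 38 (.step 1 225 36 (.step 9 226 9 (.step 1 228 52 (.step 9 228 9 (.step 1 229 0 (.step 0 230 125 (.step 0 227 232 (.step 5 233 9 (.step 0 235 126 (.step 0 236 234 (.step 0 237 231 (.step 0 239 238 (.step 4 241 5 (.step 1 243 21 (.step 0 228 244 (.step 1 244 36 (.step 1 245 22 (.step 0 242 246 (.step 2 248 2 (.step 0 247 249 (.step 1 250 23 (.step 2 250 6 (.step 1 251 38 (.step 0 240 252 (.step 0 254 253 (.contra 255))))))))))))))))))))))))))))))))))))))))))))))))))))))))))))))))))))))))))))))))))))))))))))))))))))))))))))))))))))))))))))))))))))))))))))))))))))))))))))))))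

def c4pmpp_10 : CertW :=
  (.step 0 56 61 (.step 0 60 61 (.step 0 61 25 (.step 0 61 32 (.step 0 61 54 (.step 0 61 57 (.step 3 61 5 (.step 1 62 51 (.step 1 63 51 (.step 1 64 55 (.step 1 65 55 (.step 1 66 49 (.step 4 66 8 (.step 1 67 49 (.step 1 69 34 (.step 8 70 8 (.step 1 71 52 (.step 1 72 38 (.step 1 73 70 (.step 8 73 8 (.step 0 47 74 (.step 0 48 74 (.step 0 59 74 (.step 0 68 74 (.step 1 75 32 (.step 0 76 77 (.step 0 47 81 (.step 0 68 81 (.step 1 82 67 (.step 1 85 67 (.step 0 86 81 (.step 0 87 38 (.step 1 90 50 (.step 1 91 50 (.split [36] [66] c4pmpp_8 c4pmpp_9)))))))))))))))))))))))))))))))))))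

def c4pmpp_11 : CertW :=
  (.step 0 6 45 (.step 0 11 45 (.step 0 13 45 (.step 1 45 33 (.step 4 45 4 (.step 2 46 1 (.step 1 47 35 (.step 1 49 48 (.step 0 51 50 (.step 1 51 21 (.step 1 52 50 (.step 0 54 53 (.step 1 54 49 (.step 8 55 1 (.step 1 58 50 (.split [20] [50] c4pmpp_5 c4pmpp_10))))))))))))))))

def c4pmpp_12 : CertW :=
  (.split [34] [32] c4pmpp_4 c4pmpp_11)

def c4pmpp_13 : CertW :=
  (.step 0 1 44 (.step 0 2 44 (.step 4 45 2 (.step 5 46 1 (.step 0 4 47 (.step 0 48 6 (.step 0 48 47 (.step 5 49 6 (.step 5 50 4 (.step 4 51 5 (.step 0 52 26 (.step 0 53 27 (.step 0 53 46 (.step 5 55 10 (.step 4 56 11 (.step 0 57 54 (.step 0 58 11 (.step 0 50 59 (.step 1 59 71 (.step 5 60 8 (.step 0 61 59 (.step 1 61 71 (.step 6 63 11 (.step 0 64 62 (.step 1 65 71 (.step 1 66 54 (.step 4 68 15 (.step 9 69 14 (.step 0 70 67 (.step 0 71 72 (.step 0 74 73 (.contra 75))))))))))))))))))))))))))))))))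

def c4pmpp : CertW :=
  (.step 1 1 23 (.step 5 1 3 (.step 1 2 17 (.step 4 2 0 (.step 1 3 52 (.step 9 3 3 (.step 1 4 39 (.step 8 5 0 (.step 0 4 6 (.step 1 6 39 (.step 0 8 6 (.step 1 9 54 (.step 7 9 3 (.step 0 4 10 (.step 1 11 33 (.step 1 11 39 (.step 4 11 7 (.step 1 12 22 (.step 0 2 15 (.step 1 16 33 (.step 1 17 48 (.step 8 17 7 (.step 0 0 19 (.step 0 1 19 (.step 0 2 19 (.step 1 19 55 (.step 0 21 20 (.step 0 2 24 (.step 1 24 55 (.step 0 25 14 (.step 1 25 49 (.step 1 27 19 (.step 1 27 55 (.step 0 28 18 (.step 0 31 22 (.step 1 33 64 (.step 1 34 48 (.step 1 35 48 (.step 1 35 70 (.step 1 36 38 (.step 1 37 16 (.split [20] [16] c4pmpp_12 c4pmpp_13))))))))))))))))))))))))))))))))))))))))))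

theorem certs_4pmpp : Certs 4 [true, false, true, true] := ⟨c4pmpp, by decide +kernel⟩

def c4pmpm_0 : CertW :=
  (.step 0 8 16 (.step 0 12 16 (.step 2 16 14 (.step 2 18 15 (.step 0 14 20 (.step 0 15 20 (.step 0 19 20 (.step 2 22 8 (.step 0 24 18 (.step 2 25 12 (.step 0 21 26 (.step 0 23 26 (.step 5 28 13 (.step 0 17 29 (.step 0 25 29 (.step 2 30 6 (.step 5 31 9 (.step 0 32 27 (.step 0 34 33 (.contra 35))))))))))))))))))))

def c4pmpm_1 : CertW :=
  (.step 3 16 14 (.step 0 14 17 (.step 0 15 17 (.step 2 18 10 (.step 0 8 20 (.step 0 12 20 (.step 0 16 20 (.step 2 21 6 (.step 3 23 13 (.step 0 24 18 (.step 0 19 25 (.step 0 26 25 (.step 2 28 9 (.step 0 22 29 (.step 0 23 29 (.step 5 30 8 (.step 3 31 12 (.step 0 32 27 (.step 0 34 33 (.contra 35))))))))))))))))))))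

def c4pmpm_2 : CertW :=
  (.step 5 10 4 (.step 0 11 9 (.step 4 12 11 (.step 0 5 13 (.step 0 10 13 (.split [54] [80] c4pmpm_0 c4pmpm_1))))))

def c4pmpm_3 : CertW :=
  (.step 2 26 5 (.step 0 11 27 (.step 0 12 27 (.step 2 28 2 (.step 5 29 6 (.step 0 30 17 (.step 0 30 26 (.step 0 31 8 (.step 0 31 32 (.step 0 31 33 (.step 5 34 10 (.step 4 36 9 (.step 0 37 29 (.step 0 39 38 (.step 5 40 13 (.step 0 41 34 (.step 0 41 35 (.step 0 41 36 (.step 3 42 14 (.step 3 43 15 (.step 3 44 12 (.step 0 46 45 (.step 0 40 47 (.step 0 49 48 (.contra 50)))))))))))))))))))))))))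

def c4pmpm_4 : CertW :=
  (.step 0 31 51 (.step 2 52 12 (.step 0 43 53 (.step 0 44 53 (.step 2 55 9 (.step 0 56 30 (.step 0 56 52 (.step 5 57 10 (.step 2 58 13 (.step 0 59 54 (.step 0 61 60 (.contra 62))))))))))))

def c4pmpm_5 : CertW :=
  (.step 0 22 51 (.step 0 51 9 (.step 3 52 15 (.step 3 53 14 (.step 0 49 54 (.step 0 50 54 (.step 0 21 55 (.step 0 56 58 (.step 0 57 58 (.step 2 59 10 (.step 0 30 61 (.step 0 53 61 (.step 5 62 9 (.step 3 63 13 (.step 0 64 60 (.step 0 66 65 (.contra 67)))))))))))))))))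

def c4pmpm_6 : CertW :=
  (.step 0 19 26 (.step 0 20 26 (.step 0 25 26 (.step 0 26 7 (.step 0 26 14 (.step 0 26 17 (.step 1 26 51 (.step 3 26 5 (.step 0 27 14 (.step 0 28 14 (.step 1 29 51 (.step 4 32 8 (.step 1 33 34 (.step 1 35 51 (.step 1 36 51 (.step 8 37 8 (.step 0 12 38 (.step 0 34 38 (.step 0 34 39 (.step 1 40 34 (.step 8 41 8 (.step 0 42 24 (.step 0 46 47 (.step 0 45 48 (.split [18] [80] c4pmpm_4 c4pmpm_5)))))))))))))))))))))))))

def c4pmpm_7 : CertW :=
  (.step 0 4 10 (.step 0 5 10 (.step 4 10 4 (.step 2 11 1 (.step 1 12 35 (.step 1 13 49 (.step 0 14 13 (.step 1 14 49 (.step 1 15 50 (.step 1 16 50 (.step 1 16 70 (.step 1 16 80 (.step 1 17 49 (.step 1 18 64 (.step 1 23 50 (.split [20] [50] c4pmpm_3 c4pmpm_6))))))))))))))))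

def c4pmpm : CertW :=
  (.step 5 1 3 (.step 4 2 0 (.step 0 3 4 (.step 4 5 7 (.step 0 0 6 (.step 0 1 6 (.step 0 2 6 (.split [34] [32] c4pmpm_2 c4pmpm_7))))))))

theorem certs_4pmpm : Certs 4 [true, false, true, false] := ⟨c4pmpm, by decide +kernel⟩

def c4pmmp_0 : CertW :=
  (.step 2 79 5 (.step 0 80 72 (.step 0 80 73 (.step 3 81 1 (.step 5 82 4 (.step 0 83 79 (.step 0 61 84 (.step 0 84 36 (.step 0 84 41 (.step 1 84 49 (.step 0 84 85 (.step 1 85 49 (.step 1 85 51 (.step 1 86 49 (.step 1 87 55 (.step 5 87 11 (.step 1 88 55 (.step 1 89 50 (.step 7 89 4 (.step 1 90 49 (.step 1 91 34 (.step 0 92 89 (.step 1 92 66 (.step 9 93 11 (.step 9 94 11 (.step 1 96 32 (.step 0 85 97 (.step 0 60 98 (.step 0 95 98 (.step 8 99 8 (.step 1 101 80 (.step 8 101 8 (.step 0 104 105 (.step 4 106 8 (.step 0 103 107 (.step 0 108 100 (.step 0 108 111 (.step 0 114 113 (.step 0 115 109 (.step 5 117 15 (.step 5 118 15 (.step 0 110 119 (.step 0 120 87 (.step 3 121 12 (.step 3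 122 14 (.step 0 123 102 (.step 0 124 112 (.step 0 124 116 (.step 3 126 10 (.step 0 127 125 (.step 0 122 128 (.step 4 129 13 (.step 0 131 130 (.contra 132))))))))))))))))))))))))))))))))))))))))))))))))))))))

def c4pmmp_1 : CertW :=
  (.step 0 16 114 (.step 2 114 11 (.step 0 36 116 (.step 0 81 116 (.step 1 117 49 (.step 2 117 4 (.step 1 118 49 (.step 6 119 4 (.step 0 8 120 (.step 9 121 8 (.step 0 122 114 (.step 2 123 1 (.step 0 124 93 (.step 1 125 35 (.step 1 126 49 (.step 1 127 35 (.step 0 129 128 (.step 0 130 131 (.step 1 132 34 (.step 4 133 15 (.step 0 116 134 (.step 0 118 134 (.step 2 135 14 (.step 2 136 12 (.step 0 115 137 (.step 0 133 137 (.step 2 139 10 (.step 0 138 140 (.step 0 141 135 (.step 5 142 13 (.step 0 144 143 (.contra 145))))))))))))))))))))))))))))))))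

def c4pmmp_2 : CertW :=
  (.step 0 35 129 (.step 0 36 129 (.step 0 81 129 (.step 0 111 129 (.step 0 117 129 (.step 0 129 125 (.step 2 129 14 (.step 2 132 12 (.step 2 134 15 (.step 2 135 15 (.step 0 137 138 (.step 0 59 139 (.step 0 140 114 (.step 0 140 136 (.step 0 141 126 (.step 5 143 13 (.step 0 129 145 (.step 0 130 145 (.step 0 131 145 (.step 0 132 145 (.step 0 133 145 (.step 5 146 10 (.step 2 147 6 (.step 1 148 51 (.step 1 149 51 (.step 4 149 9 (.step 1 150 51 (.step 0 143 151 (.step 1 152 37 (.step 1 153 36 (.step 8 154 9 (.step 1 155 37 (.step 1 156 36 (.step 0 157 5 (.step 1 157 37 (.step 8 158 6 (.step 0 159 160 (.step 0 160 142 (.step 1 161 0 (.step 6 161 9 (.step 1 164 22 (.step 1 166 37 (.step 0 162 167 (.step 0 163 168 (.step 0 165 169 (.step 1 171 34 (.step 5 172 4 (.step 3 173 2 (.step 0 170 174 (.step 1 176 49 (.step 0 177 178 (.step 7 179 4 (.step 2 180 5 (.step 0 142 181 (.step 0 144 181 (.step 0 175 182 (.step 3 184 8 (.step 0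 185 183 (.step 1 186 51 (.step 1 187 35 (.step 0 189 188 (.contra 190))))))))))))))))))))))))))))))))))))))))))))))))))))))))))))))

def c4pmmp_3 : CertW :=
  (.step 0 35 149 (.step 0 36 149 (.step 0 81 149 (.step 0 111 149 (.step 0 129 149 (.step 0 145 149 (.step 0 149 132 (.step 1 149 51 (.step 5 149 10 (.step 2 150 6 (.step 1 151 49 (.step 1 152 51 (.step 4 152 9 (.step 1 153 51 (.step 3 154 13 (.step 1 155 19 (.step 3 156 13 (.step 1 157 36 (.step 0 158 5 (.step 1 159 37 (.step 1 160 34 (.step 8 161 9 (.step 1 162 37 (.step 1 163 36 (.step 0 164 134 (.step 0 164 135 (.step 0 164 158 (.step 1 164 33 (.step 0 166 139 (.step 0 164 168 (.step 8 169 6 (.step 0 167 171 (.step 1 171 37 (.step 1 172 0 (.step 6 172 9 (.step 0 173 171 (.step 1 174 33 (.step 1 175 33 (.step 1 176 37 (.step 0 177 165 (.step 1 181 37 (.step 1 182 34 (.step 0 179 183 (.step 0 180 184 (.step 0 185 174 (.step 1 185 35 (.step 1 187 18 (.step 1 188 22 (.step 1 189 18 (.step 1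 190 34 (.step 3 192 2 (.step 5 194 4 (.step 0 186 195 (.step 0 197 193 (.step 1 201 49 (.step 9 202 4 (.step 0 200 203 (.step 7 204 4 (.step 0 205 196 (.step 0 205 198 (.step 2 206 5 (.step 0 126 207 (.step 1 208 49 (.step 1 209 49 (.step 0 191 210 (.step 0 199 210 (.step 0 211 170 (.step 1 214 35 (.step 1 215 35 (.step 0 217 212 (.step 0 217 213 (.step 0 218 212 (.step 1 219 64 (.step 8 220 8 (.step 1 221 80 (.step 0 216 223 (.step 0 225 222 (.step 5 226 15 (.step 0 224 227 (.step 1 227 81 (.step 1 228 81 (.step 1 229 48 (.step 1 230 50 (.step 3 231 15 (.step 3 232 12 (.step 0 178 233 (.step 0 235 234 (.contra 236))))))))))))))))))))))))))))))))))))))))))))))))))))))))))))))))))))))))))))))))))))))))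

def c4pmmp_4 : CertW :=
  (.step 0 271 102 (.step 2 272 12 (.step 0 113 273 (.step 0 273 252 (.step 0 274 237 (.step 3 275 9 (.step 3 276 9 (.step 0 257 277 (.step 0 278 203 (.step 0 278 259 (.step 0 279 202 (.step 1 280 53 (.step 1 281 53 (.step 1 282 53 (.step 1 283 22 (.step 9 284 6 (.step 1 285 0 (.step 0 258 287 (.step 0 289 286 (.step 4 290 3 (.step 0 288 291 (.step 1 291 1 (.step 1 292 1 (.step 1 293 38 (.step 1 294 36 (.step 2 295 3 (.step 2 296 2 (.step 0 256 297 (.step 0 299 298 (.contra 300))))))))))))))))))))))))))))))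

def c4pmmp_5 : CertW :=
  (.step 0 104 313 (.step 0 249 313 (.step 1 313 35 (.step 1 314 35 (.step 2 315 1 (.step 1 316 18 (.step 1 317 20 (.step 0 318 260 (.step 0 265 319 (.step 0 320 321 (.step 3 322 4 (.step 3 323 4 (.step 0 324 261 (.step 0 298 325 (.step 1 326 33 (.step 1 327 33 (.step 1 328 70 (.step 9 329 11 (.step 0 305 330 (.step 0 306 330 (.step 0 307 330 (.step 0 331 164 (.step 0 332 335 (.step 0 333 335 (.step 0 334 335 (.step 1 336 69 (.step 1 337 69 (.step 1 338 69 (.step 1 339 54 (.step 1 340 54 (.step 1 341 54 (.step 1 342 51 (.step 1 343 51 (.step 3 344 13 (.step 1 345 36 (.step 8 346 9 (.step 0 347 241 (.step 0 348 349 (.step 0 351 350 (.contra 352))))))))))))))))))))))))))))))))))))))))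

def c4pmmp_6 : CertW :=
  (.step 0 295 313 (.step 0 313 309 (.step 0 314 66 (.step 3 315 3 (.step 1 316 39 (.step 0 317 308 (.step 1 318 22 (.step 2 319 6 (.step 2 320 6 (.step 0 310 321 (.step 0 322 242 (.step 0 322 251 (.step 0 323 248 (.step 1 324 37 (.step 1 325 37 (.step 1 326 37 (.step 8 327 9 (.step 1 328 66 (.step 1 329 80 (.step 0 247 330 (.step 0 333 331 (.step 5 334 12 (.step 0 332 335 (.step 1 335 81 (.step 1 336 81 (.step 1 337 50 (.step 1 338 52 (.step 3 339 12 (.step 3 340 13 (.step 0 312 341 (.step 0 343 342 (.contra 344))))))))))))))))))))))))))))))))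

def c4pmmp_7 : CertW :=
  (.step 0 57 271 (.step 0 271 35 (.step 0 271 195 (.step 1 271 55 (.step 3 272 14 (.step 3 273 14 (.step 1 274 81 (.step 3 274 15 (.step 1 275 68 (.step 0 103 276 (.step 0 276 194 (.step 0 152 277 (.step 0 153 277 (.step 0 162 277 (.step 1 278 48 (.step 1 278 54 (.step 0 173 279 (.step 0 279 267 (.step 1 279 33 (.step 1 279 39 (.step 0 281 194 (.step 0 280 282 (.step 0 283 279 (.step 0 284 279 (.step 0 285 279 (.step 3 286 15 (.step 0 288 229 (.step 3 289 11 (.step 1 290 70 (.step 1 291 52 (.step 1 294 39 (.step 1 296 39 (.step 0 299 287 (.step 0 282 300 (.step 0 292 300 (.step 0 293 300 (.step 0 270 301 (.step 1 302 0 (.step 1 303 36 (.step 3 304 14 (.step 0 311 297 (.split [0] [64] c4pmmp_5 c4pmmp_6))))))))))))))))))))))))))))))))))))))))))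

def c4pmmp_8 : CertW :=
  (.step 1 149 53 (.step 1 149 55 (.step 4 149 10 (.step 8 150 10 (.step 8 151 10 (.step 0 50 152 (.step 0 71 152 (.step 0 63 152 (.step 0 64 152 (.step 0 100 152 (.step 0 152 136 (.step 1 152 39 (.step 0 127 153 (.step 0 153 134 (.step 0 100 154 (.step 0 155 136 (.step 1 155 33 (.step 0 156 136 (.step 1 156 33 (.step 0 157 131 (.step 0 157 136 (.step 1 157 33 (.step 0 158 136 (.step 0 159 131 (.step 0 159 136 (.step 1 160 33 (.step 6 161 10 (.step 1 165 33 (.step 1 166 54 (.step 1 167 33 (.step 1 168 54 (.step 1 169 33 (.step 1 170 33 (.step 1 171 54 (.step 1 172 33 (.step 1 174 33 (.step 1 175 54 (.step 0 33 176 (.step 0 35 176 (.step 0 111 176 (.step 1 177 54 (.step 0 178 147 (.step 1 179 54 (.step 0 180 146 (.step 1 181 70 (.step 1 182 54 (.step 0 183 148 (.step 1 184 54 (.step 1 185 54 (.step 0 112 186 (.step 0 187 143 (.step 0 187 144 (.step 0 188 144 (.step 0 189 144 (.step 1 190 49 (.step 1 191 49 (.step 1 192 51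 (.step 1 193 49 (.step 1 195 49 (.step 1 196 49 (.step 1 197 49 (.step 2 197 4 (.step 1 198 49 (.step 1 198 51 (.step 5 198 8 (.step 1 199 51 (.step 1 204 34 (.step 9 205 8 (.step 1 206 36 (.step 9 207 8 (.step 1 208 34 (.step 9 209 8 (.step 6 210 4 (.step 0 8 211 (.step 0 134 211 (.step 0 163 211 (.step 0 211 28 (.step 0 211 106 (.step 1 211 39 (.step 9 212 8 (.step 9 213 8 (.step 0 214 96 (.step 1 214 35 (.step 1 215 36 (.step 0 216 106 (.step 0 9 217 (.step 0 95 219 (.step 0 221 220 (.step 1 222 35 (.step 1 223 35 (.step 2 223 1 (.step 0 224 106 (.step 0 225 105 (.step 2 226 1 (.step 1 227 37 (.step 1 228 52 (.step 1 229 35 (.step 0 230 105 (.step 0 231 218 (.step 1 232 0 (.step 7 232 8 (.step 0 225 233 (.step 0 235 234 (.step 1 236 35 (.step 1 239 0 (.step 1 240 49 (.step 0 243 38 (.step 1 244 52 (.step 0 201 245 (.step 0 203 245 (.step 1 246 18 (.step 1 246 32 (.step 0 250 110 (.step 2 254 1 (.step 0 253 255 (.step 0 262 263 (.step 0 264 238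 (.step 1 266 34 (.step 1 267 39 (.step 1 268 16 (.step 0 269 200 (.split [22] [80] c4pmmp_4 c4pmmp_7))))))))))))))))))))))))))))))))))))))))))))))))))))))))))))))))))))))))))))))))))))))))))))))))))))))))))))))))))))))))))

def c4pmmp_9 : CertW :=
  (.step 1 129 81 (.step 3 129 14 (.step 1 130 52 (.step 1 130 54 (.step 0 131 114 (.step 0 131 115 (.step 0 131 128 (.step 1 131 33 (.step 1 131 39 (.step 3 133 14 (.step 1 134 39 (.step 1 135 33 (.step 1 137 54 (.step 1 138 52 (.step 1 140 52 (.step 1 141 18 (.step 0 142 122 (.step 0 142 123 (.step 0 142 124 (.split [54] [52] c4pmmp_3 c4pmmp_8))))))))))))))))))))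

def c4pmmp_10 : CertW :=
  (.step 0 114 58 (.step 1 114 33 (.step 3 114 11 (.step 7 116 11 (.step 1 117 49 (.step 1 117 53 (.step 1 117 55 (.step 0 118 94 (.step 0 118 99 (.step 0 118 101 (.step 1 119 80 (.step 9 119 11 (.step 1 120 38 (.step 9 121 11 (.split [54] [80] c4pmmp_2 c4pmmp_9)))))))))))))))

def c4pmmp_11 : CertW :=
  (.step 0 79 67 (.step 0 79 34 (.step 0 79 69 (.step 0 79 75 (.step 1 79 21 (.step 1 79 49 (.step 1 79 51 (.step 3 79 5 (.step 1 80 51 (.step 1 82 55 (.step 1 83 51 (.step 1 83 55 (.step 7 84 5 (.step 1 85 34 (.step 1 86 48 (.step 1 86 64 (.step 7 86 5 (.step 1 87 35 (.step 1 87 37 (.step 1 88 48 (.step 1 89 32 (.step 1 90 48 (.step 1 90 80 (.step 1 91 68 (.step 0 92 72 (.step 0 96 53 (.step 0 96 78 (.step 9 97 5 (.step 9 98 5 (.step 1 106 37 (.step 0 107 76 (.step 0 108 34 (.step 0 108 69 (.step 1 109 66 (.split [32] [70] c4pmmp_1 c4pmmp_10)))))))))))))))))))))))))))))))))))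

def c4pmmp_12 : CertW :=
  (.step 0 72 8 (.step 1 72 35 (.step 3 72 2 (.step 1 74 20 (.step 1 75 51 (.step 1 77 36 (.split [20] [50] c4pmmp_0 c4pmmp_11)))))))

def c4pmmp_13 : CertW :=
  (.step 5 127 13 (.step 0 110 128 (.step 0 128 87 (.step 0 128 116 (.step 1 128 81 (.step 1 129 81 (.step 3 129 14 (.step 3 130 14 (.step 1 132 52 (.step 1 132 70 (.step 1 133 48 (.step 1 133 54 (.step 0 111 134 (.step 0 124 134 (.step 0 99 135 (.step 0 123 135 (.step 0 127 135 (.step 3 136 13 (.step 3 139 14 (.step 0 140 119 (.step 2 141 11 (.step 0 143 137 (.step 0 145 146 (.step 2 147 11 (.step 0 128 148 (.step 0 148 118 (.step 0 148 138 (.step 0 52 151 (.step 0 152 109 (.step 1 153 49 (.step 1 154 49 (.step 3 154 15 (.step 2 155 4 (.step 3 156 15 (.step 1 157 18 (.step 1 158 50 (.step 0 149 159 (.step 0 150 159 (.step 1 160 35 (.step 0 142 161 (.step 0 144 161 (.step 1 164 65 (.step 4 165 12 (.step 8 166 4 (.step 1 167 35 (.step 4 168 12 (.step 0 163 170 (.step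 1 170 51 (.step 0 162 171 (.step 1 172 48 (.step 0 173 131 (.step 0 173 156 (.step 1 174 51 (.step 0 169 175 (.step 0 176 177 (.step 3 178 5 (.step 5 179 8 (.step 9 180 8 (.step 1 181 64 (.step 0 183 80 (.step 1 183 35 (.step 1 184 35 (.step 0 186 185 (.step 1 187 35 (.step 9 188 5 (.step 7 189 8 (.step 1 190 35 (.step 1 191 0 (.step 0 182 193 (.step 1 194 18 (.step 2 195 1 (.step 0 197 196 (.step 0 192 198 (.step 0 200 199 (.contra 201)))))))))))))))))))))))))))))))))))))))))))))))))))))))))))))))))))))))))))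

def c4pmmp_14 : CertW :=
  (.step 0 134 170 (.step 1 171 49 (.step 5 171 8 (.step 9 172 8 (.step 1 173 35 (.step 0 154 174 (.step 0 160 174 (.step 0 169 174 (.step 0 174 145 (.step 7 175 8 (.step 1 178 35 (.step 1 179 35 (.step 0 180 167 (.step 1 181 18 (.step 1 182 32 (.step 3 183 4 (.step 3 184 4 (.step 0 154 186 (.step 0 176 187 (.step 0 177 187 (.step 0 188 185 (.step 1 189 33 (.step 1 190 33 (.step 1 191 33 (.step 1 192 70 (.step 9 193 11 (.step 1 194 80 (.step 0 195 196 (.step 0 198 156 (.step 4 199 14 (.step 0 200 197 (.step 1 200 81 (.step 1 201 81 (.step 1 202 54 (.step 1 203 48 (.step 2 204 14 (.step 2 205 15 (.step 0 206 162 (.step 0 208 207 (.contra 209))))))))))))))))))))))))))))))))))))))))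

def c4pmmp_15 : CertW :=
  (.step 0 49 170 (.step 1 170 49 (.step 1 171 49 (.step 5 171 11 (.step 1 172 64 (.step 1 173 80 (.step 9 173 11 (.step 0 174 125 (.step 0 153 175 (.step 4 178 14 (.step 0 177 179 (.step 0 180 176 (.step 5 181 15 (.step 0 183 182 (.contra 184)))))))))))))))

def c4pmmp_16 : CertW :=
  (.step 0 112 127 (.step 0 121 127 (.step 0 123 127 (.step 4 127 13 (.step 2 130 9 (.step 1 131 81 (.step 0 132 91 (.step 0 132 116 (.step 0 132 126 (.step 0 132 131 (.step 1 132 49 (.step 1 132 55 (.step 1 133 50 (.step 1 133 52 (.step 3 135 5 (.step 1 136 55 (.step 2 137 12 (.step 1 138 34 (.step 1 139 32 (.step 0 140 132 (.step 2 141 13 (.step 0 142 80 (.step 1 142 35 (.step 1 143 32 (.step 0 127 144 (.step 0 128 144 (.step 0 129 144 (.step 0 130 144 (.step 0 146 124 (.step 2 147 12 (.step 1 149 35 (.step 9 150 5 (.step 0 151 152 (.step 1 155 35 (.step 0 148 157 (.step 1 158 0 (.step 1 161 18 (.step 2 163 1 (.step 0 159 165 (.step 0 166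 164 (.step 1 167 19 (.step 1 168 34 (.split [16] [48] c4pmmp_14 c4pmmp_15)))))))))))))))))))))))))))))))))))))))))))

def c4pmmp_17 : CertW :=
  (.step 0 5 72 (.step 0 72 20 (.step 1 72 1 (.step 1 72 37 (.step 2 72 2 (.step 5 73 6 (.step 1 74 37 (.step 1 75 34 (.step 1 76 22 (.step 0 77 67 (.step 0 77 68 (.step 0 77 69 (.step 0 55 78 (.step 0 78 1 (.step 0 78 35 (.step 1 78 53 (.step 9 79 6 (.step 0 81 77 (.step 0 78 82 (.step 1 82 55 (.step 1 83 23 (.step 0 78 84 (.step 1 85 53 (.step 1 86 55 (.step 1 87 53 (.step 1 87 55 (.step 4 87 10 (.step 1 88 38 (.step 7 88 6 (.step 0 89 90 (.step 1 92 68 (.step 1 93 52 (.step 1 94 55 (.step 8 95 10 (.step 1 96 32 (.step 8 97 10 (.step 1 98 48 (.step 1 98 80 (.step 8 98 10 (.step 0 50 99 (.step 1 99 33 (.step 0 50 100 (.step 0 101 54 (.step 0 104 102 (.step 1 105 32 (.step 1 105 48 (.step 1 105 70 (.step 0 106 103 (.step 0 107 112 (.step 0 105 113 (.step 0 115 108 (.step 0 117 111 (.step 0 114 120 (.step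 1 122 54 (.split [66] [68] c4pmmp_13 c4pmmp_16)))))))))))))))))))))))))))))))))))))))))))))))))))))))

def c4pmmp_18 : CertW :=
  (.step 0 67 21 (.step 0 67 32 (.step 1 69 55 (.step 1 70 32 (.split [36] [0] c4pmmp_12 c4pmmp_17)))))

def c4pmmp_19 : CertW :=
  (.step 0 1 67 (.step 0 2 67 (.step 0 67 13 (.step 4 68 2 (.step 5 69 1 (.step 5 70 1 (.step 0 5 71 (.step 0 72 71 (.step 0 73 22 (.step 5 74 6 (.step 4 75 5 (.step 5 76 4 (.step 0 55 77 (.step 0 77 1 (.step 0 77 35 (.step 0 77 68 (.step 1 77 53 (.step 0 62 79 (.step 1 80 53 (.step 1 81 55 (.step 1 82 55 (.step 0 83 78 (.step 7 84 6 (.step 5 85 11 (.step 8 86 10 (.step 1 87 70 (.step 1 88 80 (.step 8 88 10 (.step 5 89 9 (.step 0 92 56 (.step 0 93 91 (.step 0 50 95 (.step 0 96 90 (.step 0 98 99 (.step 0 100 97 (.step 4 101 14 (.step 5 102 13 (.step 0 103 94 (.step 0 105 104 (.contra 106))))))))))))))))))))))))))))))))))))))))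

def c4pmmp : CertW :=
  (.step 1 1 51 (.step 1 1 55 (.step 5 1 3 (.step 1 2 19 (.step 1 2 55 (.step 4 2 0 (.step 1 3 64 (.step 1 4 32 (.step 1 5 39 (.step 1 6 16 (.step 1 6 20 (.step 1 6 32 (.step 1 7 32 (.step 0 5 8 (.step 1 8 1 (.step 1 8 39 (.step 1 11 0 (.step 1 11 36 (.step 7 11 3 (.step 4 12 0 (.step 0 16 14 (.step 1 16 33 (.step 1 16 39 (.step 4 16 7 (.step 1 17 32 (.step 1 17 34 (.step 1 18 16 (.step 3 19 3 (.step 1 23 33 (.step 8 24 7 (.step 8 25 7 (.step 0 0 26 (.step 0 1 26 (.step 0 2 26 (.step 1 26 55 (.step 2 27 0 (.step 0 30 29 (.step 1 31 18 (.step 0 2 32 (.step 1 34 51 (.step 1 35 53 (.step 1 35 55 (.step 1 36 19 (.step 1 36 49 (.step 1 36 55 (.step 0 37 6 (.step 1 37 48 (.step 6 37 7 (.step 0 39 33 (.step 0 40 32 (.step 1 42 36 (.step 1 43 38 (.step 1 44 52 (.step 1 44 68 (.step 1 44 80 (.step 1 45 32 (.step 1 46 64 (.step 1 47 32 (.step 1 47 48 (.step 1 48 48 (.step 0 10 50 (.step 0 15 50 (.step 1 51 23 (.step 1 65 38 (.split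 [20] [16] c4pmmp_18 c4pmmp_19)))))))))))))))))))))))))))))))))))))))))))))))))))))))))))))))))

theorem certs_4pmmp : Certs 4 [true, false, false, true] := ⟨c4pmmp, by decide +kernel⟩

end Pool.Agent.H46.CC
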