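import Pool.Agent.H46.CC.Flat

set_option autoImplicit false
set_option maxRecDepth 100000

/-!
# Certificates for closed chains with 5 tangles in each column
-/

namespace Pool.Agent.H46.CC

open Pool.Agent.K7.H46.TW

def c5p : CertW :=
  (.step 5 2 4 (.step 4 3 0 (.step 0 5 4 (.contra 6))))

theorem certs_5p : Certs 5 [true] := ⟨c5p, by decide +kernel⟩

def c5pp_0 : CertW :=
  (.step 0 59 121 (.step 0 102 121 (.step 0 121 87 (.step 1 121 37 (.step 1 121 39 (.step 2 121 2 (.step 1 122 37 (.step 1 122 39 (.step 4 122 7 (.step 1 123 39 (.step 1 124 37 (.step 6 125 2 (.step 1 126 0 (.step 1 126 22 (.step 1 127 23 (.step 8 128 7 (.step 8 129 7 (.step 1 130 23 (.step 1 131 22 (.step 8 132 7 (.step 0 85 133 (.step 0 133 86 (.step 0 120 134 (.step 0 100 135 (.step 8 136 2 (.step 0 138 36 (.step 1 138 23 (.step 6 139 7 (.step 0 140 138 (.step 0 91 141 (.step 0 142 137 (.step 0 143 141 (.step 0 145 147 (.step 1 148 0 (.step 0 146 149 (.step 2 150 8 (.step 2 152 6 (.step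 2 153 6 (.step 1 154 17 (.step 0 144 155 (.step 0 156 117 (.step 0 156 144 (.step 0 157 115 (.step 0 157 158 (.step 1 158 35 (.step 1 159 35 (.step 1 160 0 (.step 0 156 161 (.step 1 162 1 (.step 1 163 1 (.step 1 164 35 (.step 1 165 35 (.step 8 166 6 (.step 8 167 6 (.step 3 168 0 (.step 1 169 1 (.step 1 170 22 (.step 1 171 22 (.step 1 172 18 (.step 1 173 20 (.step 0 174 119 (.step 0 175 113 (.step 0 36 176 (.step 0 45 176 (.step 0 147 176 (.step 1 177 22 (.step 0 178 151 (.step 0 181 182 (.step 1 184 19 (.step 3 185 5 (.step 0 179 186 (.step 1 187 19 (.step 1 188 49 (.step 1 190 48 (.step 1 191 35 (.step 1 192 19 (.step 1 193 48 (.step 1 194 20 (.step 9 196 5 (.step 1 197 48 (.step 0 189 198 (.step 0 199 183 (.step 0 195 200 (.step 0 200 180 (.step 0 201 200 (.step 0 202 204 (.step 1 205 49 (.step 0 203 206 (.step 4 207 1 (.step 0 160 208 (.step 1 210 1 (.step 1 211 20 (.step 6 212 1 (.step 0 213 209 (.step 0 215 214 (.contra 216))))))))))))))))))))))))))))))))))))))))))))))))))))))))))))))))))))))))))))))))))))))))))))))))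

def c5pp_1 : CertW :=
  (.step 0 121 7 (.step 0 121 63 (.step 0 121 107 (.step 1 122 37 (.step 1 123 35 (.step 1 123 37 (.step 4 123 6 (.step 1 124 35 (.step 1 125 48 (.step 8 126 6 (.step 1 127 34 (.step 8 127 6 (.step 1 128 17 (.step 1 128 21 (.step 1 129 48 (.step 4 132 6 (.step 0 81 133 (.step 0 133 103 (.step 0 133 109 (.step 1 134 32 (.step 6 135 6 (.step 0 131 136 (.step 1 138 21 (.step 1 139 21 (.step 1 140 21 (.step 0 141 53 (.step 0 141 114 (.step 0 116 142 (.step 2 143 5 (.step 1 144 22 (.step 1 145 0 (.step 2 149 2 (.step 0 107 150 (.step 0 114 150 (.step 0 148 150 (.step 2 152 2 (.step 0 151 153 (.step 1 154 33 (.step 1 155 33 (.step 1 156 33 (.step 0 157 137 (.step 0 158 130 (.step 1 158 23 (.step 1 159 16 (.step 1 160 0 (.step 8 161 0 (.step 2 162 7 (.step 2 163 7 (.step 1 164 48 (.step 0 40 165 (.step 0 166 167 (.step 0 167 147 (.step 1 168 39 (.step 1 169 39 (.step 0 172 147 (.step 1 173 1 (.step 8 174 7 (.step 1 175 36 (.step 8 175 7 (.step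 1 176 1 (.step 1 177 16 (.step 0 106 178 (.step 4 179 7 (.step 0 180 170 (.step 1 181 16 (.step 0 171 182 (.step 1 183 49 (.step 0 184 98 (.step 1 186 23 (.step 1 187 49 (.step 0 188 146 (.step 5 189 3 (.step 1 190 48 (.step 1 191 24 (.step 1 192 24 (.step 1 193 1 (.step 0 185 194 (.step 0 118 195 (.step 7 197 3 (.step 0 198 199 (.step 0 196 200 (.step 0 202 201 (.contra 203)))))))))))))))))))))))))))))))))))))))))))))))))))))))))))))))))))))))))))))))))))

def c5pp : CertW :=
  (.step 1 2 17 (.step 1 2 25 (.step 5 2 4 (.step 4 3 0 (.step 9 4 4 (.step 1 5 16 (.step 9 5 4 (.step 1 6 1 (.step 1 6 33 (.step 1 6 41 (.step 0 6 7 (.step 1 7 1 (.step 1 7 33 (.step 1 7 41 (.step 5 9 4 (.step 0 10 7 (.step 1 10 41 (.step 7 11 4 (.step 1 12 16 (.step 1 13 38 (.step 7 13 4 (.step 1 14 33 (.step 1 14 41 (.step 5 14 9 (.step 1 15 34 (.step 0 16 13 (.step 1 16 16 (.step 6 16 0 (.step 1 17 24 (.step 1 19 41 (.step 1 20 38 (.step 1 25 40 (.step 9 25 9 (.step 9 26 9 (.step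 1 27 17 (.step 1 27 23 (.step 9 29 9 (.step 0 30 24 (.step 0 22 31 (.step 0 24 32 (.step 1 33 48 (.step 5 35 9 (.step 7 38 9 (.step 1 39 38 (.step 0 40 41 (.step 0 36 42 (.step 0 37 43 (.step 0 44 37 (.step 0 46 6 (.step 0 46 8 (.step 3 48 8 (.step 1 49 21 (.step 3 49 5 (.step 3 50 8 (.step 3 51 8 (.step 0 23 54 (.step 0 34 54 (.step 1 54 39 (.step 1 55 0 (.step 0 7 56 (.step 0 56 28 (.step 1 56 35 (.step 1 56 37 (.step 1 57 39 (.step 0 58 18 (.step 1 59 35 (.step 1 59 37 (.step 1 59 39 (.step 3 59 3 (.step 1 60 39 (.step 9 61 8 (.step 1 63 1 (.step 1 63 35 (.step 1 63 39 (.step 2 63 1 (.step 1 64 35 (.step 9 65 5 (.step 1 66 20 (.step 1 67 40 (.step 3 68 3 (.step 1 69 18 (.step 1 70 20 (.step 1 71 22 (.step 1 71 36 (.step 7 71 3 (.step 1 72 23 (.step 1 73 0 (.step 1 73 22 (.step 6 75 1 (.step 6 76 1 (.step 1 77 22 (.step 1 78 19 (.step 1 78 21 (.step 6 79 1 (.step 5 82 8 (.step 1 83 23 (.step 0 21 88 (.step 1 88 23 (.step 9 89 3 (.step 0 49 92 (.step 0 84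 93 (.step 1 93 19 (.step 0 88 94 (.step 8 95 1 (.step 8 96 1 (.step 0 80 97 (.step 9 99 3 (.step 1 101 48 (.step 1 104 19 (.step 1 105 48 (.step 0 52 107 (.step 0 59 107 (.step 0 62 108 (.step 0 47 110 (.step 0 111 74 (.step 1 112 48 (.step 0 117 90 (.split [0] [36] c5pp_0 c5pp_1))))))))))))))))))))))))))))))))))))))))))))))))))))))))))))))))))))))))))))))))))))))))))))))))))))))))))))))))))))))

theorem certs_5pp : Certs 5 [true, true] := ⟨c5pp, by decide +kernel⟩

def c5pm : CertW :=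
  (.step 5 2 4 (.step 4 3 0 (.step 0 4 5 (.step 4 6 9 (.step 0 0 7 (.step 0 1 7 (.step 0 2 7 (.step 0 3 7 (.step 2 8 6 (.step 2 9 7 (.step 2 10 8 (.step 2 11 5 (.step 0 12 13 (.step 0 14 6 (.step 0 15 16 (.step 0 18 17 (.contra 19)))))))))))))))))

theorem certs_5pm : Certs 5 [true, false] := ⟨c5pm, by decide +kernel⟩

def c5ppm_0 : CertW :=
  (.step 0 83 99 (.step 2 99 5 (.step 4 100 14 (.step 1 101 35 (.step 0 21 102 (.step 0 101 102 (.step 0 102 58 (.step 8 103 5 (.step 2 104 13 (.step 2 105 10 (.step 2 106 13 (.step 0 46 107 (.step 0 108 100 (.step 0 99 109 (.step 0 110 84 (.step 0 111 109 (.step 0 112 109 (.step 3 114 8 (.step 0 57 117 (.step 0 118 102 (.step 2 119 12 (.step 0 120 116 (.step 5 121 11 (.step 0 105 122 (.step 5 123 6 (.step 0 113 124 (.step 0 115 124 (.step 5 125 1 (.step 11 126 1 (.step 1 127 35 (.step 0 129 128 (.contra 130))))))))))))))))))))))))))))))))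

def c5ppm_1 : CertW :=
  (.step 4 181 10 (.step 0 103 182 (.step 0 106 182 (.step 0 107 182 (.step 0 153 182 (.step 0 183 58 (.step 2 183 14 (.step 2 185 13 (.step 2 186 12 (.step 2 187 13 (.step 0 188 181 (.step 0 189 77 (.step 0 190 189 (.step 0 191 84 (.step 0 190 193 (.step 0 194 192 (.step 3 195 8 (.step 1 196 25 (.step 5 197 11 (.step 1 198 39 (.step 0 182 200 (.step 0 183 200 (.step 0 184 200 (.step 0 186 200 (.step 0 199 201 (.step 5 202 6 (.step 1 203 39 (.step 2 204 2 (.step 1 205 39 (.step 0 197 207 (.step 0 206 208 (.step 1 209 23 (.step 8 210 7 (.step 1 211 23 (.step 1 212 24 (.step 8 213 2 (.step 1 214 23 (.step 1 215 0 (.step 0 214 216 (.step 1 218 0 (.step 0 219 217 (.step 5 220 3 (.step 0 221 222 (.step 0 224 223 (.contra 225)))))))))))))))))))))))))))))))))))))))))))))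

def c5ppm_2 : CertW :=
  (.step 1 201 23 (.step 3 201 6 (.step 1 202 0 (.step 0 103 203 (.step 0 106 203 (.step 0 153 203 (.step 0 188 203 (.step 0 195 203 (.step 1 203 41 (.step 1 205 37 (.step 1 205 39 (.step 2 206 2 (.step 1 207 39 (.step 4 207 7 (.step 3 208 11 (.step 1 209 41 (.step 1 210 24 (.step 0 211 40 (.step 1 212 22 (.step 1 213 23 (.step 8 214 7 (.step 1 215 23 (.step 0 216 184 (.step 0 216 201 (.step 1 216 23 (.step 1 217 24 (.step 0 133 218 (.step 1 219 64 (.step 8 221 2 (.step 0 220 222 (.step 0 222 216 (.step 1 222 23 (.step 6 223 7 (.step 0 222 224 (.step 1 225 23 (.step 1 226 0 (.step 0 204 230 (.step 1 231 23 (.step 0 232 227 (.step 1 233 0 (.step 0 230 234 (.step 1 236 0 (.step 0 237 238 (.step 1 239 24 (.step 0 243 242 (.step 0 241 244 (.step 2 246 3 (.step 2 247 3 (.step 0 245 248 (.step 0 249 235 (.step 0 249 240 (.step 0 250 224 (.step 1 251 25 (.step 1 252 25 (.step 1 253 25 (.step 1 254 54 (.step 8 255 8 (.step 1 256 64 (.step 0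 228 258 (.step 0 260 257 (.step 5 261 13 (.step 0 58 262 (.step 0 131 262 (.step 0 229 262 (.step 0 259 262 (.step 1 262 65 (.step 1 263 65 (.step 1 264 65 (.step 1 265 65 (.step 1 266 65 (.step 1 267 40 (.step 1 268 32 (.step 1 269 34 (.step 1 270 36 (.step 1 271 38 (.step 3 272 13 (.step 3 273 14 (.step 3 274 10 (.step 3 275 11 (.step 3 276 12 (.step 0 278 277 (.step 0 281 280 (.step 0 279 282 (.step 0 284 283 (.contra 285)))))))))))))))))))))))))))))))))))))))))))))))))))))))))))))))))))))))))))))))))))))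

def c5ppm_3 : CertW :=
  (.step 0 372 314 (.step 3 372 7 (.step 5 373 11 (.step 0 374 359 (.step 0 376 375 (.contra 377))))))

def c5ppm_4 : CertW :=
  (.step 0 45 404 (.step 0 66 404 (.step 0 81 404 (.step 0 83 404 (.step 0 173 404 (.step 0 286 404 (.step 1 405 17 (.step 1 406 17 (.step 0 407 36 (.step 1 408 25 (.step 5 408 13 (.step 1 411 56 (.step 5 413 13 (.step 1 414 40 (.step 0 359 415 (.step 0 415 7 (.step 1 415 33 (.step 1 415 39 (.step 0 63 417 (.step 0 137 417 (.step 1 419 39 (.step 1 419 41 (.step 5 419 8 (.step 0 421 412 (.step 1 422 54 (.step 3 423 14 (.step 3 424 10 (.step 9 425 8 (.step 9 426 8 (.step 0 394 427 (.step 0 408 427 (.step 0 410 427 (.step 0 427 169 (.step 1 427 25 (.step 1 428 16 (.step 0 368 429 (.step 0 430 416 (.step 0 431 146 (.step 0 432 177 (.step 0 376 433 (.step 0 409 433 (.step 0 433 364 (.step 1 433 25 (.step 0 434 169 (.step 0 435 299 (.step 0 436 177 (.step 1 437 23 (.step 7 438 8 (.step 0 440 443 (.step 1 444 25 (.step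 1 446 25 (.step 1 447 16 (.step 1 448 23 (.step 1 449 25 (.step 1 450 23 (.step 1 451 38 (.step 0 371 452 (.step 0 418 452 (.step 0 452 389 (.step 1 454 0 (.step 1 455 16 (.step 1 457 38 (.step 9 458 3 (.step 8 459 7 (.step 0 390 460 (.step 0 461 382 (.step 0 462 300 (.step 3 463 4 (.step 3 464 4 (.step 1 466 35 (.step 0 301 467 (.step 0 453 468 (.step 1 469 35 (.step 3 470 4 (.step 3 471 4 (.step 0 439 472 (.step 0 472 456 (.step 0 472 465 (.step 0 445 473 (.step 1 474 50 (.step 1 476 53 (.step 1 477 50 (.step 0 397 478 (.step 1 478 17 (.step 1 479 17 (.step 0 480 465 (.step 1 481 17 (.step 1 482 17 (.step 1 483 17 (.step 0 234 484 (.step 1 485 38 (.step 0 486 431 (.step 0 486 442 (.step 1 487 17 (.step 9 488 4 (.step 9 489 4 (.step 1 490 17 (.step 1 491 56 (.step 1 492 56 (.step 9 493 9 (.step 0 494 431 (.step 0 495 475 (.step 1 496 49 (.step 2 497 5 (.step 1 498 40 (.step 0 383 499 (.step 0 499 345 (.step 0 500 94 (.step 9 501 9 (.step 0 441 502 (.step 0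 441 503 (.step 2 505 5 (.step 1 506 1 (.step 1 507 18 (.step 0 140 508 (.step 0 309 508 (.step 0 510 345 (.step 0 509 511 (.step 0 514 504 (.step 0 515 513 (.step 0 150 516 (.step 0 420 516 (.step 1 516 33 (.step 1 517 40 (.step 1 519 33 (.step 1 520 33 (.step 1 525 33 (.step 1 526 33 (.step 8 527 5 (.step 0 528 512 (.step 1 529 0 (.step 8 530 0 (.step 1 531 18 (.step 1 532 18 (.step 0 518 533 (.step 0 533 523 (.step 0 533 524 (.step 0 521 535 (.step 0 522 535 (.step 0 534 535 (.step 0 539 523 (.step 0 537 540 (.step 0 538 541 (.step 0 542 536 (.step 0 543 536 (.step 0 544 536 (.step 4 546 0 (.step 4 547 0 (.step 5 549 9 (.step 1 551 1 (.step 1 552 1 (.step 1 553 57 (.step 6 554 0 (.step 1 555 32 (.step 7 556 9 (.step 0 545 557 (.step 0 358 558 (.step 0 548 559 (.step 0 550 559 (.step 1 560 19 (.step 1 562 41 (.step 1 563 41 (.step 0 564 565 (.step 1 566 32 (.step 8 567 14 (.step 0 561 568 (.step 0 570 569 (.contra 571))))))))))))))))))))))))))))))))))))))))))))))))))))))))))))))))))))))))))))))))))))))))))))))))))))))))))))))))))))))))))))))))))))))))))))))))))))))))))))))))))))))))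

def c5ppm_5 : CertW :=
  (.step 0 494 526 (.step 0 497 526 (.step 0 526 425 (.step 0 526 168 (.step 0 526 454 (.step 0 527 480 (.step 2 528 11 (.step 2 529 13 (.step 2 530 12 (.step 0 315 533 (.step 0 534 81 (.step 0 534 82 (.step 0 495 535 (.step 0 536 474 (.step 1 536 23 (.step 1 537 55 (.step 3 538 8 (.step 1 540 23 (.step 1 541 38 (.step 1 541 52 (.step 1 542 24 (.step 0 70 543 (.step 0 543 106 (.step 0 543 531 (.step 1 543 39 (.step 8 544 7 (.step 0 545 532 (.step 0 546 539 (.step 1 549 39 (.step 9 551 8 (.step 0 177 552 (.step 0 552 554 (.step 1 555 24 (.step 0 556 547 (.step 1 557 53 (.step 0 558 556 (.step 0 558 560 (.step 0 561 298 (.step 1 561 38 (.step 0 562 559 (.step 0 565 553 (.step 5 566 3 (.step 13 567 12 (.step 1 568 1 (.step 0 569 564 (.step 7 570 3 (.step 1 571 24 (.step 0 572 562 (.step 0 572 563 (.step 1 574 25 (.step 0 573 575 (.step 1 575 25 (.step 1 576 38 (.step 1 577 25 (.step 0 136 578 (.step 0 579 550 (.step 1 580 54 (.step 1 583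 25 (.step 1 584 0 (.step 0 548 585 (.step 3 586 3 (.step 1 587 23 (.step 1 588 0 (.step 9 588 3 (.step 0 589 253 (.step 0 589 327 (.step 0 589 258 (.step 0 590 591 (.step 0 590 592 (.step 0 590 593 (.step 4 595 7 (.step 1 597 53 (.step 6 598 7 (.step 0 599 594 (.step 0 599 596 (.step 1 600 37 (.step 1 601 37 (.step 0 602 581 (.step 1 603 38 (.step 9 604 12 (.step 0 605 582 (.step 0 607 606 (.contra 608)))))))))))))))))))))))))))))))))))))))))))))))))))))))))))))))))))))))))))))))))))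

def c5ppm_6 : CertW :=
  (.step 4 602 13 (.step 0 603 461 (.step 2 604 12 (.step 0 605 462 (.step 0 605 598 (.step 1 606 53 (.step 1 607 53 (.step 1 608 38 (.step 1 609 22 (.step 0 610 601 (.step 0 581 611 (.step 1 612 1 (.step 1 613 25 (.step 0 569 614 (.step 1 614 40 (.step 9 615 4 (.step 0 617 618 (.step 0 618 584 (.step 0 619 584 (.step 1 620 41 (.step 1 621 41 (.step 0 616 622 (.step 1 623 32 (.step 8 624 14 (.step 0 577 625 (.step 0 627 626 (.contra 628)))))))))))))))))))))))))))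

def c5ppm_7 : CertW :=
  (.step 4 634 11 (.step 0 212 635 (.step 1 635 35 (.step 1 636 35 (.step 1 637 50 (.step 1 638 50 (.step 0 617 639 (.step 0 640 356 (.step 0 641 356 (.step 1 642 49 (.step 2 643 5 (.step 1 644 18 (.step 1 645 33 (.step 1 647 34 (.step 8 647 5 (.step 4 648 5 (.step 0 646 649 (.step 0 650 632 (.step 0 651 632 (.step 4 652 0 (.step 1 654 1 (.step 0 655 633 (.step 6 655 0 (.step 1 656 32 (.step 0 653 657 (.step 0 358 658 (.step 1 659 19 (.step 12 660 14 (.step 0 661 633 (.step 0 663 662 (.contra 664)))))))))))))))))))))))))))))))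

def c5ppm_8 : CertW :=
  (.step 1 653 41 (.step 1 654 56 (.step 0 655 604 (.step 3 656 9 (.step 1 657 33 (.step 1 658 40 (.step 5 659 9 (.step 0 651 660 (.step 0 652 660 (.step 4 661 0 (.step 1 663 1 (.step 0 664 589 (.step 6 664 0 (.step 1 665 32 (.step 0 662 666 (.step 0 636 667 (.step 1 668 19 (.step 12 669 14 (.step 0 670 589 (.step 0 672 671 (.contra 673)))))))))))))))))))))

def c5ppm_9 : CertW :=
  (.step 1 653 1 (.step 0 569 654 (.step 0 654 589 (.step 0 655 589 (.step 1 656 32 (.step 8 657 14 (.step 0 577 658 (.step 0 660 659 (.contra 661)))))))))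

def c5ppm_10 : CertW :=
  (.step 5 634 11 (.step 0 358 635 (.step 0 439 635 (.step 0 512 635 (.step 3 637 10 (.step 3 638 14 (.step 0 225 639 (.step 0 517 639 (.step 1 641 49 (.step 2 642 5 (.step 1 643 18 (.step 1 644 33 (.step 1 646 34 (.step 8 646 5 (.step 4 647 5 (.step 0 645 648 (.step 0 649 640 (.step 0 650 640 (.split [36] [40] c5ppm_8 c5ppm_9)))))))))))))))))))

def c5ppm_11 : CertW :=
  (.step 0 602 507 (.step 0 602 508 (.step 1 602 25 (.step 5 602 13 (.step 1 605 40 (.step 0 606 481 (.step 1 606 35 (.step 1 606 41 (.step 0 607 490 (.step 1 608 39 (.step 1 609 18 (.step 1 610 56 (.step 3 611 4 (.step 1 612 54 (.step 0 613 431 (.step 0 614 603 (.step 1 615 17 (.step 0 368 616 (.step 3 618 9 (.step 9 619 4 (.step 1 620 53 (.step 1 621 33 (.step 0 622 583 (.step 1 623 38 (.step 1 624 40 (.step 1 625 41 (.step 0 626 600 (.step 5 627 9 (.step 1 629 1 (.step 0 538 630 (.step 0 631 628 (.split [50] [52] c5ppm_7 c5ppm_10))))))))))))))))))))))))))))))))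

def c5ppm_12 : CertW :=
  (.step 0 124 526 (.step 0 358 526 (.step 0 526 10 (.step 3 527 10 (.step 0 528 140 (.step 1 529 33 (.step 0 513 530 (.step 0 518 530 (.step 1 532 64 (.step 0 533 146 (.step 2 534 5 (.step 3 535 14 (.step 1 536 49 (.step 2 536 5 (.step 0 537 145 (.step 0 417 540 (.step 0 304 540 (.step 0 309 540 (.step 0 531 540 (.step 1 541 33 (.step 1 542 33 (.step 1 543 33 (.step 1 544 33 (.step 1 546 0 (.step 1 546 16 (.step 1 547 0 (.step 1 548 0 (.step 8 549 0 (.step 0 524 550 (.step 0 525 550 (.step 0 285 551 (.step 0 552 554 (.step 0 553 554 (.step 0 554 308 (.step 0 555 554 (.step 0 556 554 (.step 0 558 308 (.step 0 559 308 (.step 1 560 1 (.step 5 562 9 (.step 1 563 1 (.step 1 564 1 (.step 0 539 565 (.step 1 565 16 (.step 1 565 32 (.step 1 566 57 (.step 1 567 16 (.step 1 568 16 (.step 1 568 24 (.step 0 557 570 (.step 0 545 571 (.step 7 572 9 (.step 0 573 307 (.step 0 574 328 (.step 0 575 469 (.step 0 576 180 (.step 0 558 578 (.step 0 559 578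 (.step 0 561 578 (.step 1 579 25 (.step 1 580 25 (.step 1 582 23 (.step 1 585 41 (.step 9 586 3 (.step 9 587 3 (.step 8 588 7 (.step 0 301 590 (.step 0 325 591 (.step 0 177 592 (.step 0 470 592 (.step 1 595 53 (.step 0 596 326 (.step 1 597 38 (.step 0 599 593 (.step 0 599 594 (.split [54] [56] c5ppm_6 c5ppm_11))))))))))))))))))))))))))))))))))))))))))))))))))))))))))))))))))))))))))))

def c5ppm_13 : CertW :=
  (.step 0 422 455 (.step 1 455 39 (.step 1 455 41 (.step 5 455 8 (.step 1 456 39 (.step 1 457 64 (.step 9 457 8 (.step 9 458 8 (.step 0 362 459 (.step 0 394 459 (.step 0 459 169 (.step 1 459 25 (.step 1 459 55 (.step 7 460 3 (.step 0 462 177 (.step 0 463 364 (.step 0 463 451 (.step 0 464 169 (.step 0 464 177 (.step 0 464 445 (.step 0 465 169 (.step 0 465 176 (.step 1 466 23 (.step 7 467 8 (.step 1 468 64 (.step 7 468 8 (.step 1 471 25 (.step 1 472 25 (.step 1 473 23 (.step 1 475 25 (.step 1 476 23 (.step 1 477 23 (.step 1 478 38 (.step 0 371 479 (.step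 0 479 300 (.step 0 479 389 (.step 1 482 16 (.step 1 483 16 (.step 1 484 38 (.step 1 484 52 (.step 9 485 3 (.step 1 486 38 (.step 1 487 38 (.step 0 390 488 (.step 0 489 448 (.step 3 491 4 (.step 0 378 496 (.step 1 497 35 (.step 1 498 33 (.step 1 499 35 (.step 3 500 4 (.step 0 501 492 (.step 0 501 493 (.step 1 502 1 (.step 1 503 18 (.step 1 503 50 (.step 1 504 64 (.step 1 505 50 (.step 0 397 506 (.step 1 506 17 (.step 1 509 40 (.step 0 510 234 (.step 0 234 511 (.step 1 514 17 (.step 9 515 4 (.step 1 519 40 (.step 0 516 520 (.step 0 520 345 (.step 0 522 345 (.step 0 521 523 (.split [0] [64] c5ppm_5 c5ppm_12)))))))))))))))))))))))))))))))))))))))))))))))))))))))))))))))))))))))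

def c5ppm_14 : CertW :=
  (.step 5 580 2 (.step 0 581 517 (.step 0 581 531 (.step 0 581 534 (.step 0 581 535 (.step 1 581 35 (.step 1 582 35 (.step 1 583 65 (.step 1 584 65 (.step 1 585 65 (.step 1 586 48 (.step 1 587 64 (.step 1 588 36 (.step 1 589 38 (.step 1 590 40 (.step 0 591 523 (.step 2 593 11 (.step 2 594 12 (.step 2 595 13 (.step 4 596 10 (.step 0 597 598 (.step 0 600 592 (.step 1 600 65 (.step 0 601 599 (.step 1 602 65 (.step 1 603 34 (.step 1 605 32 (.step 2 606 10 (.step 2 607 14 (.step 0 608 604 (.step 0 610 609 (.contra 611))))))))))))))))))))))))))))))))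

def c5ppm_15 : CertW :=
  (.step 5 600 11 (.step 0 439 601 (.step 3 602 10 (.step 0 225 603 (.step 1 604 49 (.step 1 605 34 (.step 0 530 606 (.step 1 607 1 (.step 0 594 608 (.step 0 609 573 (.step 1 609 38 (.step 9 610 12 (.step 0 611 576 (.step 0 613 612 (.contra 614)))))))))))))))

def c5ppm_16 : CertW :=
  (.step 5 629 14 (.step 0 630 80 (.step 1 630 41 (.step 1 631 41 (.step 1 632 56 (.step 1 633 56 (.step 0 475 634 (.step 0 475 635 (.step 0 636 543 (.step 1 637 55 (.step 3 638 8 (.step 1 639 24 (.step 1 640 39 (.step 1 642 40 (.step 9 642 8 (.step 5 643 8 (.step 0 627 644 (.step 0 627 645 (.step 0 646 641 (.step 5 647 3 (.step 1 649 1 (.step 0 628 650 (.step 7 650 3 (.step 1 651 38 (.step 0 652 648 (.step 0 653 407 (.step 1 654 25 (.step 13 655 12 (.step 0 628 656 (.step 0 658 657 (.contra 659)))))))))))))))))))))))))))))))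

def c5ppm_17 : CertW :=
  (.step 1 652 1 (.step 0 636 653 (.step 0 654 573 (.step 1 654 38 (.step 9 655 12 (.step 0 656 576 (.step 0 658 657 (.contra 659))))))))

def c5ppm_18 : CertW :=
  (.step 1 652 37 (.step 1 653 52 (.step 0 601 654 (.step 2 655 7 (.step 1 656 39 (.step 1 657 36 (.step 4 658 7 (.step 0 659 650 (.step 0 659 651 (.step 5 660 3 (.step 1 662 1 (.step 0 637 663 (.step 7 663 3 (.step 1 664 38 (.step 0 665 661 (.step 0 666 635 (.step 1 667 25 (.step 13 668 12 (.step 0 637 669 (.step 0 671 670 (.contra 672)))))))))))))))))))))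

def c5ppm_19 : CertW :=
  (.step 0 629 142 (.step 4 629 14 (.step 1 630 21 (.step 0 631 58 (.step 0 631 172 (.step 0 631 407 (.step 0 594 632 (.step 0 599 632 (.step 2 633 13 (.step 2 634 12 (.step 0 638 59 (.step 0 638 84 (.step 1 640 55 (.step 3 641 8 (.step 1 642 24 (.step 1 643 39 (.step 1 645 40 (.step 9 645 8 (.step 5 646 8 (.step 0 639 647 (.step 0 639 648 (.step 0 649 644 (.split [32] [36] c5ppm_17 c5ppm_18)))))))))))))))))))))))

def c5ppm_20 : CertW :=
  (.step 0 316 600 (.step 0 317 600 (.step 1 600 21 (.step 4 600 11 (.step 1 603 36 (.step 0 212 604 (.step 1 604 37 (.step 0 348 605 (.step 1 606 35 (.step 1 607 52 (.step 2 608 2 (.step 1 609 50 (.step 0 602 610 (.step 1 611 23 (.step 0 612 356 (.step 2 613 7 (.step 8 614 2 (.step 1 615 49 (.step 1 616 39 (.step 0 597 617 (.step 1 618 34 (.step 1 619 36 (.step 1 620 37 (.step 0 529 621 (.step 4 622 7 (.step 1 624 1 (.step 0 625 368 (.step 0 623 626 (.split [48] [56] c5ppm_16 c5ppm_19)))))))))))))))))))))))))))))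

def c5ppm_21 : CertW :=
  (.step 4 580 2 (.step 0 581 378 (.step 1 581 39 (.step 1 582 39 (.step 1 583 0 (.step 1 584 0 (.step 0 568 585 (.step 0 579 585 (.step 0 568 586 (.step 0 587 395 (.step 0 587 396 (.step 0 588 396 (.step 4 590 7 (.step 1 592 37 (.step 1 593 53 (.step 6 595 7 (.step 0 596 589 (.step 0 596 591 (.step 1 598 37 (.split [52] [50] c5ppm_15 c5ppm_20))))))))))))))))))))

def c5ppm_22 : CertW :=
  (.step 0 14 531 (.step 0 531 425 (.step 0 531 450 (.step 0 531 472 (.step 1 531 41 (.step 0 532 454 (.step 2 533 13 (.step 1 536 24 (.step 0 54 538 (.step 0 71 538 (.step 0 538 82 (.step 0 76 539 (.step 0 540 75 (.step 0 540 81 (.step 0 541 81 (.step 3 542 8 (.step 3 544 8 (.step 1 545 55 (.step 3 546 8 (.step 0 53 547 (.step 0 70 547 (.step 0 548 433 (.step 0 548 537 (.step 0 550 488 (.step 1 551 39 (.step 1 552 39 (.step 3 553 3 (.step 3 555 3 (.step 1 556 0 (.step 1 557 0 (.step 1 558 23 (.step 1 559 23 (.step 9 562 3 (.step 1 563 0 (.step 9 563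 3 (.step 0 385 564 (.step 0 564 560 (.step 0 565 327 (.step 0 566 561 (.step 1 567 1 (.step 0 566 569 (.step 0 571 549 (.step 1 571 38 (.step 4 572 7 (.step 0 574 554 (.step 1 575 53 (.step 6 577 7 (.step 0 578 570 (.split [20] [22] c5ppm_14 c5ppm_21)))))))))))))))))))))))))))))))))))))))))))))))))

def c5ppm_23 : CertW :=
  (.step 0 124 531 (.step 0 437 531 (.step 1 531 65 (.step 3 532 10 (.step 0 533 528 (.step 1 534 36 (.step 1 534 52 (.step 0 535 520 (.step 0 535 522 (.step 0 535 523 (.step 12 536 10 (.step 0 212 537 (.step 0 388 538 (.step 1 540 51 (.step 1 541 51 (.step 0 526 542 (.step 1 545 34 (.step 1 546 34 (.step 1 547 20 (.step 0 548 223 (.step 0 548 543 (.step 0 179 549 (.step 1 549 37 (.step 1 551 37 (.step 1 552 37 (.step 3 552 11 (.step 1 553 39 (.step 6 554 2 (.step 8 555 7 (.step 1 556 64 (.step 0 544 557 (.step 1 558 22 (.step 0 559 158 (.step 0 559 392 (.step 0 169 560 (.step 3 561 11 (.step 0 563 562 (.step 1 564 21 (.step 0 565 567 (.step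 0 566 567 (.step 1 568 51 (.step 1 569 34 (.step 2 570 6 (.step 1 571 51 (.step 1 572 64 (.step 0 408 574 (.step 0 574 573 (.step 1 574 35 (.step 1 575 20 (.step 0 576 574 (.step 1 577 35 (.step 8 579 6 (.step 1 582 20 (.step 0 580 583 (.step 0 583 539 (.step 0 585 539 (.step 0 584 586 (.step 4 588 1 (.step 1 589 1 (.step 6 590 1 (.step 0 586 591 (.step 0 587 591 (.step 1 592 21 (.step 0 593 550 (.step 1 593 21 (.step 1 594 34 (.step 1 595 21 (.step 0 596 27 (.step 0 581 597 (.step 1 598 50 (.step 1 601 21 (.step 1 602 0 (.step 0 603 578 (.step 2 604 1 (.step 1 605 19 (.step 1 606 0 (.step 8 606 1 (.step 0 507 607 (.step 0 513 607 (.step 0 514 607 (.step 0 609 608 (.step 0 610 608 (.step 0 611 608 (.step 5 613 5 (.step 1 615 49 (.step 7 616 5 (.step 0 612 617 (.step 0 614 617 (.step 1 618 33 (.step 1 619 33 (.step 0 599 620 (.step 1 621 34 (.step 8 622 10 (.step 0 600 623 (.step 0 625 624 (.contra 626))))))))))))))))))))))))))))))))))))))))))))))))))))))))))))))))))))))))))))))))))))))))))))))))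

def c5ppm_24 : CertW :=
  (.step 0 79 455 (.step 0 455 359 (.step 0 455 443 (.step 4 455 8 (.step 0 456 443 (.step 1 457 41 (.step 2 457 13 (.step 1 458 41 (.step 0 33 459 (.step 0 459 452 (.step 1 459 17 (.step 1 460 33 (.step 1 461 64 (.step 0 459 462 (.step 0 462 56 (.step 1 462 17 (.step 1 463 64 (.step 1 465 25 (.step 1 466 0 (.step 2 468 13 (.step 1 469 17 (.step 0 464 470 (.step 1 470 17 (.step 0 471 467 (.step 1 471 0 (.step 1 471 32 (.step 1 473 0 (.step 0 89 474 (.step 1 476 32 (.step 1 477 17 (.step 1 478 18 (.step 1 479 18 (.step 0 38 482 (.step 0 481 483 (.step 0 483 480 (.step 0 484 89 (.step 1 485 0 (.step 3 489 0 (.step 3 490 0 (.step 3 491 0 (.step 3 492 0 (.step 0 400 493 (.step 0 493 486 (.step 0 494 86 (.step 1 495 19 (.step 0 278 496 (.step 0 280 496 (.step 0 497 487 (.step 1 498 19 (.step 1 499 19 (.step 1 500 16 (.step 9 500 0 (.step 1 501 19 (.step 1 502 19 (.step 1 503 19 (.step 1 504 34 (.step 1 505 34 (.step 5 506 0 (.step 0 50 507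 (.step 1 508 48 (.step 9 509 5 (.step 1 510 34 (.step 0 403 511 (.step 0 295 512 (.step 0 515 516 (.step 0 516 430 (.step 0 520 430 (.step 0 520 431 (.step 1 521 49 (.step 1 522 49 (.step 0 485 524 (.step 1 524 34 (.step 1 525 34 (.step 0 518 527 (.step 0 519 527 (.split [0] [64] c5ppm_22 c5ppm_23))))))))))))))))))))))))))))))))))))))))))))))))))))))))))))))))))))))))))))

def c5ppm_25 : CertW :=
  (.step 1 452 55 (.step 1 453 64 (.split [38] [40] c5ppm_13 c5ppm_24)))

def c5ppm_26 : CertW :=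
  (.step 0 45 452 (.step 0 428 452 (.step 0 81 452 (.step 0 429 452 (.step 0 173 452 (.step 0 286 452 (.step 1 453 17 (.step 1 454 17 (.step 0 455 424 (.step 1 456 25 (.step 5 456 13 (.step 1 459 56 (.step 5 461 13 (.step 1 462 40 (.step 0 359 463 (.step 0 463 408 (.step 1 463 33 (.step 1 463 39 (.step 0 63 465 (.step 0 137 465 (.step 1 467 39 (.step 1 467 41 (.step 5 467 8 (.step 0 469 460 (.step 1 470 54 (.step 3 471 14 (.step 3 472 10 (.step 9 473 8 (.step 9 474 8 (.step 0 394 475 (.step 0 456 475 (.step 0 458 475 (.step 0 475 169 (.step 1 475 25 (.step 1 476 16 (.step 0 368 477 (.step 0 478 464 (.step 0 479 146 (.step 0 480 177 (.step 0 376 481 (.step 0 457 481 (.step 0 481 364 (.step 1 481 25 (.step 0 482 169 (.step 0 483 299 (.step 0 484 177 (.step 1 485 23 (.step 7 486 8 (.step 0 488 491 (.step 1 492 25 (.step 1 494 25 (.step 1 495 16 (.step 1 496 23 (.step 1 497 25 (.step 1 498 23 (.step 1 499 38 (.step 0 371 500 (.step 0 466 500 (.step 0 500 389 (.step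 1 502 0 (.step 1 503 16 (.step 1 505 38 (.step 9 506 3 (.step 8 507 7 (.step 0 390 508 (.step 0 509 448 (.step 0 510 300 (.step 3 511 4 (.step 3 512 4 (.step 1 514 35 (.step 0 301 515 (.step 0 501 516 (.step 1 517 35 (.step 3 518 4 (.step 3 519 4 (.step 0 487 520 (.step 0 520 504 (.step 0 520 513 (.step 0 493 521 (.step 1 522 50 (.step 1 524 53 (.step 1 525 50 (.step 0 397 526 (.step 1 526 17 (.step 1 527 17 (.step 0 528 513 (.step 1 529 17 (.step 1 530 17 (.step 1 531 17 (.step 0 234 532 (.step 1 533 38 (.step 0 534 479 (.step 0 534 490 (.step 1 535 17 (.step 9 536 4 (.step 9 537 4 (.step 1 538 17 (.step 1 539 56 (.step 1 540 56 (.step 9 541 9 (.step 0 542 479 (.step 0 543 523 (.step 1 544 49 (.step 2 545 5 (.step 1 546 40 (.step 0 449 547 (.step 0 547 345 (.step 0 548 427 (.step 9 549 9 (.step 0 489 550 (.step 0 489 551 (.step 2 553 5 (.step 1 554 1 (.step 1 555 18 (.step 0 140 556 (.step 0 309 556 (.step 0 558 345 (.step 0 557 559 (.step 0 562 552 (.step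 0 563 561 (.step 0 150 564 (.step 0 468 564 (.step 1 564 33 (.step 1 565 40 (.step 1 567 33 (.step 1 568 33 (.step 1 573 33 (.step 1 574 33 (.step 8 575 5 (.step 0 576 560 (.step 1 577 0 (.step 8 578 0 (.step 1 579 18 (.step 1 580 18 (.step 0 566 581 (.step 0 581 571 (.step 0 581 572 (.step 0 569 583 (.step 0 570 583 (.step 0 582 583 (.step 0 587 571 (.step 0 585 588 (.step 0 586 589 (.step 0 590 584 (.step 0 591 584 (.step 0 592 584 (.step 4 594 0 (.step 4 595 0 (.step 5 597 9 (.step 1 599 1 (.step 1 600 1 (.step 1 601 57 (.step 6 602 0 (.step 1 603 32 (.step 7 604 9 (.step 0 593 605 (.step 0 358 606 (.step 0 596 607 (.step 0 598 607 (.step 1 608 19 (.step 1 610 41 (.step 1 611 41 (.step 0 612 613 (.step 1 614 32 (.step 8 615 14 (.step 0 609 616 (.step 0 618 617 (.contra 619))))))))))))))))))))))))))))))))))))))))))))))))))))))))))))))))))))))))))))))))))))))))))))))))))))))))))))))))))))))))))))))))))))))))))))))))))))))))))))))))))))))))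

def c5ppm_27 : CertW :=
  (.step 0 162 440 (.step 1 440 23 (.step 2 440 7 (.step 1 441 25 (.step 1 442 24 (.step 1 443 39 (.step 1 443 41 (.step 1 444 0 (.step 1 444 40 (.step 1 446 64 (.step 1 447 24 (.split [54] [18] c5ppm_25 c5ppm_26))))))))))))

def c5ppm_28 : CertW :=
  (.step 0 440 314 (.step 3 440 7 (.step 5 441 11 (.step 0 442 359 (.step 0 444 443 (.contra 445))))))

def c5ppm_29 : CertW :=
  (.step 1 434 51 (.step 2 434 6 (.step 1 435 64 (.step 1 436 35 (.step 1 438 64 (.split [22] [52] c5ppm_27 c5ppm_28))))))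

def c5ppm_30 : CertW :=
  (.step 0 434 397 (.step 3 434 6 (.step 4 435 11 (.step 0 351 436 (.step 0 438 437 (.contra 439))))))

def c5ppm_31 : CertW :=
  (.step 0 79 408 (.step 0 408 19 (.step 0 408 95 (.step 0 408 140 (.step 1 408 1 (.step 1 408 35 (.step 1 408 41 (.step 3 408 4 (.step 0 409 140 (.step 1 409 33 (.step 1 410 33 (.step 1 411 41 (.step 1 412 35 (.step 1 413 38 (.step 1 414 18 (.step 1 415 54 (.step 1 415 64 (.step 1 416 25 (.step 1 418 0 (.step 1 419 16 (.step 1 420 56 (.step 1 421 18 (.step 0 423 234 (.step 1 426 0 (.step 0 14 432 (.split [20] [50] c5ppm_29 c5ppm_30))))))))))))))))))))))))))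

def c5ppm_32 : CertW :=
  (.step 0 150 408 (.step 0 179 408 (.step 1 408 39 (.step 2 408 4 (.step 1 409 39 (.step 1 410 39 (.step 0 165 411 (.step 0 166 411 (.step 0 249 412 (.step 0 250 412 (.step 1 413 64 (.step 9 413 8 (.step 1 415 64 (.step 1 416 64 (.step 0 417 177 (.step 1 417 23 (.step 1 418 23 (.step 0 420 177 (.step 1 423 23 (.step 0 424 414 (.step 0 425 414 (.step 8 427 7 (.step 1 428 52 (.step 1 429 64 (.step 0 426 430 (.step 0 433 431 (.step 5 434 12 (.step 0 419 435 (.step 0 421 435 (.step 0 422 435 (.step 0 432 435 (.step 1 435 65 (.step 1 436 65 (.step 1 437 65 (.step 1 438 65 (.step 1 439 65 (.step 1 440 38 (.step 1 441 40 (.step 1 442 32 (.step 1 443 34 (.step 1 444 36 (.step 3 445 12 (.step 3 446 13 (.step 3 447 14 (.step 3 448 10 (.step 3 449 11 (.step 0 451 450 (.step 0 454 453 (.step 0 452 455 (.step 0 457 456 (.contra 458)))))))))))))))))))))))))))))))))))))))))))))))))))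

def c5ppm_33 : CertW :=
  (.step 0 404 3 (.step 1 405 55 (.step 1 406 64 (.split [40] [0] c5ppm_31 c5ppm_32))))

def c5ppm_34 : CertW :=
  (.step 0 125 397 (.step 0 346 397 (.step 0 398 362 (.step 1 399 21 (.step 8 401 1 (.step 0 402 369 (.split [18] [54] c5ppm_4 c5ppm_33)))))))

def c5ppm_35 : CertW :=
  (.step 0 372 397 (.step 0 388 397 (.step 1 397 21 (.step 1 398 21 (.step 1 398 23 (.step 4 398 2 (.step 1 399 23 (.step 0 400 18 (.step 8 401 2 (.step 8 402 2 (.step 0 150 403 (.step 1 403 39 (.step 1 403 41 (.step 1 404 0 (.step 1 406 37 (.step 4 408 7 (.step 1 409 24 (.step 1 410 24 (.step 0 411 407 (.step 1 413 21 (.step 0 82 415 (.step 0 393 415 (.step 2 416 3 (.step 0 412 417 (.step 0 414 420 (.step 0 420 393 (.step 0 420 419 (.step 0 421 405 (.step 0 422 393 (.step 1 423 25 (.step 1 424 25 (.step 1 425 64 (.step 1 426 25 (.step 1 427 54 (.step 8 428 8 (.step 1 430 64 (.step 0 418 432 (.step 0 434 431 (.step 5 435 13 (.step 0 63 436 (.step 0 137 436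 (.step 0 429 436 (.step 0 433 436 (.step 1 436 65 (.step 1 437 65 (.step 1 438 65 (.step 1 439 65 (.step 1 440 65 (.step 1 441 40 (.step 1 442 32 (.step 1 443 34 (.step 1 444 36 (.step 1 445 38 (.step 3 446 13 (.step 3 447 14 (.step 3 448 10 (.step 3 449 11 (.step 3 450 12 (.step 0 452 451 (.step 0 455 454 (.step 0 453 456 (.step 0 458 457 (.contra 459)))))))))))))))))))))))))))))))))))))))))))))))))))))))))))))))

def c5ppm_36 : CertW :=
  (.step 0 162 372 (.step 1 372 23 (.step 2 372 7 (.step 0 373 362 (.step 1 373 25 (.step 6 374 7 (.step 1 375 37 (.step 1 375 39 (.step 1 376 25 (.step 1 377 0 (.step 1 377 40 (.step 0 212 378 (.step 0 378 344 (.step 1 378 39 (.step 8 379 7 (.step 8 380 7 (.step 1 381 0 (.step 0 384 370 (.step 1 386 0 (.step 0 387 164 (.step 0 388 332 (.step 0 388 362 (.step 0 391 349 (.step 0 391 350 (.split [20] [52] c5ppm_34 c5ppm_35)))))))))))))))))))))))))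

def c5ppm_37 : CertW :=
  (.step 1 359 39 (.step 1 359 41 (.step 2 359 12 (.step 1 360 64 (.step 1 361 24 (.step 1 362 19 (.step 1 362 23 (.step 1 362 25 (.step 2 363 12 (.step 1 365 34 (.step 1 366 38 (.step 1 367 40 (.split [52] [22] c5ppm_3 c5ppm_36)))))))))))))

def c5ppm_38 : CertW :=
  (.step 0 124 359 (.step 0 211 359 (.step 0 224 359 (.step 0 359 150 (.step 0 359 154 (.step 1 359 35 (.step 1 359 65 (.step 3 359 12 (.step 0 360 150 (.step 0 361 297 (.step 1 363 65 (.step 1 365 18 (.step 1 366 36 (.step 0 367 178 (.step 0 367 329 (.step 0 367 331 (.step 1 367 17 (.step 1 367 53 (.step 3 368 10 (.step 1 370 36 (.step 0 371 236 (.step 1 373 53 (.step 4 374 13 (.step 1 376 32 (.step 0 377 370 (.step 1 377 54 (.step 0 378 296 (.step 1 381 22 (.step 0 382 359 (.step 0 382 363 (.step 0 382 364 (.step 1 382 35 (.step 0 383 347 (.step 1 384 50 (.step 5 385 12 (.step 4 388 8 (.step 1 390 35 (.step 1 391 18 (.step 0 33 395 (.step 0 158 395 (.step 0 387 395 (.step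 0 395 373 (.step 1 395 17 (.step 1 396 18 (.step 0 397 380 (.step 0 398 375 (.step 0 399 367 (.step 2 400 7 (.step 1 401 53 (.step 1 402 32 (.step 1 405 17 (.step 2 406 7 (.step 0 394 407 (.step 6 408 7 (.step 0 409 392 (.step 1 410 0 (.step 0 362 411 (.step 0 411 372 (.step 1 411 37 (.step 3 412 11 (.step 0 413 179 (.step 3 414 0 (.step 3 415 0 (.step 3 416 10 (.step 1 417 37 (.step 8 418 7 (.step 0 395 419 (.step 1 420 37 (.step 1 421 19 (.step 0 56 422 (.step 0 278 422 (.step 0 280 422 (.step 0 225 423 (.step 0 404 423 (.step 1 424 64 (.step 0 426 393 (.step 1 427 52 (.step 1 428 16 (.step 9 428 0 (.step 1 429 19 (.step 1 430 19 (.step 1 431 19 (.step 1 432 49 (.step 3 434 11 (.step 1 435 51 (.step 5 437 0 (.step 0 50 438 (.step 1 439 34 (.step 1 439 48 (.step 1 440 48 (.step 9 441 5 (.step 1 442 34 (.step 0 425 443 (.step 1 444 64 (.step 0 369 447 (.step 0 386 448 (.step 0 449 450 (.step 0 450 403 (.step 0 451 379 (.step 0 452 163 (.step 0 455 450 (.step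 0 456 403 (.step 0 456 433 (.step 1 457 49 (.step 1 461 49 (.step 1 462 49 (.step 0 410 463 (.step 1 463 34 (.step 1 464 34 (.step 1 465 34 (.step 0 454 467 (.step 0 468 458 (.step 1 469 37 (.step 12 470 10 (.step 1 471 37 (.step 6 472 2 (.step 0 466 473 (.step 1 474 64 (.step 0 475 158 (.step 0 475 459 (.step 1 476 20 (.step 3 477 11 (.step 1 478 21 (.step 2 479 6 (.step 0 436 481 (.step 1 482 34 (.step 0 389 483 (.step 0 453 483 (.step 1 483 35 (.step 1 484 51 (.step 0 483 485 (.step 1 486 35 (.step 8 488 6 (.step 1 489 20 (.step 1 491 20 (.step 0 492 460 (.step 0 493 495 (.step 0 494 495 (.step 4 497 1 (.step 1 498 1 (.step 6 499 1 (.step 0 495 500 (.step 0 496 500 (.step 1 501 21 (.step 0 502 480 (.step 1 502 21 (.step 1 503 34 (.step 1 504 21 (.step 0 505 27 (.step 0 487 506 (.step 1 507 50 (.step 1 510 21 (.step 1 511 0 (.step 0 512 490 (.step 2 513 1 (.step 1 514 19 (.step 1 515 0 (.step 8 515 1 (.step 0 438 516 (.step 0 445 516 (.step 0 446 516 (.step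 0 518 517 (.step 0 519 517 (.step 0 520 517 (.step 5 522 5 (.step 1 524 49 (.step 7 525 5 (.step 0 521 526 (.step 0 523 526 (.step 1 527 33 (.step 1 528 33 (.step 0 508 529 (.step 1 530 34 (.step 8 531 10 (.step 0 509 532 (.step 0 534 533 (.contra 535)))))))))))))))))))))))))))))))))))))))))))))))))))))))))))))))))))))))))))))))))))))))))))))))))))))))))))))))))))))))))))))))))))))))))))))))))))))))))))))))))))))))))))))))))

def c5ppm_39 : CertW :=
  (.step 1 351 35 (.step 3 351 10 (.step 1 352 64 (.step 0 201 353 (.step 3 354 10 (.step 1 355 49 (.step 1 357 64 (.split [38] [64] c5ppm_37 c5ppm_38))))))))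

def c5ppm_40 : CertW :=
  (.step 0 103 351 (.step 2 351 10 (.step 2 352 14 (.step 0 353 261 (.step 0 355 354 (.contra 356))))))

def c5ppm_41 : CertW :=
  (.step 0 329 41 (.step 0 329 56 (.step 0 329 60 (.step 0 329 73 (.step 0 329 83 (.step 1 329 17 (.step 1 329 21 (.step 1 329 23 (.step 1 330 23 (.step 1 333 17 (.step 1 334 19 (.step 1 335 32 (.step 1 336 0 (.step 1 337 0 (.step 1 338 38 (.step 1 339 0 (.step 1 340 20 (.step 0 341 89 (.step 0 342 219 (.step 0 343 260 (.step 0 343 322 (.split [64] [34] c5ppm_39 c5ppm_40))))))))))))))))))))))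

def c5ppm_42 : CertW :=
  (.step 0 261 329 (.step 0 268 329 (.step 0 269 329 (.step 0 270 329 (.step 4 330 11 (.step 2 331 7 (.step 0 333 226 (.step 0 212 334 (.step 0 334 188 (.step 1 334 35 (.step 0 32 335 (.step 0 335 334 (.step 2 336 7 (.step 1 337 35 (.step 4 338 6 (.step 1 339 50 (.step 0 340 334 (.step 1 341 39 (.step 1 341 41 (.step 2 341 12 (.step 1 342 39 (.step 1 343 50 (.step 0 344 181 (.step 0 235 345 (.step 1 346 39 (.step 1 347 64 (.step 1 348 24 (.step 0 329 349 (.step 0 332 349 (.step 8 350 7 (.step 0 351 200 (.step 1 352 49 (.step 0 353 200 (.step 1 354 0 (.step 2 355 12 (.step 1 357 25 (.step 1 357 57 (.step 5 357 13 (.step 1 358 25 (.step 0 177 359 (.step 1 360 49 (.step 1 361 64 (.step 1 365 40 (.step 0 129 367 (.step 0 337 367 (.step 0 341 367 (.step 0 367 21 (.step 0 367 363 (.step 1 367 35 (.step 1 367 39 (.step 1 367 41 (.step 1 368 0 (.step 0 369 302 (.step 1 370 18 (.step 3 373 10 (.step 1 374 35 (.step 1 375 39 (.step 1 375 41 (.step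 5 375 8 (.step 1 376 33 (.step 1 377 1 (.step 1 378 18 (.step 1 379 54 (.step 0 380 366 (.step 0 384 149 (.step 1 385 50 (.step 9 386 8 (.step 9 387 8 (.step 1 388 25 (.step 1 389 64 (.step 7 390 3 (.step 0 391 362 (.step 0 364 392 (.step 1 393 56 (.step 0 395 394 (.step 0 396 382 (.step 0 397 356 (.step 7 398 8 (.step 3 399 14 (.step 2 401 5 (.step 2 404 5 (.step 0 402 405 (.step 1 406 25 (.step 0 372 407 (.step 0 407 381 (.step 1 409 33 (.step 0 147 410 (.step 0 309 410 (.step 1 411 53 (.step 1 412 16 (.step 0 413 300 (.step 3 414 4 (.step 1 415 34 (.step 8 415 5 (.step 1 416 33 (.step 1 417 33 (.step 1 418 22 (.step 3 420 4 (.step 0 403 421 (.step 4 422 5 (.step 0 383 423 (.step 1 424 0 (.step 8 425 0 (.step 0 400 426 (.step 0 262 427 (.step 1 427 17 (.step 0 428 419 (.step 0 429 408 (.step 0 430 408 (.step 0 431 432 (.step 1 433 25 (.step 1 434 17 (.step 9 435 4 (.step 3 436 9 (.step 1 440 40 (.step 1 441 40 (.step 0 442 439 (.step 1 443 33 (.step 0 444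 446 (.step 0 445 446 (.step 1 447 40 (.step 5 449 9 (.step 5 450 9 (.step 1 451 57 (.step 0 437 452 (.step 0 438 452 (.step 7 453 9 (.step 4 454 0 (.step 0 448 456 (.step 1 457 1 (.step 1 458 41 (.step 1 459 32 (.step 6 459 0 (.step 1 460 32 (.step 0 371 461 (.step 0 455 462 (.step 0 464 463 (.step 1 465 19 (.step 12 466 14 (.step 0 467 460 (.step 0 469 468 (.contra 470))))))))))))))))))))))))))))))))))))))))))))))))))))))))))))))))))))))))))))))))))))))))))))))))))))))))))))))))))))))))))))))))))))))))))))))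

def c5ppm_43 : CertW :=
  (.step 0 201 261 (.step 0 202 261 (.step 0 203 261 (.step 0 204 261 (.step 0 205 261 (.step 0 227 261 (.step 0 241 261 (.step 0 242 261 (.step 0 245 261 (.step 0 261 83 (.step 1 261 17 (.step 1 261 21 (.step 1 261 23 (.step 0 262 56 (.step 1 262 17 (.step 1 263 21 (.step 0 264 56 (.step 1 264 19 (.step 0 265 56 (.step 1 266 19 (.step 0 267 134 (.step 1 268 23 (.step 1 269 25 (.step 0 270 73 (.step 0 270 83 (.step 1 270 23 (.step 1 271 21 (.step 1 272 32 (.step 1 273 0 (.step 1 273 36 (.step 1 274 24 (.step 1 275 17 (.step 1 276 32 (.step 8 277 1 (.step 1 279 48 (.step 1 281 34 (.step 1 282 21 (.step 1 283 24 (.step 1 284 0 (.step 1 287 38 (.step 1 287 52 (.step 1 288 36 (.step 0 289 147 (.step 0 290 219 (.step 0 219 291 (.step 0 259 292 (.step 1 293 32 (.step 0 294 147 (.step 0 218 303 (.step 2 305 2 (.step 2 306 2 (.step 2 310 2 (.step 0 209 311 (.step 0 233 311 (.step 0 237 311 (.step 0 240 311 (.step 1 312 23 (.step 1 313 23 (.step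 1 314 23 (.step 1 315 23 (.step 8 318 2 (.step 1 319 20 (.step 1 320 24 (.step 1 321 38 (.step 1 321 52 (.step 4 323 2 (.step 0 33 324 (.split [52] [56] c5ppm_41 c5ppm_42))))))))))))))))))))))))))))))))))))))))))))))))))))))))))))))))))))

def c5ppm_44 : CertW :=
  (.step 0 261 181 (.step 1 261 23 (.step 4 262 14 (.step 1 263 0 (.step 0 21 264 (.step 0 151 264 (.step 0 197 264 (.step 0 264 58 (.step 0 264 172 (.step 1 264 65 (.step 0 265 251 (.step 0 265 255 (.step 2 266 13 (.step 2 267 12 (.step 2 269 13 (.step 2 270 12 (.step 1 271 54 (.step 0 274 41 (.step 0 274 261 (.step 1 274 23 (.step 1 275 23 (.step 0 69 276 (.step 0 276 84 (.step 0 275 279 (.step 0 278 279 (.step 0 275 280 (.step 1 281 0 (.step 1 282 0 (.step 0 283 59 (.step 3 284 8 (.step 1 285 23 (.step 1 286 55 (.step 5 287 11 (.step 0 288 260 (.step 0 288 272 (.step 0 288 273 (.step 1 290 55 (.step 3 290 8 (.step 0 68 291 (.step 1 291 39 (.step 1 292 38 (.step 1 293 64 (.step 0 264 294 (.step 0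 267 294 (.step 0 268 294 (.step 0 289 295 (.step 0 289 296 (.step 0 289 297 (.step 0 299 28 (.step 1 301 40 (.step 0 300 304 (.step 0 304 171 (.step 1 305 39 (.step 4 305 7 (.step 3 310 3 (.step 5 311 8 (.step 1 312 39 (.step 4 313 7 (.step 8 314 7 (.step 1 315 23 (.step 1 316 23 (.step 0 277 317 (.step 1 318 0 (.step 1 320 23 (.step 6 321 7 (.step 9 322 3 (.step 0 319 323 (.step 1 325 0 (.step 0 306 326 (.step 0 302 327 (.step 0 327 324 (.step 5 328 3 (.step 0 329 307 (.step 0 329 308 (.step 0 329 309 (.step 0 330 331 (.step 1 333 1 (.step 0 332 334 (.step 0 332 335 (.step 0 332 336 (.step 1 337 1 (.step 1 338 38 (.step 4 339 7 (.step 0 342 298 (.step 0 343 303 (.step 1 344 53 (.step 6 347 7 (.step 0 348 340 (.step 0 348 341 (.step 1 349 37 (.step 1 350 37 (.step 0 351 345 (.step 1 352 38 (.step 9 353 12 (.step 0 354 346 (.step 0 356 355 (.contra 357)))))))))))))))))))))))))))))))))))))))))))))))))))))))))))))))))))))))))))))))))))))))))))))))))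

def c5ppm_45 : CertW :=
  (.step 0 96 201 (.step 0 125 201 (.step 0 138 201 (.step 0 174 201 (.step 1 201 21 (.step 1 201 51 (.step 2 201 6 (.step 1 206 22 (.step 6 206 6 (.step 1 207 64 (.step 6 207 6 (.step 1 208 35 (.step 1 208 37 (.step 0 162 209 (.step 0 103 210 (.step 0 107 210 (.step 0 141 210 (.step 0 148 210 (.step 0 188 210 (.step 0 196 210 (.step 1 210 37 (.step 0 212 167 (.step 1 213 64 (.step 8 213 6 (.step 1 214 52 (.step 8 214 6 (.step 1 216 37 (.step 1 217 37 (.step 0 218 194 (.step 1 220 37 (.step 2 221 2 (.step 1 222 22 (.step 0 125 225 (.step 0 138 225 (.step 0 174 225 (.step 1 228 22 (.step 1 229 22 (.step 2 230 2 (.step 1 231 22 (.step 0 209 232 (.step 0 215 232 (.step 0 232 183 (.step 1 232 23 (.step 0 233 232 (.step 0 239 3 (.step 1 239 23 (.step 1 241 23 (.step 0 233 243 (.step 0 238 243 (.step 8 244 2 (.step 1 246 23 (.step 8 247 2 (.step 1 248 24 (.step 0 251 198 (.step 1 252 36 (.step 0 98 253 (.step 0 253 143 (.step 0 33 254 (.step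 0 257 256 (.split [50] [56] c5ppm_43 c5ppm_44))))))))))))))))))))))))))))))))))))))))))))))))))))))))))))

def c5ppm_46 : CertW :=
  (.step 0 181 99 (.step 0 181 100 (.step 0 181 102 (.step 0 181 132 (.step 0 181 135 (.step 0 181 142 (.step 5 181 10 (.step 1 182 21 (.step 1 185 25 (.step 1 186 21 (.step 1 187 21 (.step 1 188 35 (.step 1 189 36 (.step 1 190 40 (.step 1 191 0 (.step 1 192 0 (.step 1 192 36 (.step 1 193 64 (.step 3 199 10 (.split [50] [20] c5ppm_2 c5ppm_45))))))))))))))))))))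

def c5ppm_47 : CertW :=
  (.step 0 150 10 (.step 0 150 19 (.step 0 150 106 (.step 0 150 140 (.step 1 150 1 (.step 1 150 37 (.step 1 150 39 (.step 3 150 3 (.step 1 151 39 (.step 1 152 33 (.step 1 154 35 (.step 7 155 3 (.step 1 156 50 (.step 1 156 52 (.step 0 39 157 (.step 0 116 157 (.step 1 157 36 (.step 1 157 64 (.step 7 157 3 (.step 1 158 23 (.step 1 159 36 (.step 1 159 64 (.step 1 160 16 (.step 1 161 18 (.step 0 33 169 (.step 0 169 47 (.step 0 169 126 (.step 1 170 52 (.step 9 170 3 (.step 0 175 126 (.split [48] [50] c5ppm_1 c5ppm_46)))))))))))))))))))))))))))))))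

def c5ppm_48 : CertW :=
  (.step 0 7 150 (.step 0 29 150 (.step 0 87 150 (.step 0 111 150 (.step 1 151 41 (.step 1 152 41 (.step 1 153 41 (.step 1 154 41 (.step 8 155 8 (.step 1 156 24 (.step 1 157 24 (.step 1 158 24 (.step 0 160 159 (.step 0 161 159 (.step 0 162 159 (.step 5 164 13 (.step 0 166 107 (.step 0 166 151 (.step 3 167 10 (.step 3 168 12 (.step 0 169 165 (.step 0 163 170 (.step 0 171 170 (.step 2 172 7 (.step 4 173 11 (.step 0 168 174 (.step 0 176 175 (.contra 177))))))))))))))))))))))))))))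

def c5ppm_49 : CertW :=
  (.step 0 99 3 (.step 0 99 55 (.step 0 99 72 (.step 3 99 5 (.step 1 101 25 (.step 1 102 25 (.step 0 10 103 (.step 0 21 103 (.step 0 103 42 (.step 1 103 35 (.step 1 103 41 (.step 1 104 40 (.step 1 106 1 (.step 1 106 35 (.step 1 106 39 (.step 2 106 1 (.step 1 107 35 (.step 1 108 35 (.step 0 109 40 (.step 9 109 5 (.step 0 105 110 (.step 1 110 24 (.step 6 112 1 (.step 0 113 18 (.step 1 113 64 (.step 6 113 1 (.step 1 114 22 (.step 1 115 19 (.step 1 115 21 (.step 1 116 64 (.step 6 117 1 (.step 1 118 64 (.step 1 120 24 (.step 0 84 121 (.step 0 83 122 (.step 0 99 122 (.step 1 122 21 (.step 1 123 64 (.step 0 35 125 (.step 1 125 19 (.step 8 127 1 (.step 8 128 1 (.step 0 119 130 (.step 1 136 36 (.step 1 138 19 (.step 1 139 32 (.step 1 139 48 (.step 0 88 140 (.step 0 97 141 (.step 1 144 48 (.split [38] [0] c5ppm_47 c5ppm_48)))))))))))))))))))))))))))))))))))))))))))))))))))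

def c5ppm : CertW :=
  (.step 1 1 25 (.step 1 2 17 (.step 1 2 25 (.step 5 2 4 (.step 1 3 17 (.step 1 3 25 (.step 4 3 0 (.step 1 4 40 (.step 9 5 4 (.step 1 6 16 (.step 9 6 4 (.step 1 7 1 (.step 1 7 33 (.step 1 7 35 (.step 1 7 41 (.step 8 8 0 (.step 1 9 40 (.step 0 7 10 (.step 1 10 1 (.step 1 10 33 (.step 1 10 35 (.step 1 10 39 (.step 1 10 41 (.step 1 12 1 (.step 5 13 4 (.step 0 11 14 (.step 0 14 10 (.step 1 14 41 (.step 1 15 38 (.step 7 15 4 (.step 1 16 16 (.step 1 17 18 (.step 1 18 54 (.step 7 18 4 (.step 0 20 14 (.step 1 21 33 (.step 1 21 41 (.step 5 21 9 (.step 1 22 34 (.step 0 23 18 (.step 1 23 16 (.step 6 23 0 (.step 1 24 18 (.step 1 25 22 (.step 1 26 24 (.step 1 26 56 (.step 1 27 32 (.step 1 30 41 (.step 0 9 31 (.step 1 31 38 (.step 1 31 54 (.step 0 3 37 (.step 9 39 9 (.step 1 40 38 (.step 1 40 64 (.step 9 40 9 (.step 0 41 37 (.step 1 41 17 (.step 1 41 57 (.step 1 43 64 (.step 9 43 9 (.step 0 44 37 (.step 0 34 45 (.step 0 37 48 (.step 1 51 38 (.step 1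 51 54 (.step 1 52 38 (.step 1 52 54 (.step 0 55 48 (.step 0 56 34 (.step 1 56 17 (.step 0 49 59 (.step 0 59 37 (.step 0 60 48 (.step 1 60 25 (.step 7 61 9 (.step 7 62 9 (.step 0 64 45 (.step 0 64 65 (.step 0 56 66 (.step 0 59 67 (.step 1 73 17 (.step 1 74 18 (.step 1 78 40 (.step 0 79 7 (.step 0 79 12 (.step 1 81 57 (.step 1 83 19 (.step 1 83 21 (.step 1 83 23 (.step 1 85 0 (.step 1 90 40 (.step 1 91 20 (.step 1 92 0 (.step 1 93 0 (.split [18] [48] c5ppm_0 c5ppm_49))))))))))))))))))))))))))))))))))))))))))))))))))))))))))))))))))))))))))))))))))))))))))))))))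

theorem certs_5ppm : Certs 5 [true, true, false] := ⟨c5ppm, by decide +kernel⟩

def c5pmp_0 : CertW :=
  (.step 0 4 12 (.step 2 13 13 (.step 0 8 14 (.step 0 9 14 (.step 0 10 14 (.step 0 11 14 (.step 2 17 8 (.step 0 19 6 (.step 0 19 13 (.step 2 21 12 (.step 0 15 22 (.step 0 16 22 (.step 0 18 22 (.step 2 24 7 (.step 0 26 20 (.step 0 26 21 (.step 2 28 11 (.step 0 23 29 (.step 0 25 29 (.step 2 30 6 (.step 0 32 27 (.step 0 32 28 (.step 5 33 5 (.step 2 34 10 (.step 0 35 31 (.step 0 37 36 (.contra 38)))))))))))))))))))))))))))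

def c5pmp_1 : CertW :=
  (.step 0 12 5 (.step 3 13 14 (.step 0 8 14 (.step 0 9 14 (.step 0 10 14 (.step 0 11 14 (.step 2 18 5 (.step 0 6 19 (.step 0 13 19 (.step 3 21 10 (.step 0 15 22 (.step 0 16 22 (.step 0 17 22 (.step 2 23 6 (.step 0 20 26 (.step 0 21 26 (.step 3 28 11 (.step 0 24 29 (.step 0 25 29 (.step 2 30 7 (.step 0 27 32 (.step 0 28 32 (.step 5 33 8 (.step 3 34 12 (.step 0 35 31 (.step 0 37 36 (.contra 38)))))))))))))))))))))))))))

def c5pmp : CertW :=
  (.step 5 2 4 (.step 4 3 0 (.step 0 4 5 (.step 4 6 9 (.step 0 0 7 (.step 0 1 7 (.step 0 2 7 (.step 0 3 7 (.split [0] [64] c5pmp_0 c5pmp_1)))))))))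

theorem certs_5pmp : Certs 5 [true, false, true] := ⟨c5pmp, by decide +kernel⟩

end Pool.Agent.H46.CC
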