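import Pool.Agent.H46.CC.Good
import Pool.Agent.H46.CC.C4a
import Pool.Agent.H46.CC.C4b
import Pool.Agent.H46.CC.C5a

set_option autoImplicit false

/-!
# Chains with at most four letters
-/

namespace Pool.Agent.H46.CC

open Pool.Agent.Y479.LS Pool.Agent.K7.H39.TB Pool.Agent.K7.H46.LO Pool.Agent.K7.H46.TW Aut

theorem good_of_cover {n : ℕ} {B : List (List Bool)} (hB : ∀ l ∈ B, GoodL n l) (l : List Bool)
    (h : l ∈ B ∨ l.map not ∈ B ∨ l.reverse ∈ B ∨ (l.map not).reverse ∈ B) : GoodL n l := by
  have e : ∀ l : List Bool, (l.map not).map not = l := fun l => by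
    rw [List.map_map]
    conv_rhs => rw [← List.map_id l]
    congr 1
    funext b
    simp
  rcases h with h | h | h | h
  · exact hB _ h
  · have := (hB _ h).flip
    rwa [e] at this
  · have := (hB _ h).reverse
    rwa [List.reverse_reverse] at this
  · have := (hB _ h).reverse.flip
    rwa [List.reverse_reverse, e] at this

theorem GoodL.of_certs {n : ℕ} [NeZero n] (h2 : 2 ≤ n) (h8 : n ≤ 8) {l : List Bool}
    (hC : Certs n l) : GoodL n l := Good.of_certs h2 h8 hC

theorem goodL_nil (n : ℕ) : GoodL n [] := by
  intro X _ F _ h0 h1 p i hi t
  rcases Nat.lt_or_ge i 1 with h | h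
  · obtain rfl : i = 0 := by omega
    rw [h0 t]
  · obtain rfl : i = 1 := le_antisymm hi h
    have := h1 t
    simp only [List.length_nil, Nat.zero_add] at this
    rw [this]

theorem noThree_of {l : List Bool} (h : ∀ i, i + 2 < l.length →
    ¬ (l.getD i true = l.getD (i + 1) true ∧ l.getD i true = l.getD (i + 2) true)) :
    noThree l = true := by
  induction l with
  | nil => rfl
  | cons a l ih =>
    match l with
    | [] => rfl
    | [b] => rfl
    | b :: c :: l =>
      have h0 := h 0 (by simp)
      have h1 := ih (fun i hi => by
        have := h (i + 1) (by simp only [List.length_cons] at hi ⊢; omega)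
        simpa using this)
      simp only [noThree, Bool.and_eq_true]
      refine ⟨?_, h1⟩
      simp only [List.getD_cons_zero, Nat.zero_add, List.getD_cons_succ] at h0
      revert h0
      cases a <;> cases b <;> cases c <;> simp

/-- the lists of signs with certificates, for four tangles in each column -/
def base4 : List (List Bool) :=
  [[], [true], [true, true], [true, false], [true, true, false], [true, false, false],
    [true, false, true], [true, true, false, false], [true, true, false, true],
    [true, false, true, true], [true, false, true, false], [true, false, false, true]]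

theorem base4_good : ∀ l ∈ base4, GoodL 4 l := by
  have : NeZero 4 := ⟨by norm_num⟩
  intro l hl
  simp only [base4, List.mem_cons, List.not_mem_nil, or_false] at hl
  rcases hl with rfl | rfl | rfl | rfl | rfl | rfl | rfl | rfl | rfl | rfl | rfl | rfl
  · exact goodL_nil 4
  · exact .of_certs (by norm_num) (by norm_num) certs_4p
  · exact .of_certs (by norm_num) (by norm_num) certs_4pp
  · exact .of_certs (by norm_num) (by norm_num) certs_4pm
  · exact .of_certs (by norm_num) (by norm_num) certs_4ppm
  · exact .of_certs (by norm_num) (by norm_num) certs_4pmm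
  · exact .of_certs (by norm_num) (by norm_num) certs_4pmp
  · exact .of_certs (by norm_num) (by norm_num) certs_4ppmm
  · exact .of_certs (by norm_num) (by norm_num) certs_4ppmp
  · exact .of_certs (by norm_num) (by norm_num) certs_4pmpp
  · exact .of_certs (by norm_num) (by norm_num) certs_4pmpm
  · exact .of_certs (by norm_num) (by norm_num) certs_4pmmp

theorem good4 (l : List Bool) (hl : l.length ≤ 4) (h : noThree l = true) : GoodL 4 l := by
  refine good_of_cover base4_good l ?_
  match l, hl, h with
  | [], _, _ => decide
  | [a], _, _ => revert a; decide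
  | [a, b], _, _ => revert a b; decide
  | [a, b, c], _, h => revert a b c; decide
  | [a, b, c, d], _, h => revert a b c d; decide
  | a :: b :: c :: d :: e :: l, hl, _ => simp only [List.length_cons] at hl; omega

/-- the lists of signs with certificates, for five tangles in each column -/
def base5 : List (List Bool) :=
  [[], [true], [true, true], [true, false], [true, true, false], [true, false, true]]

theorem base5_good : ∀ l ∈ base5, GoodL 5 l := by
  have : NeZero 5 := ⟨by norm_num⟩
  intro l hl
  simp only [base5, List.mem_cons, List.not_mem_nil, or_false] at hl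
  rcases hl with rfl | rfl | rfl | rfl | rfl | rfl
  · exact goodL_nil 5
  · exact .of_certs (by norm_num) (by norm_num) certs_5p
  · exact .of_certs (by norm_num) (by norm_num) certs_5pp
  · exact .of_certs (by norm_num) (by norm_num) certs_5pm
  · exact .of_certs (by norm_num) (by norm_num) certs_5ppm
  · exact .of_certs (by norm_num) (by norm_num) certs_5pmp

theorem good5 (l : List Bool) (hl : l.length ≤ 3) (h : noThree l = true) : GoodL 5 l := by
  refine good_of_cover base5_good l ?_
  match l, hl, h with
  | [], _, _ => decide
  | [a], _, _ => revert a; decide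
  | [a, b], _, _ => revert a b; decide
  | [a, b, c], _, h => revert a b c; decide
  | a :: b :: c :: d :: l, hl, _ => simp only [List.length_cons] at hl; omega

/-- From lists to functions. -/
theorem good_ofFn {n k : ℕ} {ε : Fin k → Bool} (h : GoodL n (List.ofFn ε)) :
    Good n k (Cyc.sg ε) := by
  unfold GoodL at h
  rw [List.length_ofFn] at h
  refine h.congr fun i hi => ?_
  rw [show i = (⟨i, hi⟩ : Fin k).1 from rfl, Cyc.sg_eq]
  simp [List.getD_eq_getElem?_getD, hi]

theorem noThree_ofFn {k : ℕ} {ε : Fin k → Bool} (h : NoThree ε) :
    noThree (List.ofFn ε) = true := by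
  refine noThree_of fun i hi => ?_
  rw [List.length_ofFn] at hi
  have h1 := h ⟨i, by omega⟩ hi
  have e0 : (List.ofFn ε).getD i true = ε ⟨i, by omega⟩ := by
    simp [List.getD_eq_getElem?_getD, show i < k by omega]
  have e1 : (List.ofFn ε).getD (i + 1) true = ε ⟨i + 1, by omega⟩ := by
    simp [List.getD_eq_getElem?_getD, show i + 1 < k by omega]
  have e2 : (List.ofFn ε).getD (i + 2) true = ε ⟨i + 2, hi⟩ := by
    simp [List.getD_eq_getElem?_getD, hi]
  rw [e0, e1, e2]
  exact h1

end Pool.Agent.H46.CC
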