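import Pool.Graph.R_pool_sql_team_seeded_35f281b4.K7.H46.TW.Chain

set_option autoImplicit false

/-!
# Closed chains with `n` tangles in each column: certificates

`bxs n l` is the region system of the closed chain with the signs `l`. A certificate for it shows that
the regions of the column `1` agree; then all columns are constant.
-/

namespace Pool.Agent.H46.CC

open Pool.Agent.Y479.LS Pool.Agent.K7.H39.TB Pool.Agent.K7.H46.LO Pool.Agent.K7.H46.TW Aut

variable {X : Type*} [LinearOrder X] {n : ℕ}

/-- the rules of a chain of `k` columns of `n` tangles -/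
def Chn (R : ℕ → ZMod n → Aut X) (ε : ℕ → Bool) (k : ℕ) : Prop :=
  ∀ c, c < k → ∀ t, Tri' (ε c) (R c (t + 1)) (R (c + 2) t) (R (c + 1) t) (R (c + 1) (t + 1))

/-- the code of the region of the column `i` at the time `t` -/
def cd (n i t : ℕ) : ℕ := 8 * i + t % n

/-- the region with a code -/
def gF (F : ℕ → ZMod n → Aut X) (m : ℕ) : Aut X := F (m / 8) ((m % 8 : ℕ) : ZMod n)

theorem gF_cd (h0 : 0 < n) (h8 : n ≤ 8) (F : ℕ → ZMod n → Aut X) (i t : ℕ) :
    gF F (cd n i t) = F i (t : ZMod n) := by
  have h := Nat.mod_lt t h0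
  unfold gF cd
  have e1 : (8 * i + t % n) / 8 = i := by omega
  have e2 : (8 * i + t % n) % 8 = t % n := by omega
  rw [e1, e2, ZMod.natCast_mod]

/-- The tangle `t` of the column `i`, with the sign `b`. -/
def bx (n k : ℕ) (b : Bool) (i t : ℕ) : Box :=
  match b with
  | true => ⟨if Nat.beq i 0 then 0 else cd n i (t + 1),
      if Nat.beq (i + 1) k then 8 * (k + 1) else cd n (i + 2) t, cd n (i + 1) t, cd n (i + 1) (t + 1)⟩
  | false => ⟨if Nat.beq i 0 then 0 else cd n i (t + 1),
      if Nat.beq (i + 1) k then 8 * (k + 1) else cd n (i + 2) t, cd n (i + 1) (t + 1), cd n (i + 1) t⟩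

/-- All tangles of the closed chain with the signs `l`. -/
def bxs (n : ℕ) (l : List Bool) : List Box :=
  (List.range l.length).flatMap fun i => (List.range n).map fun t => bx n l.length (l.getD i true) i t

theorem sys_of (h0 : 0 < n) (h8 : n ≤ 8) {F : ℕ → ZMod n → Aut X} {l : List Bool}
    (hB : Chn F (fun i => l.getD i true) l.length) (hL : ∀ t, F 0 t = F 0 0)
    (hR : ∀ t, F (l.length + 1) t = F (l.length + 1) 0) : Sys (gF F) (bxs n l) := by
  have key : ∀ b ∈ bxs n l, Tri (gF F b.W) (gF F b.E) (gF F b.S) (gF F b.N) := by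
    intro b hb
    simp only [bxs, List.mem_flatMap, List.mem_map, List.mem_range] at hb
    obtain ⟨i, hi, t, ht, rfl⟩ := hb
    have h := hB i hi (t : ZMod n)
    have hW : gF F (if Nat.beq i 0 then 0 else cd n i (t + 1)) = F i ((t : ZMod n) + 1) := by
      split_ifs with h1
      · obtain rfl := Nat.eq_of_beq_eq_true h1
        rw [hL]; simp [gF]
      · rw [gF_cd h0 h8]; push_cast; rfl
    have hE : gF F (if Nat.beq (i + 1) l.length then 8 * (l.length + 1) else cd n (i + 2) t) =
        F (i + 2) (t : ZMod n) := by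
      split_ifs with h1
      · have h2 := Nat.eq_of_beq_eq_true h1
        rw [← h2] at hR ⊢
        rw [hR]
        unfold gF
        have e1 : 8 * (i + 1 + 1) / 8 = i + 1 + 1 := by omega
        have e2 : 8 * (i + 1 + 1) % 8 = 0 := by omega
        rw [e1, e2, Nat.cast_zero]
      · rw [gF_cd h0 h8]
    have hS : gF F (cd n (i + 1) t) = F (i + 1) (t : ZMod n) := gF_cd h0 h8 _ _ _
    have hN : gF F (cd n (i + 1) (t + 1)) = F (i + 1) ((t : ZMod n) + 1) := by
      rw [gF_cd h0 h8]; push_cast; rfl
    cases hb : l.getD i true with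
    | true =>
      simp only [hb, Tri', if_true] at h
      simp only [bx]
      rw [hW, hE, hS, hN]
      exact h
    | false =>
      simp only [hb, Tri', Bool.false_eq_true, if_false] at h
      simp only [bx]
      rw [hW, hE, hS, hN]
      exact h
  exact ⟨fun b hb => (key b hb).1, fun b hb => (key b hb).2.1, fun b hb => (key b hb).2.2⟩

/-- The first column is not constant: `0` is a maximum, and `1` is smaller. -/
def env0 (n : ℕ) : List Fact :=
  ((List.range (n - 2)).map fun s => ⟨[2 * cd n 1 (s + 2)], [2 * cd n 1 0], false⟩) ++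
    [⟨[2 * cd n 1 1], [2 * cd n 1 0], true⟩]

/-- There is a certificate for the chain with the signs `l`. -/
def Certs (n : ℕ) (l : List Bool) : Prop :=
  ∃ c : CertW, checkW (bxs n l) [] c (envOf (env0 n) .lf 0) (n - 1) = true

/-- In a cyclic sequence which is not constant there is a maximum with a smaller successor. -/
theorem exists_max_lt [NeZero n] (f : ZMod n → X) (h : ∃ t, f t ≠ f 0) :
    ∃ t, (∀ u, f u ≤ f t) ∧ f (t + 1) < f t := by
  obtain ⟨t₀, ht₀⟩ := Finite.exists_max f
  by_contra hcon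
  push Not at hcon
  have h1 : ∀ j : ℕ, f (t₀ + j) = f t₀ := by
    intro j
    induction j with
    | zero => simp
    | succ j ih =>
      have h2 := hcon (t₀ + j) (fun u => by rw [ih]; exact ht₀ u)
      rw [ih, add_assoc] at h2
      push_cast
      exact le_antisymm (ht₀ _) h2
  have h2 : ∀ u, f u = f t₀ := by
    intro u
    have := h1 (u - t₀).val
    rwa [ZMod.natCast_zmod_val, add_sub_cancel] at this
  obtain ⟨t, ht⟩ := h
  exact ht (by rw [h2 t, h2 0])

/-- The column `1` is constant. -/
theorem col_one [NeZero n] (h1 : 2 ≤ n) (h8 : n ≤ 8) {F : ℕ → ZMod n → Aut X} {l : List Bool}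
    (hC : Certs n l) (hB : Chn F (fun i => l.getD i true) l.length) (hL : ∀ t, F 0 t = F 0 0)
    (hR : ∀ t, F (l.length + 1) t = F (l.length + 1) 0) (p : X) (t : ZMod n) :
    F 1 t p = F 1 0 p := by
  by_contra hne
  obtain ⟨u, hu1, hu2⟩ := exists_max_lt (fun t => F 1 t p) ⟨t, hne⟩
  obtain ⟨c, hc⟩ := hC
  have hB' : Chn (fun i v => F i (v + u)) (fun i => l.getD i true) l.length := by
    intro i hi v
    have := hB i hi (v + u)
    rw [show v + u + 1 = v + 1 + u by ring] at this
    exact this
  have hL' : ∀ v, (fun i (v : ZMod n) => F i (v + u)) 0 v = (fun i v => F i (v + u)) 0 0 := by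
    intro v; simp only; rw [hL (v + u), hL (0 + u)]
  have hR' : ∀ v, (fun i (v : ZMod n) => F i (v + u)) (l.length + 1) v =
      (fun i v => F i (v + u)) (l.length + 1) 0 := by
    intro v; simp only; rw [hR (v + u), hR (0 + u)]
  have hS := sys_of (by omega) h8 hB' hL' hR'
  refine checkW_sound (s := p) hS (fun c hc => by simp at hc) c _ (n - 1)
    (envOf_all (t := .lf) ?_ trivial) hc
  intro f hf
  simp only [env0, List.mem_append, List.mem_map, List.mem_range, List.mem_singleton] at hf
  rcases hf with ⟨s, -, rfl⟩ | rfl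
  · simp only [Fact.Holds, ev, act_even, gF_cd (show 0 < n by omega) h8]
    rw [Nat.cast_zero, zero_add]
    exact hu1 _
  · simp only [Fact.Holds, ev, act_even, gF_cd (show 0 < n by omega) h8]
    rw [Nat.cast_zero, zero_add, Nat.cast_one, add_comm 1 u]
    exact hu2

/-- Time reversal changes the signs. -/
theorem Chn.flip {F : ℕ → ZMod n → Aut X} {ε : ℕ → Bool} {k : ℕ} (h : Chn F ε k) :
    Chn (fun (i : ℕ) (t : ZMod n) => F i (-t - (i : ZMod n))) (fun i => !(ε i)) k := by
  intro c hc t
  have h1 := h c hc (-t - (c : ZMod n) - 2)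
  have e1 : -(t + 1) - (c : ZMod n) = -t - (c : ZMod n) - 2 + 1 := by ring
  have e2 : -t - ((c + 2 : ℕ) : ZMod n) = -t - (c : ZMod n) - 2 := by push_cast; ring
  have e3 : -t - ((c + 1 : ℕ) : ZMod n) = -t - (c : ZMod n) - 2 + 1 := by push_cast; ring
  have e4 : -(t + 1) - ((c + 1 : ℕ) : ZMod n) = -t - (c : ZMod n) - 2 := by push_cast; ring
  simp only [e1, e2, e3, e4]
  cases hb : ε c <;> simp only [hb, Tri', Bool.not_true, Bool.not_false, Bool.false_eq_true,
    if_false, if_true] at h1 ⊢ <;> exact h1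

/-- All regions of a column agree everywhere, and so do the columns of the same parity. -/
theorem flat_of_col_one {F : ℕ → ZMod n → Aut X} {ε : ℕ → Bool} {k : ℕ} (h : Chn F ε k)
    (hL : ∀ t, F 0 t = F 0 0) (h1 : ∀ (p : X) t, F 1 t p = F 1 0 p) (p : X) :
    (∀ i, i ≤ k + 1 → ∀ t, F i t p = F i 0 p) ∧ ∀ c, c < k → F c 0 p = F (c + 2) 0 p := by
  have key : ∀ c, c < k → (∀ t, F c t p = F c 0 p) → (∀ t, F (c + 1) t p = F (c + 1) 0 p) →
      ∀ t, F (c + 2) t p = F c 0 p := by
    intro c hc h2 h3 t
    have h4 := h c hc t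
    rw [← h2 (t + 1)]
    unfold Tri' at h4
    split_ifs at h4
    · exact ((h4.iff_eq p).mpr ((h3 t).trans (h3 (t + 1)).symm)).symm
    · exact ((h4.iff_eq p).mpr ((h3 (t + 1)).trans (h3 t).symm)).symm
  have h5 : ∀ i, i ≤ k → (∀ t, F i t p = F i 0 p) ∧ ∀ t, F (i + 1) t p = F (i + 1) 0 p := by
    intro i
    induction i with
    | zero => exact fun _ => ⟨fun t => by rw [hL t], h1 p⟩
    | succ i ih =>
      intro hi
      obtain ⟨h6, h7⟩ := ih (by omega)
      have h8 := key i (by omega) h6 h7
      exact ⟨h7, fun t => (h8 t).trans (h8 0).symm⟩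
  refine ⟨fun i hi => ?_, fun c hc => ?_⟩
  · rcases Nat.lt_or_ge i (k + 1) with h6 | h6
    · exact (h5 i (by omega)).1
    · obtain rfl : i = k + 1 := by omega
      exact (h5 k le_rfl).2
  · exact (key c hc (h5 c (by omega)).1 (h5 c (by omega)).2 0).symm

/-- All regions of a column agree, if there is a certificate for the signs or the opposite signs. -/
theorem all_flat [NeZero n] (h2 : 2 ≤ n) (h8 : n ≤ 8) {F : ℕ → ZMod n → Aut X} {ε : ℕ → Bool}
    {l : List Bool} (b : Bool) (hε : ∀ i, i < l.length → l.getD i true = (ε i ^^ b))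
    (hC : Certs n l) (h : Chn F ε l.length) (hL : ∀ t, F 0 t = F 0 0)
    (hR : ∀ t, F (l.length + 1) t = F (l.length + 1) 0) (p : X) :
    (∀ i, i ≤ l.length + 1 → ∀ t, F i t p = F i 0 p) ∧
      ∀ c, c < l.length → F c 0 p = F (c + 2) 0 p := by
  refine flat_of_col_one h hL ?_ p
  intro q t
  cases b with
  | false =>
    refine col_one h2 h8 hC ?_ hL hR q t
    intro c hc u
    simp only [hε c hc, Bool.xor_false]
    exact h c hc u
  | true =>
    have h3 : ∀ t, F 1 (-t - 1) q = F 1 (-0 - 1) q := by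
      intro t
      have h4 := col_one (F := fun (i : ℕ) (t : ZMod n) => F i (-t - (i : ZMod n))) h2 h8 hC (by
        intro c hc u
        have h5 := h.flip c hc u
        simp only [hε c hc, Bool.xor_true]
        exact h5) (fun t => by rw [hL (-t - _), hL (-0 - _)])
        (fun t => by rw [hR (-t - _), hR (-0 - _)]) q t
      simpa using h4
    have h4 := h3 (-t - 1)
    have h5 := h3 (-0 - 1)
    rw [show -(-t - 1) - 1 = t by ring] at h4
    rw [show -(-0 - 1) - 1 = (0 : ZMod n) by ring] at h5
    rw [h4, h5]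

end Pool.Agent.H46.CC
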