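import Pool.Agent.H46.CC.Main
import Pool.Graph.R_pool_sql_team_seeded_35f281b4.K7.H46.TS.Flat

set_option autoImplicit false

/-!
# Symmetries of closed chains with `n` tangles in each column
-/

namespace Pool.Agent.H46.CC

open Pool.Agent.Y479.LS Pool.Agent.K7.H39.TB Pool.Agent.K7.H46.LO Pool.Agent.K7.H46.TW
  Pool.Agent.K7.H46.TS Aut

/-- All regions of a column agree, in all actions. -/
def Good (n k : ℕ) (ε : ℕ → Bool) : Prop :=
  ∀ (X : Type) [LinearOrder X] (F : ℕ → ZMod n → Aut X), Chn F ε k → (∀ t, F 0 t = F 0 0) →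
    (∀ t, F (k + 1) t = F (k + 1) 0) → ∀ (p : X) i, i ≤ k + 1 → ∀ t, F i t p = F i 0 p

theorem Good.of_certs {n : ℕ} [NeZero n] (h2 : 2 ≤ n) (h8 : n ≤ 8) {l : List Bool}
    (hC : Certs n l) : Good n l.length (fun i => l.getD i true) := by
  intro X _ F hF h0 h1 p
  exact (flat_of_col_one hF h0 (fun q t => col_one h2 h8 hC hF h0 h1 q t) p).1

theorem Good.congr {n k : ℕ} {ε ε' : ℕ → Bool} (h : Good n k ε) (he : ∀ i, i < k → ε i = ε' i) :
    Good n k ε' := by
  intro X _ F hF
  refine h X F (fun c hc t => ?_)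
  rw [he c hc]
  exact hF c hc t

theorem Good.flip {n k : ℕ} {ε : ℕ → Bool} (h : Good n k ε) : Good n k (fun i => !(ε i)) := by
  intro X _ F hF h0 h1 p i hi t
  have h2 := hF.flip
  simp only [Bool.not_not] at h2
  have h3 := h X _ h2 (fun t => by rw [h0 (-t - _), h0 (-0 - _)])
    (fun t => by rw [h1 (-t - _), h1 (-0 - _)]) p i hi
  have h4 := h3 (-t - (i : ZMod n))
  have h5 := h3 (-0 - (i : ZMod n))
  rw [show -(-t - (i : ZMod n)) - (i : ZMod n) = t by ring] at h4
  rw [show -(-0 - (i : ZMod n)) - (i : ZMod n) = (0 : ZMod n) by ring] at h5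
  rw [h4, h5]

/-- Rotation by `π`. -/
theorem Chn.mirror {X : Type*} [LinearOrder X] {n : ℕ} {R : ℕ → ZMod n → Aut X} {ε : ℕ → Bool}
    {k : ℕ} (h : Chn R ε k) :
    Chn (fun (i : ℕ) (t : ZMod n) => R (k + 1 - i) (-t)) (fun i => ε (k - 1 - i)) k := by
  intro c hc t
  have h1 := h (k - 1 - c) (by omega) (-t - 1)
  simp only
  have e0 : k + 1 - c = k - 1 - c + 2 := by omega
  have e1 : k + 1 - (c + 2) = k - 1 - c := by omega
  have e2 : k + 1 - (c + 1) = k - 1 - c + 1 := by omega
  have e3 : -(t + 1) = -t - 1 := by ring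
  have e4 : -t - 1 + 1 = -t := by ring
  rw [e0, e1, e2, e3]
  rw [e4] at h1
  unfold Tri' at h1 ⊢
  split_ifs at h1 ⊢
  · exact tri_mirror h1
  · exact tri_mirror h1

theorem Good.mirror {n k : ℕ} {ε : ℕ → Bool} (h : Good n k ε) :
    Good n k (fun i => ε (k - 1 - i)) := by
  intro X _ F hF h0 h1 p i hi t
  have h2 : Chn (fun (i : ℕ) (t : ZMod n) => F (k + 1 - i) (-t)) ε k := by
    intro c hc t
    have h3 := hF.mirror c hc t
    simp only [show k - 1 - (k - 1 - c) = c by omega] at h3
    exact h3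
  have h3 := h X _ h2 (fun t => by simp only [Nat.sub_zero]; rw [h1 (-t), h1 (-0)])
    (fun t => by simp only [Nat.sub_self]; rw [h0 (-t), h0 (-0)]) p (k + 1 - i) (by omega) (-t)
  simp only [show k + 1 - (k + 1 - i) = i by omega, neg_neg, neg_zero] at h3
  exact h3

/-- The columns of the same parity agree, if all columns are constant. -/
theorem parity {X : Type*} [LinearOrder X] {n : ℕ} {F : ℕ → ZMod n → Aut X} {ε : ℕ → Bool} {k : ℕ}
    (h : Chn F ε k) {p : X} (hc : ∀ i, i ≤ k + 1 → ∀ t, F i t p = F i 0 p) :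
    ∀ c, c < k → F c 0 p = F (c + 2) 0 p := by
  intro c hck
  have h4 := h c hck 0
  rw [← hc c (by omega) (0 + 1)]
  unfold Tri' at h4
  split_ifs at h4
  · exact (h4.iff_eq p).mpr ((hc (c + 1) (by omega) 0).trans (hc (c + 1) (by omega) (0 + 1)).symm)
  · exact (h4.iff_eq p).mpr ((hc (c + 1) (by omega) (0 + 1)).trans (hc (c + 1) (by omega) 0).symm)

/-- The group of a chain with good signs. -/
theorem noLO_of_good {n k : ℕ} {ε : Fin k → Bool} (hC : Good n k (Cyc.sg ε))
    (T : Fin k → ZMod n → Tang) (hb : ∀ c t, (T c t).Bounded)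
    (hp : ∀ c t, (T c t).Proper) : NoLO (CycChain ε T) := by
  intro H _ hH f γ
  refine hom_trivial (1 : CycChain ε T) ?_ ?_ H hH f γ
  · intro X _ φ x _ γ
    refine Cyc.trivial_of_flat φ (fun hk hc e0 eL p => ?_) (fun c t => (T c t).ok)
      (fun c t => (T c t).bounded (hb c t)) (fun c t => (T c t).proper (hp c t)) x γ
    have h1 := hC X _ hc e0 eL p
    exact ⟨h1, parity hc h1⟩
  · intro X _ _ φ h
    obtain ⟨x⟩ := ‹Nonempty X›
    have := h x
    rw [map_one, one_apply] at this
    exact lt_irrefl _ this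

/-- The list of signs is good. -/
def GoodL (n : ℕ) (l : List Bool) : Prop := Good n l.length (fun i => l.getD i true)

theorem GoodL.flip {n : ℕ} {l : List Bool} (h : GoodL n l) : GoodL n (l.map not) := by
  unfold GoodL at *
  rw [List.length_map]
  refine (Good.flip h).congr fun i hi => ?_
  simp [List.getD_eq_getElem?_getD, hi]

theorem GoodL.reverse {n : ℕ} {l : List Bool} (h : GoodL n l) : GoodL n l.reverse := by
  unfold GoodL at *
  rw [List.length_reverse]
  refine (Good.mirror h).congr fun i hi => ?_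
  simp [List.getD_eq_getElem?_getD, List.getElem_reverse, hi, show l.length - 1 - i < l.length by omega]

/-- no three consecutive equal signs -/
def noThree : List Bool → Bool
  | a :: b :: c :: l => !(a == b && b == c) && noThree (b :: c :: l)
  | _ => true

end Pool.Agent.H46.CC
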