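import Pool.Agent.H46.CC.Pub
import Pool.Agent.H46.CC.Flat
import Pool.Graph.R_pool_sql_team_seeded_35f281b4.K7.H46.TW.Main

set_option autoImplicit false

/-!
# The group of a closed chain with `n` tangles in each column
-/

namespace Pool.Agent.H46.CC

open Pool.Agent.Y479.LS Pool.Agent.K7.H39.TB Pool.Agent.K7.H46.LO Pool.Agent.K7.H46.TW Aut

namespace Cyc

variable {n k : ℕ} {ε : Fin k → Bool} {M : Fin k → ZMod n → Piece}

def R (i : Fin (k + 2)) (t : ZMod n) : Grp ε M := PresentedGroup.mk _ (gR M i t)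

theorem mk_one {r : FreeGroup (Gen M)} (h : r ∈ relators ε M) :
    (PresentedGroup.mk (relators ε M) r : Grp ε M) = 1 := PresentedGroup.one_of_mem h

/-- the homomorphism from a piece -/
def inc (c : Fin k) (t : ZMod n) : (M c t).P →* Grp ε M :=
  MonoidHom.mk' (fun x => PresentedGroup.mk _ (gP M c t x)) (by
    intro x y
    have h1 := mk_one (ε := ε) (M := M) (Or.inl ⟨c, t, x, y, rfl⟩)
    rw [map_mul, map_inv, mul_inv_eq_one, map_mul] at h1
    exact h1.symm)

theorem relA (c : Fin k) (t : ZMod n) :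
    (R (left c) (t + 1) : Grp ε M)⁻¹ * R (right c) t = inc c t (M c t).A := by
  have h1 := mk_one (ε := ε) (M := M) (Or.inr (Or.inl ⟨c, t, rfl⟩))
  rw [map_mul, map_inv, mul_inv_eq_one, map_mul, map_inv] at h1
  exact h1

theorem rela (c : Fin k) (t : ZMod n) (hc : ε c = true) :
    (R (mid c) (t + 1) : Grp ε M)⁻¹ * R (mid c) t = inc c t (M c t).a := by
  have h1 := mk_one (ε := ε) (M := M) (Or.inr (Or.inr (Or.inl ⟨c, t, hc, rfl⟩)))
  rw [map_mul, map_inv, mul_inv_eq_one, map_mul, map_inv] at h1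
  exact h1

theorem rela' (c : Fin k) (t : ZMod n) (hc : ε c = false) :
    (R (mid c) t : Grp ε M)⁻¹ * R (mid c) (t + 1) = inc c t (M c t).a := by
  have h1 := mk_one (ε := ε) (M := M) (Or.inr (Or.inr (Or.inr (Or.inl ⟨c, t, hc, rfl⟩))))
  rw [map_mul, map_inv, mul_inv_eq_one, map_mul, map_inv] at h1
  exact h1

theorem rel0 (t : ZMod n) : (R 0 t : Grp ε M) = 1 :=
  mk_one (ε := ε) (M := M) (Or.inr (Or.inr (Or.inr (Or.inr (Or.inl ⟨t, rfl⟩)))))

theorem rel1 : (R 1 0 : Grp ε M) = 1 :=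
  mk_one (ε := ε) (M := M) (Or.inr (Or.inr (Or.inr (Or.inr (Or.inr (Or.inl rfl))))))

theorem relL (t : ZMod n) : (R (Fin.last (k + 1)) t : Grp ε M) = R (Fin.last (k + 1)) 0 := by
  have h1 := mk_one (ε := ε) (M := M) (Or.inr (Or.inr (Or.inr (Or.inr (Or.inr (Or.inr ⟨t, rfl⟩))))))
  rw [map_mul, map_inv, mul_inv_eq_one] at h1
  exact h1

variable {X : Type} [LinearOrder X] (φ : Grp ε M →* Aut X)

/-- the automorphisms of the regions, with natural numbers as indices -/
def Rn (i : ℕ) (t : ZMod n) : Aut X := if h : i < k + 2 then φ (R ⟨i, h⟩ t) else 1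

theorem Rn_eq (i : Fin (k + 2)) (t : ZMod n) : Rn φ i.1 t = φ (R i t) := by
  unfold Rn; rw [dif_pos i.2]

/-- the signs, with natural numbers as indices -/
def sg (ε : Fin k → Bool) (i : ℕ) : Bool := if h : i < k then ε ⟨i, h⟩ else true

theorem sg_eq (c : Fin k) : sg ε c.1 = ε c := by unfold sg; rw [dif_pos c.2]

theorem chn (h1 : ∀ c t, (M c t).Ok) (h2 : ∀ c t, (M c t).Bounded) (h3 : ∀ c t, (M c t).Proper) :
    Chn (Rn φ) (sg ε) k := by
  intro c hc t
  have hA := congrArg φ (relA (ε := ε) (M := M) ⟨c, hc⟩ t)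
  rw [map_mul, map_inv, ← Rn_eq, ← Rn_eq, Pool.Agent.K7.H46.LO.Chain.left_val, Pool.Agent.K7.H46.LO.Chain.right_val] at hA
  have hs : sg ε c = ε ⟨c, hc⟩ := sg_eq ⟨c, hc⟩
  unfold Tri'
  split_ifs with hb
  · have ha := congrArg φ (rela (ε := ε) (M := M) ⟨c, hc⟩ t (by rw [← hs]; exact hb))
    rw [map_mul, map_inv, ← Rn_eq, ← Rn_eq, Pool.Agent.K7.H46.LO.Chain.mid_val] at ha
    exact Three.tri_of (h1 _ _) (h2 _ _) (h3 _ _) (ψ := φ.comp (inc ⟨c, hc⟩ t)) hA ha
  · have ha := congrArg φ (rela' (ε := ε) (M := M) ⟨c, hc⟩ t (by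
      rw [← hs]; simpa using hb))
    rw [map_mul, map_inv, ← Rn_eq, ← Rn_eq, Pool.Agent.K7.H46.LO.Chain.mid_val] at ha
    exact Three.tri_of (h1 _ _) (h2 _ _) (h3 _ _) (ψ := φ.comp (inc ⟨c, hc⟩ t)) hA ha

/-- All actions on linear orders are trivial, if the chain is flat. -/
theorem trivial_of_flat
    (hflat : 1 ≤ k → Chn (Rn φ) (sg ε) k → (∀ t, Rn φ 0 t = Rn φ 0 0) →
      (∀ t, Rn φ (k + 1) t = Rn φ (k + 1) 0) → ∀ p : X,
      (∀ i, i ≤ k + 1 → ∀ t, Rn φ i t p = Rn φ i 0 p) ∧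
        ∀ c, c < k → Rn φ c 0 p = Rn φ (c + 2) 0 p)
    (h1 : ∀ c t, (M c t).Ok) (h2 : ∀ c t, (M c t).Bounded) (h3 : ∀ c t, (M c t).Proper) (x : X)
    (γ : Grp ε M) : φ γ x = x := by
  have e0 : ∀ t, Rn φ 0 t = 1 := fun t => by
    have := Rn_eq φ (0 : Fin (k + 2)) t
    rw [rel0, map_one] at this
    exact this
  have e1 : Rn φ 1 0 = 1 := by
    have := Rn_eq φ (1 : Fin (k + 2)) 0
    rw [rel1, map_one] at this
    have e : ((1 : Fin (k + 2)) : ℕ) = 1 := by simp
    rw [e] at this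
    exact this
  have eL : ∀ t, Rn φ (k + 1) t = Rn φ (k + 1) 0 := fun t => by
    have := Rn_eq φ (Fin.last (k + 1)) t
    rw [relL, ← Rn_eq] at this
    exact this
  have h9 : ∀ i, i ≤ k + 1 → ∀ t, Rn φ i t x = x := by
    rcases Nat.eq_zero_or_pos k with rfl | hk
    · intro i hi t
      rcases Nat.lt_or_ge i 1 with h | h
      · obtain rfl : i = 0 := by omega
        rw [e0, one_apply]
      · obtain rfl : i = 1 := by omega
        have := eL t
        simp only [Nat.zero_add] at this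
        rw [this, e1, one_apply]
    · obtain ⟨f1, f2⟩ := hflat hk (chn φ h1 h2 h3) (fun t => by rw [e0, e0]) eL x
      intro i
      induction i using Nat.strong_induction_on with
      | _ i ih =>
        intro hi t
        rw [f1 i hi t]
        rcases Nat.lt_or_ge i 2 with h | h
        · rcases Nat.lt_or_ge i 1 with h' | h'
          · obtain rfl : i = 0 := by omega
            rw [e0, one_apply]
          · obtain rfl : i = 1 := by omega
            rw [e1, one_apply]
        · obtain ⟨c, rfl⟩ : ∃ c, i = c + 2 := ⟨i - 2, by omega⟩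
          rw [← f2 c (by omega)]
          exact ih c (by omega) (by omega) 0
  -- the regions
  have h10 : ∀ (i : Fin (k + 2)) (t : ZMod n), φ (R i t) x = x := fun i t => by
    rw [← Rn_eq]; exact h9 i.1 (by omega) t
  -- the pieces
  have h6 : ∀ (c : Fin k) (t : ZMod n) (g : (M c t).P), φ (inc c t g) x = x := by
    intro c t g
    have h7 : (φ.comp (inc c t)) (M c t).A x = x := by
      rw [MonoidHom.comp_apply, ← relA, map_mul, map_inv, mul_apply, h10]
      conv_lhs => rw [← h10 (left c) (t + 1)]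
      rw [inv_self]
    exact (h1 c t).fix X (φ.comp (inc c t)) x h7 g
  have hmem : γ ∈ Subgroup.closure (Set.range (PresentedGroup.of (rels := relators ε M))) := by
    rw [PresentedGroup.closure_range_of]; trivial
  induction hmem using Subgroup.closure_induction with
  | mem y hy =>
    obtain ⟨⟨i, t⟩ | ⟨⟨c, t⟩, g⟩, rfl⟩ := hy
    · exact h10 i t
    · exact h6 c t g
  | one => rw [map_one, one_apply]
  | mul y z _ _ h5 h6 => rw [map_mul, mul_apply, h6, h5]
  | inv y _ h5 => rw [map_inv, ← inj (φ y), self_inv, h5]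

end Cyc

/-- Chains with a certificate for the signs, or for the opposite signs. -/
theorem noLO_of_certs {n k : ℕ} [NeZero n] (h2 : 2 ≤ n) (h8 : n ≤ 8) {ε : Fin k → Bool} {l : List Bool}
    (hl : l.length = k) (b : Bool) (hε : ∀ i : Fin k, l.getD i.1 true = (ε i ^^ b))
    (hC : Certs n l) (T : Fin k → ZMod n → Tang) (hb : ∀ c t, (T c t).Bounded)
    (hp : ∀ c t, (T c t).Proper) : NoLO (CycChain ε T) := by
  intro H _ hH f γ
  refine hom_trivial (1 : CycChain ε T) ?_ ?_ H hH f γ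
  · intro X _ φ x _ γ
    refine Cyc.trivial_of_flat φ (fun hk hc e0 eL p => ?_) (fun c t => (T c t).ok)
      (fun c t => (T c t).bounded (hb c t)) (fun c t => (T c t).proper (hp c t)) x γ
    subst hl
    refine all_flat h2 h8 b (fun i hi => ?_) hC hc e0 eL p
    rw [show i = (⟨i, hi⟩ : Fin l.length).1 from rfl, hε ⟨i, hi⟩, Cyc.sg_eq]
  · intro X _ _ φ h
    obtain ⟨x⟩ := ‹Nonempty X›
    have := h x
    rw [map_one, one_apply] at this
    exact lt_irrefl _ this

end Pool.Agent.H46.CC
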