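import Pool.Graph.R_pool_sql_team_seeded_35f281b4.K7.H46.LO.Pub
import Mathlib.Data.ZMod.Basic

set_option autoImplicit false

/-!
# Closed chains with `n` tangles in each column: the definitions used in the statement

The letter `c : Fin k` stands for a tangle between the strands `c` and `c + 1` of a closed braid on the
`k + 1` strands `0, ..., k`. The chain is the closure of the word `(0 1 2 ... (k - 1)) ^ n`. The `n`
tangles for the letter `c` have the same sign `ε c`; the tangle in the round `t` is `T c t`, or the
mirror image of it in a horizontal line if the sign is negative (`ε c = false`).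

The region `(i, t)` of the column `i` (between the strands `i - 1` and `i`) is the region between the
letter `i - 1` of the round `t - 1` and the letter `i - 1` of the round `t`; the column `0` and the
column `k + 1` consist of one region.
-/

namespace Pool.Agent.H46.CC

open Pool.Agent.K7.H39.TB (Piece Tang)
open Pool.Agent.K7.H46.LO (left mid right)

variable {n k : ℕ}

namespace Cyc

variable (ε : Fin k → Bool) (M : Fin k → ZMod n → Piece)

/-- Generators: the regions and the elements of the pieces. -/
abbrev Gen : Type := (Fin (k + 2) × ZMod n) ⊕ (Σ j : Fin k × ZMod n, (M j.1 j.2).P)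

def gR (i : Fin (k + 2)) (t : ZMod n) : FreeGroup (Gen M) := FreeGroup.of (Sum.inl (i, t))
def gP (c : Fin k) (t : ZMod n) (x : (M c t).P) : FreeGroup (Gen M) :=
  FreeGroup.of (Sum.inr ⟨(c, t), x⟩)

/-- The relations: the multiplication tables of the pieces; at the letter `c` of the round `t`, the
element `A` of the piece is `west⁻¹ east`, where `west` is the region `(c, t + 1)` and `east` the
region `(c + 2, t)`, and the element `a` of the piece is `north⁻¹ south`, where `south` and `north` are
the regions of the middle column before and after the letter (after and before the letter, if the sign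
is negative). The column `0` and the first region of the column `1` are `1`, and the last column
consists of one region. -/
def relators : Set (FreeGroup (Gen M)) :=
  {r | (∃ (c : Fin k) (t : ZMod n) (x y : (M c t).P),
      r = gP M c t x * gP M c t y * (gP M c t (x * y))⁻¹) ∨
    (∃ (c : Fin k) (t : ZMod n),
      r = (gR M (left c) (t + 1))⁻¹ * gR M (right c) t * (gP M c t (M c t).A)⁻¹) ∨
    (∃ (c : Fin k) (t : ZMod n), ε c = true ∧
      r = (gR M (mid c) (t + 1))⁻¹ * gR M (mid c) t * (gP M c t (M c t).a)⁻¹) ∨
    (∃ (c : Fin k) (t : ZMod n), ε c = false ∧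
      r = (gR M (mid c) t)⁻¹ * gR M (mid c) (t + 1) * (gP M c t (M c t).a)⁻¹) ∨
    (∃ t : ZMod n, r = gR M 0 t) ∨ r = gR M 1 0 ∨
    (∃ t : ZMod n, r = gR M (Fin.last (k + 1)) t * (gR M (Fin.last (k + 1)) 0)⁻¹)}

/-- The group of the chain. -/
abbrev Grp : Type := PresentedGroup (relators ε M)

end Cyc

/-- The fundamental group of the double branched cover of the closed chain with the signs `ε` and the
tangles `T c t`, `t ∈ ZMod n`. -/
abbrev CycChain (ε : Fin k → Bool) (T : Fin k → ZMod n → Tang) : Type :=
  Cyc.Grp ε (fun c t => (T c t).piece)

/-- No three consecutive letters have the same sign. -/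
def NoThree (ε : Fin k → Bool) : Prop :=
  ∀ i : Fin k, (h : i.1 + 2 < k) → ¬ (ε i = ε ⟨i.1 + 1, by omega⟩ ∧ ε i = ε ⟨i.1 + 2, h⟩)

end Pool.Agent.H46.CC
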